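import Pool.Agent.X174.WinVecV

/-!
# Tuples of natural numbers in `[N, κ N] ^ k` with few exceptions for heights `C ^ N`: cubes around points of `ℝ ^ k`
-/

set_option autoImplicit false

open Filter

namespace Pool.Agent.X174

/-- a property `Bad H s` of tuples of natural numbers, monotone in the height `H`, with at most `K N ^ (k - 1)` exceptions in
`[N, κ N] ^ k` for `H = C ^ N`, where `K` depends only on `κ` -/
theorem winInd {k : ℕ} (hk : 1 ≤ k) (Bad : ℝ → (Fin k → ℕ) → Prop)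
    (hmono : ∀ (H H' : ℝ) (s : Fin k → ℕ), H ≤ H' → Bad H s → Bad H' s)
    (hB : ∀ κ : ℕ, ∃ K : ℕ, ∀ C : ℝ, ∃ N0 : ℕ, ∀ N : ℕ, N0 ≤ N →
      {s : Fin k → ℕ | (∀ j, N ≤ s j ∧ s j ≤ κ * N) ∧ Bad (C ^ N) s}.ncard ≤ K * N ^ (k - 1))
    {v : ℕ → ℝ} {τ ρ : ℝ} (hpos : ∀ n, 1 ≤ v n) (hτ : 0 ≤ τ) (hv : Pool.Agent.Y854.GM.ExpLe v τ) (hρ : ρ < 1) :
    ∃ E : Set (Fin k → ℝ), dimH E ≤ ENNReal.ofReal (((k : ℝ) - 1 + τ) / (1 - ρ)) ∧
      ∀ x : Fin k → ℝ, x ∉ E → (∀ j, 0 < x j) → ∀ C : ℝ, 1 ≤ C → ∃ i₀ : ℕ, ∀ i : ℕ, i₀ ≤ i → ∀ s : Fin k → ℕ,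
        (∀ j, |(s j : ℝ) - x j * v i| ≤ (v i) ^ ρ) → ¬ Bad (C ^ (v i)) s := by
  classical
  have hvp : ∀ n, 0 < v n := fun n => lt_of_lt_of_le one_pos (hpos n)
  have htv : Tendsto v atTop atTop := Pool.Agent.Y854.GM.tendsto_of_expLe hvp hτ hv
  have hk1 : (1 : ℝ) ≤ k := by exact_mod_cast hk
  have hs : (0 : ℝ) ≤ (k : ℝ) - 1 := by linarith
  have key : ∀ z : ℕ × ℕ, ∃ E : Set (Fin k → ℝ), dimH E ≤ ENNReal.ofReal (((k : ℝ) - 1 + τ) / (1 - ρ)) ∧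
      (1 ≤ z.1 → ∀ x : Fin k → ℝ, x ∉ E → ∃ i₀ : ℕ, ∀ i : ℕ, i₀ ≤ i → ∀ s : Fin k → ℕ,
        (∀ j, |(s j : ℝ) - x j * v i| ≤ (v i) ^ ρ) →
        ¬ ((∀ j, ⌊v i / (2 * z.1)⌋₊ ≤ s j ∧ s j ≤ (4 * z.1 * (z.1 + 1)) * ⌊v i / (2 * z.1)⌋₊) ∧
          Bad (((z.2 : ℝ) ^ (4 * z.1)) ^ ⌊v i / (2 * z.1)⌋₊) s)) := by
    rintro ⟨R, c⟩
    dsimp only
    by_cases hR : 1 ≤ R
    swap
    · exact ⟨∅, by simp, fun h => absurd h hR⟩
    obtain ⟨K, hK⟩ := hB (4 * R * (R + 1))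
    obtain ⟨N0, hN0⟩ := hK ((c : ℝ) ^ (4 * R))
    have hR1 : (1 : ℝ) ≤ R := by exact_mod_cast hR
    have hRp : (0 : ℝ) < R := by linarith
    -- large `i`
    obtain ⟨i₁, hi₁⟩ := (htv.eventually_ge_atTop (2 * R * N0)).exists_forall_of_atTop
    obtain ⟨E, h1, h2⟩ := windowsVecV (κ := Fin k) (T := Fin k → ℕ)
      (fun i => {s : Fin k → ℕ | (∀ j, ⌊v i / (2 * R)⌋₊ ≤ s j ∧ s j ≤ (4 * R * (R + 1)) * ⌊v i / (2 * R)⌋₊) ∧
          Bad (((c : ℝ) ^ (4 * R)) ^ ⌊v i / (2 * R)⌋₊) s}) (fun _ s j => (s j : ℝ)) hpos hτ hv hs hρ (by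
        intro ε hε
        refine ⟨K, i₁, fun i hi => ⟨?_, ?_⟩⟩
        · refine (Set.finite_Iic (fun _ : Fin k => 4 * R * (R + 1) * ⌊v i / (2 * R)⌋₊)).subset fun s hs => ?_
          intro j
          exact (hs.1 j).2
        · have h3 : N0 ≤ ⌊v i / (2 * R)⌋₊ := by
            apply Nat.le_floor
            rw [le_div_iff₀ (by positivity)]
            have := hi₁ i hi
            linarith
          have h4 := hN0 _ h3
          have h5 : ((⌊v i / (2 * R)⌋₊ : ℕ) : ℝ) ≤ v i := by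
            refine (Nat.floor_le (by have := hvp i; positivity)).trans ?_
            rw [div_le_iff₀ (by positivity)]
            nlinarith [hvp i]
          calc (({s : Fin k → ℕ | (∀ j, ⌊v i / (2 * R)⌋₊ ≤ s j ∧ s j ≤ (4 * R * (R + 1)) * ⌊v i / (2 * R)⌋₊) ∧
                Bad (((c : ℝ) ^ (4 * R)) ^ ⌊v i / (2 * R)⌋₊) s}.ncard : ℕ) : ℝ)
              ≤ ((K * ⌊v i / (2 * R)⌋₊ ^ (k - 1) : ℕ) : ℝ) := by exact_mod_cast h4
            _ = K * ((⌊v i / (2 * R)⌋₊ : ℕ) : ℝ) ^ (k - 1) := by push_cast; ring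
            _ ≤ K * (v i) ^ (k - 1) := by gcongr
            _ = K * (v i) ^ ((k : ℝ) - 1) := by
                rw [← Real.rpow_natCast (v i) (k - 1), Nat.cast_sub hk, Nat.cast_one]
            _ ≤ K * (v i) ^ ((k : ℝ) - 1 + ε) := by
                apply mul_le_mul_of_nonneg_left _ (Nat.cast_nonneg K)
                exact Real.rpow_le_rpow_of_exponent_le (hpos i) (by linarith))
    refine ⟨E, h1, fun _ x hx => ?_⟩
    obtain ⟨i₀, hi⟩ := h2 x hx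
    exact ⟨i₀, fun i hi1 s hs hbad => hi i hi1 s hbad hs⟩
  choose Es h1 h2 using key
  refine ⟨⋃ z, Es z, ?_, fun x hx hx0 C hC => ?_⟩
  · rw [dimH_iUnion]
    exact iSup_le h1
  -- the parameters
  obtain ⟨R, hR, hRu, hRl⟩ : ∃ R : ℕ, 1 ≤ R ∧ (∀ j, x j ≤ R) ∧ ∀ j, 1 / (R : ℝ) ≤ x j := by
    obtain ⟨R, hR⟩ := exists_nat_ge (∑ j, (x j + 1 / x j) + 1)
    have h3 : ∀ j, x j + 1 / x j ≤ ∑ j, (x j + 1 / x j) := fun j =>
      Finset.single_le_sum (f := fun j => x j + 1 / x j) (fun i _ => by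
        have := hx0 i
        positivity) (Finset.mem_univ j)
    have h4 : (0 : ℝ) ≤ ∑ j, (x j + 1 / x j) := Finset.sum_nonneg fun i _ => by
      have := hx0 i
      positivity
    refine ⟨R, ?_, fun j => ?_, fun j => ?_⟩
    · have : (1 : ℝ) ≤ R := by linarith
      exact_mod_cast this
    · have := h3 j
      have h5 : 0 < 1 / x j := by
        have := hx0 j
        positivity
      linarith
    · have h5 := h3 j
      have h6 := hx0 j
      have h7 : 1 / x j ≤ R := by linarith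
      have hRp : (0 : ℝ) < R := lt_of_lt_of_le (by positivity) h7
      rw [div_le_iff₀ hRp]
      rw [div_le_iff₀ h6] at h7
      linarith
  have hR1 : (1 : ℝ) ≤ R := by exact_mod_cast hR
  have hRp : (0 : ℝ) < R := by linarith
  set c : ℕ := ⌈C⌉₊ with hc
  have hCc : C ≤ c := Nat.le_ceil C
  have hc1 : (1 : ℝ) ≤ c := hC.trans hCc
  obtain ⟨i₀, hi₀⟩ := h2 (R, c) hR x (fun hm => hx (Set.mem_iUnion.2 ⟨_, hm⟩))
  dsimp only at hi₀
  -- large `i`: `v_i ^ ρ ≤ v_i / (2 R)` and `4 R ≤ v_i`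
  have ht : Tendsto (fun i => (v i) ^ (1 - ρ)) atTop atTop := (tendsto_rpow_atTop (by linarith)).comp htv
  obtain ⟨i₁, hi₁⟩ := (ht.eventually_ge_atTop (2 * (R : ℝ))).exists_forall_of_atTop
  obtain ⟨i₂, hi₂⟩ := (htv.eventually_ge_atTop (4 * (R : ℝ))).exists_forall_of_atTop
  refine ⟨max i₀ (max i₁ i₂), fun i hi s hsx hbad => ?_⟩
  have hia : i₀ ≤ i := (le_max_left _ _).trans hi
  have hib : i₁ ≤ i := ((le_max_left _ _).trans (le_max_right _ _)).trans hi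
  have hic : i₂ ≤ i := ((le_max_right _ _).trans (le_max_right _ _)).trans hi
  have hvi := hpos i
  have hvip := hvp i
  have h3 : (v i) ^ ρ ≤ v i / (2 * R) := by
    rw [le_div_iff₀ (by positivity)]
    have h4 := hi₁ i hib
    calc (v i) ^ ρ * (2 * R) ≤ (v i) ^ ρ * (v i) ^ (1 - ρ) := mul_le_mul_of_nonneg_left h4 (by positivity)
      _ = v i := by rw [← Real.rpow_add hvip]; simp
  have h4R := hi₂ i hic
  set N : ℕ := ⌊v i / (2 * R)⌋₊ with hN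
  have hNle : (N : ℝ) ≤ v i / (2 * R) := Nat.floor_le (by positivity)
  have hNge : v i ≤ 4 * R * N := by
    have h5 : v i / (2 * R) < N + 1 := Nat.lt_floor_add_one _
    rw [div_lt_iff₀ (by positivity)] at h5
    have h6 : (1 : ℝ) ≤ N := by
      have : 1 ≤ N := Nat.le_floor (by
        rw [Nat.cast_one, le_div_iff₀ (by positivity)]
        linarith)
      exact_mod_cast this
    nlinarith
  refine hi₀ i hia s hsx ⟨fun j => ⟨?_, ?_⟩, hmono _ _ s ?_ hbad⟩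
  · have h5 := (abs_le.1 (hsx j)).1
    have h6 : v i / R ≤ x j * v i := by
      have := mul_le_mul_of_nonneg_right (hRl j) hvip.le
      calc v i / R = 1 / R * v i := by ring
        _ ≤ x j * v i := this
    have h7 : v i / R = v i / (2 * R) + v i / (2 * R) := by
      field_simp
      ring
    have h8 : (N : ℝ) ≤ s j := by linarith
    exact (Nat.cast_le (α := ℝ)).1 h8
  · have h5 := (abs_le.1 (hsx j)).2
    have h6 : x j * v i ≤ R * v i := mul_le_mul_of_nonneg_right (hRu j) hvip.le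
    have h7 : v i / (2 * R) ≤ v i := by
      rw [div_le_iff₀ (by positivity)]
      nlinarith
    have h8 : (s j : ℝ) ≤ (R + 1) * v i := by linarith
    have h9 : (s j : ℝ) ≤ ((4 * R * (R + 1) * N : ℕ) : ℝ) := by
      push_cast
      calc (s j : ℝ) ≤ (R + 1) * v i := h8
        _ ≤ (R + 1) * (4 * R * N) := mul_le_mul_of_nonneg_left hNge (by positivity)
        _ = _ := by ring
    exact (Nat.cast_le (α := ℝ)).1 h9
  · calc C ^ (v i) ≤ (c : ℝ) ^ (v i) := Real.rpow_le_rpow (by linarith) hCc hvip.le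
      _ ≤ (c : ℝ) ^ (4 * (R : ℝ) * N) := Real.rpow_le_rpow_of_exponent_le hc1 hNge
      _ = ((c : ℝ) ^ (4 * R)) ^ N := by
          rw [← pow_mul, ← Real.rpow_natCast]
          push_cast
          rfl

/-- a set of dimension zero does not contain all points with a positive coordinate -/
theorem exists_pos_notMem {E : Set (Fin 1 → ℝ)} (h : dimH E ≤ ENNReal.ofReal 0) : ∃ x : Fin 1 → ℝ, x ∉ E ∧ ∀ j, 0 < x j := by
  by_contra hcon
  push Not at hcon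
  have h1 : {x : Fin 1 → ℝ | 0 < x 0} ⊆ E := by
    intro x hx
    by_contra hxE
    obtain ⟨j, hj⟩ := hcon x hxE
    have hj0 : j = 0 := Subsingleton.elim _ _
    rw [hj0] at hj
    exact absurd hx (not_lt.2 hj)
  have h2 : IsOpen {x : Fin 1 → ℝ | 0 < x 0} := isOpen_lt continuous_const (continuous_apply 0)
  have h3 : (interior {x : Fin 1 → ℝ | 0 < x 0}).Nonempty := by
    rw [h2.interior_eq]
    exact ⟨fun _ => 1, by simp⟩
  have h4 := Real.dimH_of_nonempty_interior h3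
  have h5 := (dimH_mono h1).trans h
  rw [h4, ENNReal.ofReal_zero] at h5
  simp at h5

/-- one tuple in a cube, for the sequence `2 ^ i` -/
theorem pick {P : ℝ → (Fin 1 → ℕ) → Prop} {E : Set (Fin 1 → ℝ)}
    (hE : dimH E ≤ ENNReal.ofReal ((((1 : ℕ) : ℝ) - 1 + 0) / (1 - 0)))
    (h : ∀ x : Fin 1 → ℝ, x ∉ E → (∀ j, 0 < x j) → ∃ i₀ : ℕ, ∀ i : ℕ, i₀ ≤ i → ∀ s : Fin 1 → ℕ,
      (∀ j, |(s j : ℝ) - x j * (2 : ℝ) ^ i| ≤ ((2 : ℝ) ^ i) ^ (0 : ℝ)) → P ((2 : ℝ) ^ i) s) :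
    ∃ (i : ℕ) (s : Fin 1 → ℕ), P ((2 : ℝ) ^ i) s := by
  obtain ⟨x, hx, hx0⟩ := exists_pos_notMem (E := E) (by simpa using hE)
  obtain ⟨i₀, hi₀⟩ := h x hx hx0
  refine ⟨i₀, fun _ => ⌊x 0 * (2 : ℝ) ^ i₀⌋₊, hi₀ i₀ le_rfl _ fun j => ?_⟩
  have hj0 : j = 0 := Subsingleton.elim _ _
  rw [hj0, Real.rpow_zero]
  have h1 : 0 ≤ x 0 * (2 : ℝ) ^ i₀ := by
    have := hx0 0
    positivity
  rw [abs_le]
  constructor
  · linarith [Nat.lt_floor_add_one (x 0 * (2 : ℝ) ^ i₀)]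
  · linarith [Nat.floor_le h1]

end Pool.Agent.X174
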