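import Pool.Agent.X174.WinRat

/-! Rational numbers whose numerator and denominator lie in squares around the members of a thin sequence of points;
families of exceptional sets with `C T ^ (s + ε)` elements. -/

set_option autoImplicit false

open Finset Filter Topology MeasureTheory

namespace Pool.Agent.X174

/-- general families of sets `Exc T` with at most `C T ^ (s + ε)` elements -/
theorem winFamE {κ : Type} [Fintype κ] {Q : Type} (h : Q → κ → ℝ) (Exc : ℝ → Set Q) {s : ℝ} (hs : 0 ≤ s)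
    (hE : ∀ ε : ℝ, 0 < ε → ∃ C : ℝ, ∀ T : ℝ, 1 ≤ T → (Exc T).Finite ∧ ((Exc T).ncard : ℝ) ≤ C * T ^ (s + ε))
    {v : ℕ → ℝ} {τ ρ : ℝ}
    (hpos : ∀ n, 1 ≤ v n) (hτ : 0 ≤ τ) (hv : Pool.Agent.Y854.GM.ExpLe v τ) (hρ : ρ < 1) :
    ∃ E : Set (κ → ℝ), dimH E ≤ ENNReal.ofReal ((s + τ) / (1 - ρ)) ∧ ∀ α : κ → ℝ, α ∉ E →
      ∀ R : ℕ, 1 ≤ R → ∃ i₀ : ℕ, ∀ i : ℕ, i₀ ≤ i → ∀ q : Q,
        (∀ j, |h q j - α j * v i| ≤ (v i) ^ ρ) → q ∉ Exc (R * v i) := by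
  have hvp : ∀ n, 0 < v n := fun n => lt_of_lt_of_le one_pos (hpos n)
  have key : ∀ R : ℕ, ∃ E : Set (κ → ℝ), dimH E ≤ ENNReal.ofReal ((s + τ) / (1 - ρ)) ∧ (1 ≤ R → ∀ α : κ → ℝ, α ∉ E →
      ∃ i₀ : ℕ, ∀ i : ℕ, i₀ ≤ i → ∀ q : Q,
        (∀ j, |h q j - α j * v i| ≤ (v i) ^ ρ) → q ∉ Exc (R * v i)) := by
    intro R
    by_cases hR : 1 ≤ R
    · have hR1 : (1 : ℝ) ≤ R := by exact_mod_cast hR
      have hRp : (0 : ℝ) < R := by linarith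
      obtain ⟨E, h1, h2⟩ := windowsVecV (fun i => Exc (R * v i)) (fun _ q j => h q j) hpos hτ hv hs hρ (by
        intro ε hε
        obtain ⟨C, hC⟩ := hE ε hε
        refine ⟨|C| * (R : ℝ) ^ (s + ε), 0, fun i _ => ?_⟩
        have hT : 1 ≤ (R : ℝ) * v i := by nlinarith [hpos i]
        obtain ⟨h3, h4⟩ := hC _ hT
        refine ⟨h3, h4.trans ?_⟩
        calc C * ((R : ℝ) * v i) ^ (s + ε) ≤ |C| * ((R : ℝ) * v i) ^ (s + ε) :=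
              mul_le_mul_of_nonneg_right (le_abs_self C) (by positivity)
          _ = |C| * (R : ℝ) ^ (s + ε) * (v i) ^ (s + ε) := by
              rw [Real.mul_rpow hRp.le (hvp i).le]
              ring)
      refine ⟨E, h1, fun _ α hα => ?_⟩
      obtain ⟨i₀, hi⟩ := h2 α hα
      exact ⟨i₀, fun i hi1 q hq hqE => hi i hi1 q hqE hq⟩
    · exact ⟨∅, by simp, fun h => absurd h hR⟩
  choose Es h1 h2 using key
  refine ⟨⋃ R, Es R, ?_, fun α hα R hR => h2 R hR α (fun hm => hα (Set.mem_iUnion.2 ⟨_, hm⟩))⟩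
  rw [dimH_iUnion]
  exact iSup_le h1

/-- rational numbers of small height with a property: few ones -/
theorem winQ (Bad : ℚ → Prop) {s : ℝ} (hs : 0 ≤ s)
    (hE : ∀ ε : ℝ, 0 < ε → ∃ C : ℝ, ∀ T : ℝ, 1 ≤ T → {c : ℚ | Height.logHeight₁ c ≤ Real.log T ∧ Bad c}.Finite ∧
      ({c : ℚ | Height.logHeight₁ c ≤ Real.log T ∧ Bad c}.ncard : ℝ) ≤ C * T ^ (s + ε))
    {v : ℕ → ℝ} {τ ρ : ℝ}
    (hpos : ∀ n, 1 ≤ v n) (hτ : 0 ≤ τ) (hv : Pool.Agent.Y854.GM.ExpLe v τ) (hρ : ρ < 1) :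
    ∃ E : Set (Fin 2 → ℝ), dimH E ≤ ENNReal.ofReal ((s + τ) / (1 - ρ)) ∧ ∀ x : Fin 2 → ℝ, x ∉ E →
      ∃ i₀ : ℕ, ∀ i : ℕ, i₀ ≤ i → ∀ c : ℚ,
        |(c.num : ℝ) - x 0 * v i| ≤ (v i) ^ ρ → |(c.den : ℝ) - x 1 * v i| ≤ (v i) ^ ρ → ¬ Bad c := by
  obtain ⟨E, h1, h2⟩ := winFamE (κ := Fin 2) (Q := ℚ) (fun c => ![(c.num : ℝ), (c.den : ℝ)])
    (fun T => {c : ℚ | Height.logHeight₁ c ≤ Real.log T ∧ Bad c}) hs hE hpos hτ hv hρ
  refine ⟨E, h1, fun x hx => ?_⟩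
  obtain ⟨R, hR, hRc⟩ := le_of_cube x
  obtain ⟨i₀, hi₀⟩ := h2 x hx R hR
  refine ⟨i₀, fun i hi c hn hd hbad => ?_⟩
  have hc : ∀ j, |(![(c.num : ℝ), (c.den : ℝ)] : Fin 2 → ℝ) j - x j * v i| ≤ (v i) ^ ρ := by
    intro j
    fin_cases j
    · simpa using hn
    · simpa using hd
  refine hi₀ i hi c hc ⟨?_, hbad⟩
  have h3 := hRc _ (v i) ρ (hpos i) hρ hc
  have h4 : |(c.num : ℝ)| ≤ R * v i := by simpa using h3 0
  have h5 : (c.den : ℝ) ≤ R * v i := by simpa using h3 1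
  rw [Rat.logHeight₁_eq_log_max]
  have h6 : (0 : ℝ) < (max c.num.natAbs c.den : ℕ) := by
    have : 0 < max c.num.natAbs c.den := lt_of_lt_of_le c.den_pos (le_max_right _ _)
    exact_mod_cast this
  apply Real.log_le_log h6
  push_cast
  refine max_le ?_ h5
  rw [Nat.cast_natAbs]
  push_cast
  exact h4

/-- the height of a rational number in terms of its numerator and denominator -/
lemma logHeight_le_iff (c : ℚ) {T : ℝ} (hT : 1 ≤ T) :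
    Height.logHeight₁ c ≤ Real.log T ↔ max |(c.num : ℝ)| (c.den : ℝ) ≤ T := by
  rw [Rat.logHeight₁_eq_log_max]
  have h6 : (0 : ℝ) < (max c.num.natAbs c.den : ℕ) := by
    have : 0 < max c.num.natAbs c.den := lt_of_lt_of_le c.den_pos (le_max_right _ _)
    exact_mod_cast this
  rw [Real.log_le_log_iff h6 (by linarith)]
  have e : ((max c.num.natAbs c.den : ℕ) : ℝ) = max |(c.num : ℝ)| (c.den : ℝ) := by
    push_cast
    rw [Nat.cast_natAbs]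
    push_cast
    rfl
  rw [e]

/-- the same with the maximum of numerator and denominator instead of the height -/
theorem winQmax (Bad : ℚ → Prop) {s : ℝ} (hs : 0 ≤ s)
    (hE : ∀ ε : ℝ, 0 < ε → ∃ C : ℝ, ∀ T : ℝ, 1 ≤ T → {c : ℚ | max |(c.num : ℝ)| (c.den : ℝ) ≤ T ∧ Bad c}.Finite ∧
      ({c : ℚ | max |(c.num : ℝ)| (c.den : ℝ) ≤ T ∧ Bad c}.ncard : ℝ) ≤ C * T ^ (s + ε))
    {v : ℕ → ℝ} {τ ρ : ℝ}
    (hpos : ∀ n, 1 ≤ v n) (hτ : 0 ≤ τ) (hv : Pool.Agent.Y854.GM.ExpLe v τ) (hρ : ρ < 1) :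
    ∃ E : Set (Fin 2 → ℝ), dimH E ≤ ENNReal.ofReal ((s + τ) / (1 - ρ)) ∧ ∀ x : Fin 2 → ℝ, x ∉ E →
      ∃ i₀ : ℕ, ∀ i : ℕ, i₀ ≤ i → ∀ c : ℚ,
        |(c.num : ℝ) - x 0 * v i| ≤ (v i) ^ ρ → |(c.den : ℝ) - x 1 * v i| ≤ (v i) ^ ρ → ¬ Bad c := by
  apply winQ Bad hs _ hpos hτ hv hρ
  intro ε hε
  obtain ⟨C, hC⟩ := hE ε hε
  refine ⟨C, fun T hT => ?_⟩
  have e : {c : ℚ | Height.logHeight₁ c ≤ Real.log T ∧ Bad c} =
      {c : ℚ | max |(c.num : ℝ)| (c.den : ℝ) ≤ T ∧ Bad c} := by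
    ext c
    simp only [Set.mem_setOf_eq, logHeight_le_iff c hT]
  rw [e]
  exact hC T hT

end Pool.Agent.X174
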