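import Pool.Agent.X174.WinQ

/-!
# Tuples of positive natural numbers with few exceptions: all tuples in cubes around thin sequences of points
-/

set_option autoImplicit false

open Filter

namespace Pool.Agent.X174

/-- a property `Bad` of tuples of positive natural numbers with at most `C N ^ (s + ε)` tuples in `[1, N] ^ κ`: outside a small
set the cubes contain no such tuples -/
theorem winTupE {κ : Type} [Fintype κ] (Bad : (κ → ℕ) → Prop) {s : ℝ} (hs : 0 ≤ s)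
    (h : ∀ ε : ℝ, 0 < ε → ∃ C : ℝ, ∀ N : ℕ, 2 ≤ N →
      ({t : κ → ℕ | (∀ j, 1 ≤ t j ∧ t j ≤ N) ∧ Bad t}.ncard : ℝ) ≤ C * (N : ℝ) ^ (s + ε))
    {v : ℕ → ℝ} {τ ρ : ℝ} (hpos : ∀ n, 1 ≤ v n) (hτ : 0 ≤ τ) (hv : Pool.Agent.Y854.GM.ExpLe v τ) (hρ : ρ < 1) :
    ∃ E : Set (κ → ℝ), dimH E ≤ ENNReal.ofReal ((s + τ) / (1 - ρ)) ∧ ∀ x : κ → ℝ, x ∉ E →
      ∃ i₀ : ℕ, ∀ i : ℕ, i₀ ≤ i → ∀ t : κ → ℕ, (∀ j, 1 ≤ t j) →
        (∀ j, |(t j : ℝ) - x j * v i| ≤ (v i) ^ ρ) → ¬ Bad t := by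
  classical
  have hfin : ∀ N : ℕ, {t : κ → ℕ | (∀ j, 1 ≤ t j ∧ t j ≤ N) ∧ Bad t}.Finite := by
    intro N
    refine (Set.finite_Iic (fun _ : κ => N)).subset ?_
    rintro t ⟨ht, -⟩
    exact fun j => (ht j).2
  obtain ⟨E, h1, h2⟩ := winFamE (κ := κ) (Q := κ → ℕ) (fun t j => (t j : ℝ))
    (fun T => {t : κ → ℕ | (∀ j, 1 ≤ t j ∧ t j ≤ ⌊T⌋₊) ∧ Bad t}) hs (by
      intro ε hε
      obtain ⟨C, hC⟩ := h ε hε
      refine ⟨max C 0 + 1, fun T hT => ⟨hfin _, ?_⟩⟩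
      have hT0 : (0 : ℝ) < T := by linarith
      have hTp : (1 : ℝ) ≤ T ^ (s + ε) := Real.one_le_rpow hT (by linarith)
      by_cases hN : 2 ≤ ⌊T⌋₊
      · have h3 := hC _ hN
        have h4 : ((⌊T⌋₊ : ℕ) : ℝ) ^ (s + ε) ≤ T ^ (s + ε) :=
          Real.rpow_le_rpow (Nat.cast_nonneg _) (Nat.floor_le hT0.le) (by linarith)
        calc ({t : κ → ℕ | (∀ j, 1 ≤ t j ∧ t j ≤ ⌊T⌋₊) ∧ Bad t}.ncard : ℝ)
            ≤ C * ((⌊T⌋₊ : ℕ) : ℝ) ^ (s + ε) := h3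
          _ ≤ max C 0 * ((⌊T⌋₊ : ℕ) : ℝ) ^ (s + ε) :=
              mul_le_mul_of_nonneg_right (le_max_left _ _) (by positivity)
          _ ≤ max C 0 * T ^ (s + ε) := mul_le_mul_of_nonneg_left h4 (le_max_right _ _)
          _ ≤ (max C 0 + 1) * T ^ (s + ε) := by nlinarith
      · have h3 : {t : κ → ℕ | (∀ j, 1 ≤ t j ∧ t j ≤ ⌊T⌋₊) ∧ Bad t} ⊆ {fun _ => 1} := by
          rintro t ⟨ht, -⟩
          refine Set.mem_singleton_iff.2 (funext fun j => ?_)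
          have h4 := ht j
          omega
        have h4 := Set.ncard_le_ncard h3 (Set.finite_singleton _)
        rw [Set.ncard_singleton] at h4
        have h5 : ({t : κ → ℕ | (∀ j, 1 ≤ t j ∧ t j ≤ ⌊T⌋₊) ∧ Bad t}.ncard : ℝ) ≤ 1 := by exact_mod_cast h4
        have h6 : 0 ≤ max C 0 := le_max_right _ _
        nlinarith) hpos hτ hv hρ
  refine ⟨E, h1, fun x hx => ?_⟩
  obtain ⟨R, hR⟩ := exists_nat_ge (∑ j, |x j| + 1)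
  have hR1 : (1 : ℝ) ≤ R := by
    have : (0 : ℝ) ≤ ∑ j, |x j| := Finset.sum_nonneg fun _ _ => abs_nonneg _
    linarith
  obtain ⟨i₀, hi₀⟩ := h2 x hx R (by exact_mod_cast hR1)
  refine ⟨i₀, fun i hi t ht htx hbad => hi₀ i hi t htx ⟨fun j => ⟨ht j, ?_⟩, hbad⟩⟩
  have hvi := hpos i
  have h3 : |x j| ≤ ∑ j, |x j| := Finset.single_le_sum (f := fun j => |x j|) (fun _ _ => abs_nonneg _) (Finset.mem_univ j)
  have h4 : (v i) ^ ρ ≤ v i := by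
    calc (v i) ^ ρ ≤ (v i) ^ (1 : ℝ) := Real.rpow_le_rpow_of_exponent_le hvi hρ.le
      _ = v i := Real.rpow_one _
  have h5 := (abs_le.1 (htx j)).2
  have h6 : x j * v i ≤ |x j| * v i := mul_le_mul_of_nonneg_right (le_abs_self _) (by linarith)
  apply Nat.le_floor
  nlinarith

/-- `log N ≤ C N ^ ε` -/
theorem log_le_rpow (m : ℕ) {ε : ℝ} (hε : 0 < ε) : ∃ C : ℝ, 0 ≤ C ∧ ∀ N : ℕ, 1 ≤ N → (Real.log N) ^ m ≤ C * (N : ℝ) ^ ε := by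
  by_cases hm : m = 0
  · subst hm
    refine ⟨1, zero_le_one, fun N hN => ?_⟩
    have h1 : (1 : ℝ) ≤ N := by exact_mod_cast hN
    have h2 := Real.one_le_rpow h1 hε.le
    rw [pow_zero, one_mul]
    exact h2
  · have hm0 : (0 : ℝ) < m := by exact_mod_cast Nat.pos_of_ne_zero hm
    have hδ : 0 < ε / m := div_pos hε hm0
    refine ⟨(1 / (ε / m)) ^ m, by positivity, fun N hN => ?_⟩
    have h1 : (1 : ℝ) ≤ N := by exact_mod_cast hN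
    have h2 : Real.log N ≤ (N : ℝ) ^ (ε / m) / (ε / m) := Real.log_le_rpow_div (by linarith) hδ
    have h3 : 0 ≤ Real.log N := Real.log_nonneg h1
    calc (Real.log N) ^ m ≤ ((N : ℝ) ^ (ε / m) / (ε / m)) ^ m := pow_le_pow_left₀ h3 h2 m
      _ = (1 / (ε / m)) ^ m * ((N : ℝ) ^ (ε / m)) ^ m := by rw [div_eq_mul_inv, mul_pow, one_div, mul_comm]
      _ = (1 / (ε / m)) ^ m * (N : ℝ) ^ ε := by
          rw [← Real.rpow_natCast ((N : ℝ) ^ (ε / m)), ← Real.rpow_mul (by linarith)]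
          congr 2
          field_simp

/-- at most `K N ^ (k - 1) log N` exceptions in `[1, N] ^ k` -/
theorem winExpo {k : ℕ} (hk : 1 ≤ k) (Bad : (Fin k → ℕ) → Prop) {K : ℝ} (hK : 0 ≤ K)
    (h : ∀ N : ℕ, 2 ≤ N → ({t : Fin k → ℕ | (∀ j, 1 ≤ t j ∧ t j ≤ N) ∧ Bad t}.ncard : ℝ) * N ≤
      K * (N : ℝ) ^ k * Real.log N)
    {v : ℕ → ℝ} {τ ρ : ℝ} (hpos : ∀ n, 1 ≤ v n) (hτ : 0 ≤ τ) (hv : Pool.Agent.Y854.GM.ExpLe v τ) (hρ : ρ < 1) :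
    ∃ E : Set (Fin k → ℝ), dimH E ≤ ENNReal.ofReal (((k : ℝ) - 1 + τ) / (1 - ρ)) ∧ ∀ x : Fin k → ℝ, x ∉ E →
      ∃ i₀ : ℕ, ∀ i : ℕ, i₀ ≤ i → ∀ t : Fin k → ℕ, (∀ j, 1 ≤ t j) →
        (∀ j, |(t j : ℝ) - x j * v i| ≤ (v i) ^ ρ) → ¬ Bad t := by
  have hk1 : (1 : ℝ) ≤ k := by exact_mod_cast hk
  refine winTupE Bad (by linarith) (fun ε hε => ?_) hpos hτ hv hρ
  obtain ⟨C, hC0, hC⟩ := log_le_rpow 1 hε
  refine ⟨K * C, fun N hN => ?_⟩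
  have hN1 : (1 : ℝ) ≤ N := by exact_mod_cast (by omega : 1 ≤ N)
  have hN0 : (0 : ℝ) < N := by linarith
  have h1 := h N hN
  have h2 := hC N (by omega)
  rw [pow_one] at h2
  have h3 : K * (N : ℝ) ^ k * Real.log N ≤ K * (N : ℝ) ^ k * (C * (N : ℝ) ^ ε) :=
    mul_le_mul_of_nonneg_left h2 (by positivity)
  have h4 : K * (N : ℝ) ^ k * (C * (N : ℝ) ^ ε) = (K * C * (N : ℝ) ^ ((k : ℝ) - 1 + ε)) * N := by
    rw [show (k : ℝ) - 1 + ε = k + ε - 1 by ring, Real.rpow_sub hN0, Real.rpow_one, Real.rpow_add hN0, Real.rpow_natCast]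
    field_simp
  rw [h4] at h3
  exact le_of_mul_le_mul_right (h1.trans h3) hN0

/-- at most `(K log N) ^ m` exceptions in `[1, N] ^ κ` -/
theorem winLog {κ : Type} [Fintype κ] (m : ℕ) (Bad : (κ → ℕ) → Prop) {K : ℝ}
    (h : ∀ N : ℕ, 2 ≤ N → ({t : κ → ℕ | (∀ j, 1 ≤ t j ∧ t j ≤ N) ∧ Bad t}.ncard : ℝ) ≤ (K * Real.log N) ^ m)
    {v : ℕ → ℝ} {τ ρ : ℝ} (hpos : ∀ n, 1 ≤ v n) (hτ : 0 ≤ τ) (hv : Pool.Agent.Y854.GM.ExpLe v τ) (hρ : ρ < 1) :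
    ∃ E : Set (κ → ℝ), dimH E ≤ ENNReal.ofReal (τ / (1 - ρ)) ∧ ∀ x : κ → ℝ, x ∉ E →
      ∃ i₀ : ℕ, ∀ i : ℕ, i₀ ≤ i → ∀ t : κ → ℕ, (∀ j, 1 ≤ t j) →
        (∀ j, |(t j : ℝ) - x j * v i| ≤ (v i) ^ ρ) → ¬ Bad t := by
  have key := winTupE Bad (s := 0) le_rfl (fun ε hε => by
    obtain ⟨C, hC0, hC⟩ := log_le_rpow m hε
    refine ⟨|K| ^ m * C, fun N hN => ?_⟩
    have hN1 : (1 : ℝ) ≤ N := by exact_mod_cast (by omega : 1 ≤ N)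
    have h1 := h N hN
    have h2 := hC N (by omega)
    calc ({t : κ → ℕ | (∀ j, 1 ≤ t j ∧ t j ≤ N) ∧ Bad t}.ncard : ℝ) ≤ (K * Real.log N) ^ m := h1
      _ ≤ |(K * Real.log N) ^ m| := le_abs_self _
      _ = |K| ^ m * (Real.log N) ^ m := by
          rw [abs_pow, abs_mul, mul_pow, abs_of_nonneg (Real.log_nonneg hN1)]
      _ ≤ |K| ^ m * (C * (N : ℝ) ^ ε) := mul_le_mul_of_nonneg_left h2 (by positivity)
      _ = |K| ^ m * C * (N : ℝ) ^ (0 + ε) := by rw [zero_add]; ring) hpos hτ hv hρ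
  rw [zero_add] at key
  exact key

/-- at most `K log N` exceptions in `[1, N]`: windows in `ℝ` -/
theorem winLog1 (Bad : ℕ → Prop) {K : ℝ}
    (h : ∀ N : ℕ, 2 ≤ N → ({t : ℕ | 1 ≤ t ∧ t ≤ N ∧ Bad t}.ncard : ℝ) ≤ K * Real.log N)
    {v : ℕ → ℝ} {τ ρ : ℝ} (hpos : ∀ n, 1 ≤ v n) (hτ : 0 ≤ τ) (hv : Pool.Agent.Y854.GM.ExpLe v τ) (hρ : ρ < 1) :
    ∃ E : Set ℝ, dimH E ≤ ENNReal.ofReal (τ / (1 - ρ)) ∧ ∀ α : ℝ, α ∉ E →
      ∃ i₀ : ℕ, ∀ i : ℕ, i₀ ≤ i → ∀ t : ℕ, 1 ≤ t → |(t : ℝ) - α * v i| ≤ (v i) ^ ρ → ¬ Bad t := by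
  obtain ⟨E, h1, h2⟩ := winLog (κ := Fin 1) 1 (fun t => Bad (t 0)) (K := K) (fun N hN => by
    rw [pow_one]
    refine le_trans ?_ (h N hN)
    have h3 : {t : Fin 1 → ℕ | (∀ j, 1 ≤ t j ∧ t j ≤ N) ∧ Bad (t 0)} ⊆
        (fun a : ℕ => fun _ : Fin 1 => a) '' {t : ℕ | 1 ≤ t ∧ t ≤ N ∧ Bad t} := by
      rintro t ⟨ht, hb⟩
      refine ⟨t 0, ⟨(ht 0).1, (ht 0).2, hb⟩, ?_⟩
      funext j
      rw [show j = 0 from Subsingleton.elim _ _]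
    have hfin : {t : ℕ | 1 ≤ t ∧ t ≤ N ∧ Bad t}.Finite := (Set.finite_Iic N).subset fun t ht => ht.2.1
    exact_mod_cast (Set.ncard_le_ncard h3 (hfin.image _)).trans (Set.ncard_image_le hfin)) hpos hτ hv hρ
  set ι : ℝ → Fin 1 → ℝ := fun α _ => α with hι
  have hiso : Isometry ι := by
    apply Isometry.of_dist_eq
    intro a b
    exact dist_pi_const a b
  refine ⟨ι ⁻¹' E, ?_, fun α hα => ?_⟩
  · calc dimH (ι ⁻¹' E) = dimH (ι '' (ι ⁻¹' E)) := (hiso.dimH_image _).symm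
      _ ≤ dimH E := dimH_mono (Set.image_preimage_subset _ _)
      _ ≤ _ := h1
  · obtain ⟨i₀, hi₀⟩ := h2 (ι α) hα
    exact ⟨i₀, fun i hi t ht htα => hi₀ i hi (fun _ => t) (fun _ => ht) fun _ => htα⟩

end Pool.Agent.X174
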