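import Pool.Agent.Y854.GM.Win

/-! Windows in several dimensions: cubes around the members `α v_n`, `α ∈ ℝ ^ κ`, of a thin sequence of points which
contain no element of a thin set. The exceptional `α` have dimension at most `(s + τ) / (1 - θ)`, where the set has at
most `X ^ s` elements in `[-X, X] ^ κ`, the sequence `v` has exponent of convergence `τ`, and the cubes have side
`2 v_n ^ θ`. -/

set_option autoImplicit false

open Finset Filter Topology MeasureTheory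

namespace Pool.Agent.X174

open scoped ENNReal NNReal
open Pool.Agent.Y854.GM (ExpLe tendsto_of_expLe)

/-- one bounded range of amplitudes -/
theorem dim_winVec {κ : Type} [Fintype κ] {T : Type} (S : Set T) (h : T → κ → ℝ) {v : ℕ → ℝ} {s τ θ D : ℝ}
    (hpos : ∀ n, 1 ≤ v n) (hτ : 0 ≤ τ)
    (hv : ExpLe v τ) (hs : 0 ≤ s) (hθ1 : θ < 1) (hD : s + τ < D * (1 - θ)) (C : ℝ) (hC : 0 ≤ C)
    (hS : ∀ X : ℝ, 1 ≤ X → {t | t ∈ S ∧ ∀ j, |h t j| ≤ X}.Finite ∧
      ({t | t ∈ S ∧ ∀ j, |h t j| ≤ X}.ncard : ℝ) ≤ C * X ^ s) (A : ℕ) :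
    dimH {α : κ → ℝ | (∀ j, |α j| ≤ A) ∧ ∀ n1 : ℕ, ∃ n : ℕ, n1 ≤ n ∧ ∃ t ∈ S, ∀ j, |h t j - α j * v n| ≤ (v n) ^ θ} ≤
      ENNReal.ofReal D := by
  have h1θ : 0 < 1 - θ := by linarith
  have hD0 : 0 < D := by
    have h1 : 0 < D * (1 - θ) := lt_of_le_of_lt (by positivity) hD
    exact (pos_iff_pos_of_mul_pos h1).2 h1θ
  have hDn : ((Real.toNNReal D : ℝ≥0) : ℝ) = D := Real.coe_toNNReal D hD0.le
  have hgoal : ENNReal.ofReal D = ((Real.toNNReal D : ℝ≥0) : ℝ≥0∞) := rfl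
  rw [hgoal]
  apply dimH_le_of_hausdorffMeasure_ne_top
  rw [hDn]
  have hvp : ∀ n, 0 < v n := fun n => lt_of_lt_of_le one_pos (hpos n)
  have hX : ∀ m : ℕ, 1 ≤ ((A : ℝ) + 1) * v m := by
    intro m
    have h1 := hpos m
    have h2 : (0 : ℝ) ≤ A := Nat.cast_nonneg A
    nlinarith
  set U : ℕ → Finset T := fun m => (hS (((A : ℝ) + 1) * v m) (hX m)).1.toFinset with hU
  set K : ℝ := C * ((A : ℝ) + 1) ^ s with hK
  have hK0 : 0 ≤ K := by positivity
  set p : ℝ := D * (1 - θ) - s with hp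
  have hp1 : τ < p := by rw [hp]; linarith
  have hp0 : 0 < p := lt_of_le_of_lt hτ hp1
  have hcard : ∀ m : ℕ, ((U m).card : ℝ) ≤ K * (v m) ^ s := by
    intro m
    have h2 := (hS (((A : ℝ) + 1) * v m) (hX m)).2
    rw [Real.mul_rpow (by positivity) (hvp m).le, ← mul_assoc] at h2
    rw [Set.ncard_eq_toFinset_card _ (hS (((A : ℝ) + 1) * v m) (hX m)).1] at h2
    exact h2
  set r0 : ℕ → ℝ := fun n => 2 * (v n) ^ (θ - 1) with hr0
  have hr0p : ∀ n, 0 < r0 n := fun n => mul_pos two_pos (Real.rpow_pos_of_pos (hvp n) _)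
  have hsum : Summable (fun m : ℕ => (2 ^ D * K) * (v m) ^ (-p)) := (hv p hp1).mul_left _
  have hlev : ∀ m : ℕ, ((U m).card : ℝ) * (r0 m) ^ D ≤ (2 ^ D * K) * (v m) ^ (-p) := by
    intro m
    have hm0 := hvp m
    calc ((U m).card : ℝ) * (r0 m) ^ D ≤ (K * (v m) ^ s) * (r0 m) ^ D :=
          mul_le_mul_of_nonneg_right (hcard m) (Real.rpow_nonneg (hr0p m).le _)
      _ = (2 ^ D * K) * ((v m) ^ s * (v m) ^ ((θ - 1) * D)) := by
          rw [hr0, Real.mul_rpow two_pos.le (Real.rpow_nonneg hm0.le _), ← Real.rpow_mul hm0.le]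
          ring
      _ = (2 ^ D * K) * (v m) ^ (-p) := by
          rw [← Real.rpow_add hm0]
          congr 2
          rw [hp]
          ring
  have htv : Tendsto v atTop atTop := tendsto_of_expLe hvp hτ hv
  have hr0t : Tendsto r0 atTop (𝓝 0) := by
    have h1 : Tendsto (fun n => (v n) ^ (-(1 - θ))) atTop (𝓝 0) := (tendsto_rpow_neg_atTop h1θ).comp htv
    have h2 := h1.const_mul 2
    rw [mul_zero] at h2
    refine h2.congr (fun n => ?_)
    rw [hr0]
    simp only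
    congr 2
    ring
  have hr : ∀ ε : ℝ≥0∞, 0 < ε → ∃ N : ℕ, ∀ n : ℕ, N ≤ n → ENNReal.ofReal (r0 n) ≤ ε := by
    intro ε hε
    have h1 := ENNReal.tendsto_ofReal hr0t
    rw [ENNReal.ofReal_zero] at h1
    exact ((h1.eventually (ge_mem_nhds hε))).exists_forall_of_atTop
  set r : ℕ → ℝ≥0∞ := fun n => ⨆ i : ℕ, ENNReal.ofReal (r0 (n + i)) with hrdef
  have hrt : Tendsto r atTop (𝓝 0) := by
    rw [ENNReal.tendsto_atTop_zero]
    intro ε hε
    obtain ⟨N, hN⟩ := hr ε hε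
    exact ⟨N, fun n hn => iSup_le fun i => hN _ (by omega)⟩
  set W : ℕ → T → Set (κ → ℝ) := fun n t => Metric.closedBall (fun j => h t j / v n) ((v n) ^ (θ - 1)) with hW
  have hd : ∀ (n : ℕ) (t : T), Metric.ediam (W n t) ≤ ENNReal.ofReal (r0 n) := by
    intro n t
    apply Metric.ediam_le_of_forall_dist_le
    intro x hx y hy
    have h1 := Metric.mem_closedBall.1 hx
    have h2 := Metric.mem_closedBall.1 hy
    have h3 := dist_triangle_right x y (fun j => h t j / v n)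
    rw [hr0]
    simp only
    linarith
  have key := Measure.hausdorffMeasure_le_liminf_tsum (X := κ → ℝ) (β := ℕ)
    (ι := fun n => Σ i : ℕ, (U (n + i))) D
    {α : κ → ℝ | (∀ j, |α j| ≤ A) ∧ ∀ n1 : ℕ, ∃ n : ℕ, n1 ≤ n ∧ ∃ t ∈ S, ∀ j, |h t j - α j * v n| ≤ (v n) ^ θ}
    (l := atTop) r hrt
    (fun n q => W (n + q.1) (q.2 : T))
    (Eventually.of_forall fun n q => (hd (n + q.1) q.2).trans (le_iSup (fun i : ℕ => ENNReal.ofReal (r0 (n + i))) q.1))
    (Eventually.of_forall fun n α hα => by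
      obtain ⟨hαA, hlim⟩ := hα
      obtain ⟨m, hm1, t, ht, hm3⟩ := hlim n
      obtain ⟨i, rfl⟩ := Nat.exists_eq_add_of_le hm1
      have hmp : 0 < v (n + i) := hvp _
      have hw : (v (n + i)) ^ θ ≤ v (n + i) := by
        calc (v (n + i)) ^ θ ≤ (v (n + i)) ^ (1 : ℝ) := Real.rpow_le_rpow_of_exponent_le (hpos _) hθ1.le
          _ = v (n + i) := Real.rpow_one _
      have hmem : t ∈ U (n + i) := by
        rw [hU, Set.Finite.mem_toFinset]
        refine ⟨ht, fun j => ?_⟩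
        have h1 : |α j * v (n + i)| ≤ A * v (n + i) := by
          rw [abs_mul, abs_of_pos hmp]
          exact mul_le_mul_of_nonneg_right (hαA j) hmp.le
        have h2 : |h t j| ≤ |h t j - α j * v (n + i)| + |α j * v (n + i)| := by
          have := abs_add_le (h t j - α j * v (n + i)) (α j * v (n + i))
          rwa [sub_add_cancel] at this
        have h3 := hm3 j
        linarith
      rw [Set.mem_iUnion]
      refine ⟨⟨i, ⟨_, hmem⟩⟩, ?_⟩
      rw [hW]
      simp only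
      rw [Metric.mem_closedBall, dist_pi_le_iff (Real.rpow_nonneg hmp.le _)]
      intro j
      rw [Real.dist_eq, Real.rpow_sub_one hmp.ne', le_div_iff₀ hmp]
      calc |α j - h t j / v (n + i)| * v (n + i) = |(α j - h t j / v (n + i)) * v (n + i)| := by
            rw [abs_mul, abs_of_pos hmp]
        _ = |h t j - α j * v (n + i)| := by
            rw [abs_sub_comm]
            congr 1
            field_simp
        _ ≤ _ := hm3 j)
  refine ne_top_of_le_ne_top ?_ key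
  have hnn : ∀ m : ℕ, 0 ≤ (2 ^ D * K) * (v m) ^ (-p) := fun m =>
    mul_nonneg (by positivity) (Real.rpow_nonneg (hvp m).le _)
  have htot : (∑' m : ℕ, ENNReal.ofReal ((2 ^ D * K) * (v m) ^ (-p))) ≠ ⊤ := by
    rw [← ENNReal.ofReal_tsum_of_nonneg hnn hsum]
    exact ENNReal.ofReal_ne_top
  have hbound : ∀ n : ℕ, (∑' q : Σ i : ℕ, (U (n + i)), Metric.ediam (W (n + q.1) (q.2 : T)) ^ D) ≤
      ∑' m : ℕ, ENNReal.ofReal ((2 ^ D * K) * (v m) ^ (-p)) := by
    intro n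
    rw [ENNReal.tsum_sigma']
    calc (∑' i : ℕ, ∑' x : (U (n + i)), Metric.ediam (W (n + i) (x : T)) ^ D)
        ≤ ∑' i : ℕ, ENNReal.ofReal ((2 ^ D * K) * (v (n + i)) ^ (-p)) := by
          apply ENNReal.tsum_le_tsum
          intro i
          have h1 : ∀ x : (U (n + i)), Metric.ediam (W (n + i) (x : T)) ^ D ≤ ENNReal.ofReal ((r0 (n + i)) ^ D) := by
            intro x
            rw [← ENNReal.ofReal_rpow_of_pos (hr0p _)]
            exact ENNReal.rpow_le_rpow (hd _ _) hD0.le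
          refine (ENNReal.tsum_le_tsum h1).trans ?_
          rw [tsum_fintype]
          simp only [Finset.sum_const, Finset.card_univ, Fintype.card_coe, nsmul_eq_mul]
          rw [← ENNReal.ofReal_natCast, ← ENNReal.ofReal_mul (by positivity)]
          apply ENNReal.ofReal_le_ofReal
          exact hlev (n + i)
      _ ≤ ∑' m : ℕ, ENNReal.ofReal ((2 ^ D * K) * (v m) ^ (-p)) :=
          ENNReal.tsum_comp_le_tsum_of_injective (f := fun i : ℕ => n + i)
            (fun a b h => by simpa using h) (fun m : ℕ => ENNReal.ofReal ((2 ^ D * K) * (v m) ^ (-p)))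
  refine ne_top_of_le_ne_top htot ?_
  apply Filter.liminf_le_of_le
  · isBoundedDefault
  · intro b hb
    obtain ⟨n, hn⟩ := hb.exists
    exact hn.trans (hbound n)

/-- **Cubes without elements of a thin set.** Let `S` have at most `C X ^ (s + ε)` elements `t` with all coordinates
`h t j` at most `X` in absolute value, for each `ε > 0`, let the exponent of convergence of the sequence `v ≥ 1` be at
most `τ`, and `θ < 1`. For all `α ∈ ℝ ^ κ` outside a set of dimension at most `(s + τ) / (1 - θ)` and all but finitely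
many `n` no element `t` of `S` satisfies `|h t j - α_j v_n| ≤ v_n ^ θ` for all `j`. -/
theorem windowsVec {κ : Type} [Fintype κ] {T : Type} (S : Set T) (h : T → κ → ℝ) {v : ℕ → ℝ} {s τ θ : ℝ}
    (hpos : ∀ n, 1 ≤ v n) (hτ : 0 ≤ τ) (hv : ExpLe v τ) (hs : 0 ≤ s) (hθ1 : θ < 1)
    (hS : ∀ ε : ℝ, 0 < ε → ∃ C : ℝ, ∀ X : ℝ, 1 ≤ X →
      {t | t ∈ S ∧ ∀ j, |h t j| ≤ X}.Finite ∧ ({t | t ∈ S ∧ ∀ j, |h t j| ≤ X}.ncard : ℝ) ≤ C * X ^ (s + ε)) :
    ∃ E : Set (κ → ℝ), dimH E ≤ ENNReal.ofReal ((s + τ) / (1 - θ)) ∧ ∀ α : κ → ℝ, α ∉ E →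
      ∃ n0 : ℕ, ∀ n : ℕ, n0 ≤ n → ∀ t ∈ S, ¬ ∀ j, |h t j - α j * v n| ≤ (v n) ^ θ := by
  have h1θ : 0 < 1 - θ := by linarith
  set F : ℕ → Set (κ → ℝ) := fun A => {α : κ → ℝ | (∀ j, |α j| ≤ A) ∧ ∀ n1 : ℕ, ∃ n : ℕ, n1 ≤ n ∧
    ∃ t ∈ S, ∀ j, |h t j - α j * v n| ≤ (v n) ^ θ} with hF
  refine ⟨⋃ A, F A, ?_, fun α hαE => ?_⟩
  · rw [dimH_iUnion]
    apply iSup_le
    intro A
    apply ENNReal.le_of_forall_pos_le_add
    intro ε hε _
    have hε' : (0 : ℝ) < ε := by exact_mod_cast hε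
    set ε1 : ℝ := ε * (1 - θ) / 2 with hε1
    have hε1p : 0 < ε1 := by positivity
    obtain ⟨C, hC⟩ := hS ε1 hε1p
    have hC' : ∀ X : ℝ, 1 ≤ X → {t | t ∈ S ∧ ∀ j, |h t j| ≤ X}.Finite ∧
        ({t | t ∈ S ∧ ∀ j, |h t j| ≤ X}.ncard : ℝ) ≤ |C| * X ^ (s + ε1) := by
      intro X hX
      exact ⟨(hC X hX).1, (hC X hX).2.trans (mul_le_mul_of_nonneg_right (le_abs_self C) (by positivity))⟩
    have h1 := dim_winVec S h hpos hτ hv (s := s + ε1) (by positivity) hθ1
      (D := (s + τ) / (1 - θ) + ε) (by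
        rw [add_mul, div_mul_cancel₀ _ h1θ.ne']
        have : (ε : ℝ) * (1 - θ) = 2 * ε1 := by rw [hε1]; ring
        linarith) |C| (abs_nonneg C) hC' A
    rw [ENNReal.ofReal_add (by positivity) (by positivity), ENNReal.ofReal_coe_nnreal] at h1
    exact h1
  · obtain ⟨A, hA⟩ : ∃ A : ℕ, ∀ j, |α j| ≤ A := by
      obtain ⟨A, hA⟩ := exists_nat_ge (∑ j, |α j|)
      exact ⟨A, fun j => (Finset.single_le_sum (f := fun j => |α j|) (fun i _ => abs_nonneg _) (Finset.mem_univ j)).trans hA⟩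
    have h1 : α ∉ F A := fun h => hαE (Set.mem_iUnion.2 ⟨_, h⟩)
    by_contra hcon
    push Not at hcon
    apply h1
    exact ⟨hA, fun n1 => hcon n1⟩

end Pool.Agent.X174
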