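import Pool.Agent.X174.WinQ
import Pool.Agent.X174.WinVec

/-!
# From thin families of binary numbers to boxes, and to cubes without exceptions
-/

set_option autoImplicit false

open Finset

namespace Pool.Agent.X174

lemma bin_lt {e : ℕ → ℕ} (he : ∀ i, e i < 2) : ∀ K : ℕ, ∑ i ∈ range K, e i * 2 ^ i < 2 ^ K
  | 0 => by simp
  | K + 1 => by
    rw [sum_range_succ, pow_succ]
    have h1 := bin_lt he K
    have h2 := he K
    have h3 : e K * 2 ^ K ≤ 1 * 2 ^ K := Nat.mul_le_mul_right _ (by omega)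
    omega

lemma bin_digit {e : ℕ → ℕ} (he : ∀ i, e i < 2) : ∀ K i : ℕ, i < K → (∑ j ∈ range K, e j * 2 ^ j) / 2 ^ i % 2 = e i
  | 0, i, h => absurd h (Nat.not_lt_zero i)
  | K + 1, i, h => by
    rw [sum_range_succ]
    rcases Nat.lt_succ_iff_lt_or_eq.1 h with h1 | rfl
    · have h2 : (2 : ℕ) ^ K = 2 ^ i * (2 * 2 ^ (K - i - 1)) := by
        rw [← pow_succ', ← pow_add]
        congr 1
        omega
      rw [h2, show e K * (2 ^ i * (2 * 2 ^ (K - i - 1))) = 2 ^ i * (e K * (2 * 2 ^ (K - i - 1))) by ring,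
        Nat.add_mul_div_left _ _ (by positivity), show e K * (2 * 2 ^ (K - i - 1)) = 2 * (e K * 2 ^ (K - i - 1)) by ring,
        Nat.add_mul_mod_self_left]
      exact bin_digit he K i h1
    · have h1 := bin_lt he i
      rw [mul_comm (e i) (2 ^ i), Nat.add_mul_div_left _ _ (by positivity), Nat.div_eq_of_lt h1, zero_add]
      exact Nat.mod_eq_of_lt (he i)

lemma bin_sum : ∀ (K n : ℕ), n < 2 ^ K → ∑ i ∈ range K, (n / 2 ^ i % 2) * 2 ^ i = n := by
  have key : ∀ (K n : ℕ), ∑ i ∈ range K, (n / 2 ^ i % 2) * 2 ^ i = n % 2 ^ K := by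
    intro K n
    induction K with
    | zero => simp [Nat.mod_one]
    | succ K ih =>
      rw [sum_range_succ, ih, Nat.mod_pow_succ]
      ring
  intro K n h
  rw [key, Nat.mod_eq_of_lt h]

/-- the numbers with the digits at the places of `S` flipped -/
def flip (K : ℕ) (S : Finset ℕ) (n : ℕ) : ℕ := ∑ i ∈ range K, (if i ∈ S then 1 - n / 2 ^ i % 2 else n / 2 ^ i % 2) * 2 ^ i

lemma flip_lt (K : ℕ) (S : Finset ℕ) (n : ℕ) : flip K S n < 2 ^ K := by
  apply bin_lt
  intro i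
  split_ifs <;> omega

lemma flip_flip (K : ℕ) (S : Finset ℕ) {n : ℕ} (hn : n < 2 ^ K) : flip K S (flip K S n) = n := by
  conv_rhs => rw [← bin_sum K n hn]
  unfold flip
  refine sum_congr rfl fun i hi => ?_
  have h1 := bin_digit (e := fun i => if i ∈ S then 1 - n / 2 ^ i % 2 else n / 2 ^ i % 2)
    (fun i => by split_ifs <;> omega) K i (mem_range.1 hi)
  rw [h1]
  congr 1
  split_ifs <;> omega

/-- double counting -/
theorem box_of_thin {d : ℕ} (K r : Fin d → ℕ) (hr : ∀ l, r l ≤ K l) (Bad : (Fin d → ℕ) → Prop) [DecidablePred Bad] (P : ℝ)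
    (h : ∀ N : Fin d → ℕ, (∀ l, N l < 2 ^ K l) →
      (((Fintype.piFinset (fun l => powersetCard (r l) (range (K l)))).filter
        (fun S => Bad (fun l => flip (K l) (S l) (N l)))).card : ℝ) ≤ P * ∏ l, ((K l).choose (r l) : ℝ)) :
    (((Fintype.piFinset (fun l => range (2 ^ K l))).filter Bad).card : ℝ) ≤ P * ∏ l, (2 : ℝ) ^ K l := by
  classical
  set SS := Fintype.piFinset (fun l => powersetCard (r l) (range (K l))) with hSS
  set Box := Fintype.piFinset (fun l => range (2 ^ K l)) with hBox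
  have hcS : (SS.card : ℝ) = ∏ l, ((K l).choose (r l) : ℝ) := by
    rw [hSS, Fintype.card_piFinset]
    push_cast
    refine prod_congr rfl fun l _ => ?_
    rw [card_powersetCard, card_range]
  have hcB : (Box.card : ℝ) = ∏ l, (2 : ℝ) ^ K l := by
    rw [hBox, Fintype.card_piFinset]
    push_cast
    refine prod_congr rfl fun l _ => ?_
    rw [card_range]
    push_cast
    rfl
  have hSpos : (0 : ℝ) < SS.card := by
    rw [hcS]
    exact prod_pos fun l _ => by exact_mod_cast Nat.choose_pos (hr l)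
  have hcount : ∑ N ∈ Box, (SS.filter (fun S => Bad (fun l => flip (K l) (S l) (N l)))).card = SS.card * (Box.filter Bad).card := by
    have h1 : ∑ N ∈ Box, (SS.filter (fun S => Bad (fun l => flip (K l) (S l) (N l)))).card =
        ∑ S ∈ SS, (Box.filter (fun N => Bad (fun l => flip (K l) (S l) (N l)))).card := by
      simp only [card_filter]
      exact sum_comm
    rw [h1, ← smul_eq_mul, ← sum_const]
    refine sum_congr rfl fun S _ => ?_
    refine card_nbij' (fun N l => flip (K l) (S l) (N l)) (fun N l => flip (K l) (S l) (N l)) ?_ ?_ ?_ ?_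
    · intro N hN
      rw [mem_coe, mem_filter] at hN ⊢
      refine ⟨Fintype.mem_piFinset.2 fun l => mem_range.2 (flip_lt _ _ _), hN.2⟩
    · intro N hN
      rw [mem_coe, mem_filter] at hN ⊢
      refine ⟨Fintype.mem_piFinset.2 fun l => mem_range.2 (flip_lt _ _ _), ?_⟩
      have h2 : (fun l => flip (K l) (S l) (flip (K l) (S l) (N l))) = N := by
        funext l
        exact flip_flip _ _ (mem_range.1 (Fintype.mem_piFinset.1 hN.1 l))
      rw [h2]
      exact hN.2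
    · intro N hN
      rw [mem_coe, mem_filter] at hN
      funext l
      exact flip_flip _ _ (mem_range.1 (Fintype.mem_piFinset.1 hN.1 l))
    · intro N hN
      rw [mem_coe, mem_filter] at hN
      funext l
      exact flip_flip _ _ (mem_range.1 (Fintype.mem_piFinset.1 hN.1 l))
  have h2 : (SS.card : ℝ) * (Box.filter Bad).card ≤ SS.card * (P * Box.card) := by
    have h3 : ((SS.card * (Box.filter Bad).card : ℕ) : ℝ) ≤ ∑ _N ∈ Box, P * SS.card := by
      rw [← hcount]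
      push_cast
      refine sum_le_sum fun N hN => ?_
      rw [hcS]
      exact h N fun l => mem_range.1 (Fintype.mem_piFinset.1 hN l)
    rw [sum_const, nsmul_eq_mul] at h3
    push_cast at h3
    linarith
  rw [← hcB]
  exact le_of_mul_le_mul_left h2 hSpos

/-- a sequence with an exponent of convergence tends to infinity -/
lemma tendsto_of_expLe {v : ℕ → ℝ} {τ : ℝ} (hpos : ∀ n, 1 ≤ v n) (hτ : 0 ≤ τ) (hv : Pool.Agent.Y854.GM.ExpLe v τ) (B : ℝ) :
    ∀ᶠ i in Filter.atTop, B ≤ v i := by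
  have h1 := (hv (τ + 1) (by linarith)).tendsto_atTop_zero
  have h2 : (0 : ℝ) < (max B 1) ^ (-(τ + 1)) := Real.rpow_pos_of_pos (lt_max_of_lt_right one_pos) _
  filter_upwards [h1.eventually (gt_mem_nhds h2)] with i hi
  by_contra hB
  rw [not_le] at hB
  have h3 : v i ≤ max B 1 := hB.le.trans (le_max_left _ _)
  have h4 := Real.rpow_le_rpow_of_nonpos (by linarith [hpos i]) h3 (show -(τ + 1) ≤ 0 by linarith)
  linarith

/-- **Cubes without exceptions from thin families.** -/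
theorem digitWin {d : ℕ} {c : ℝ} (hc : 0 < c) (y₀ A : ℕ) (Good : ℕ → (Fin d → ℕ) → Prop)
    (H : ∀ (K r : Fin d → ℕ) (y : ℕ), (∀ l, 2 * r l ≤ K l) → y₀ ≤ y → ∀ N : Fin d → ℕ, (∀ l, N l < 2 ^ K l) →
      ∀ f : Fin d → ℕ → ℕ, (∀ l j, f l j < 2 ∧ f l j ≠ N l / 2 ^ j % 2) →
      ∃ W : Finset (Fin d → Finset ℕ), (W.card : ℝ) ≤ 1 / (y : ℝ) ^ A * ∏ l, ((K l).choose (r l) : ℝ) ∧
        ∀ S ∈ Fintype.piFinset (fun l => powersetCard (r l) (range (K l))), S ∉ W →
          ∀ x : ℕ, y ≤ x → (∀ l, (x : ℝ) ≤ Real.exp (c * r l)) →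
            Good x (fun l => ∑ i ∈ range (K l), (if i ∈ S l then f l i else N l / 2 ^ i % 2) * 2 ^ i))
    {κ : ℝ} (hκ : 0 < κ) (hκA : κ * A ≤ d) {v : ℕ → ℝ} {τ ρ : ℝ} (hpos : ∀ n, 1 ≤ v n) (hτ : 0 ≤ τ)
    (hv : Pool.Agent.Y854.GM.ExpLe v τ) (hρ : ρ < 1) :
    ∃ E : Set (Fin d → ℝ), dimH E ≤ ENNReal.ofReal (((d : ℝ) - κ * A + τ) / (1 - ρ)) ∧ ∀ x : Fin d → ℝ, x ∉ E →
      ∃ i₀ : ℕ, ∀ i : ℕ, i₀ ≤ i → ∀ m : Fin d → ℕ, (∀ l, |(m l : ℝ) - x l * v i| ≤ (v i) ^ ρ) →
        ∀ X : ℕ, (v i) ^ κ ≤ X → (X : ℝ) ≤ (v i) ^ (c / 4) → Good X m := by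
  classical
  -- the levels
  set lev : ℝ → ℕ := fun T => Nat.log 2 ⌈T⌉₊ + 1 with hlev
  set yy : ℝ → ℕ := fun T => max (max y₀ 1) ⌈T ^ κ / (1 + Real.log T)⌉₊ with hyy
  set Bad : ℝ → (Fin d → ℕ) → Prop := fun T m => ¬ ∀ x : ℕ, yy T ≤ x → (x : ℝ) ≤ Real.exp (c * (lev T / 2 : ℕ)) → Good x m
    with hBad
  have hlev1 : ∀ T : ℝ, 1 ≤ T → T < (2 : ℝ) ^ lev T ∧ (2 : ℝ) ^ lev T ≤ 4 * T := by
    intro T hT
    have hTp : (0 : ℝ) < T := by linarith
    have hH1 : ⌈T⌉₊ ≠ 0 := (Nat.ceil_pos.2 hTp).ne'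
    have h1 : ⌈T⌉₊ < 2 ^ lev T := Nat.lt_pow_succ_log_self one_lt_two _
    have h2 : 2 ^ Nat.log 2 ⌈T⌉₊ ≤ ⌈T⌉₊ := Nat.pow_log_le_self 2 hH1
    have h3 : (⌈T⌉₊ : ℝ) ≤ 2 * T := by
      have := Nat.ceil_lt_add_one hTp.le
      linarith
    constructor
    · exact (Nat.le_ceil T).trans_lt (by exact_mod_cast h1)
    · have h4 : ((2 ^ Nat.log 2 ⌈T⌉₊ : ℕ) : ℝ) ≤ ⌈T⌉₊ := by exact_mod_cast h2
      push_cast at h4
      show (2 : ℝ) ^ (Nat.log 2 ⌈T⌉₊ + 1) ≤ 4 * T
      rw [pow_succ]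
      linarith
  -- the count
  have hcount : ∀ T : ℝ, 1 ≤ T → (((Fintype.piFinset (fun _ : Fin d => range (2 ^ lev T))).filter (Bad T)).card : ℝ) ≤
      4 ^ d * (1 + Real.log T) ^ A * T ^ ((d : ℝ) - κ * A) := by
    intro T hT
    have hTp : (0 : ℝ) < T := by linarith
    have hlog : 0 ≤ Real.log T := Real.log_nonneg hT
    have hy1 : T ^ κ / (1 + Real.log T) ≤ (yy T : ℝ) := (Nat.le_ceil _).trans (by exact_mod_cast le_max_right _ _)
    have hy0 : y₀ ≤ yy T := (le_max_left _ _).trans (le_max_left _ _)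
    have h1 := box_of_thin (fun _ : Fin d => lev T) (fun _ => lev T / 2) (fun _ => Nat.div_le_self _ _) (Bad T)
      (1 / (yy T : ℝ) ^ A) (fun N hN => by
        obtain ⟨W, hW1, hW2⟩ := H (fun _ => lev T) (fun _ => lev T / 2) (yy T) (fun _ => Nat.mul_div_le _ _) hy0 N hN
          (fun l j => 1 - N l / 2 ^ j % 2) (fun l j => by
            have := Nat.mod_lt (N l / 2 ^ j) two_pos
            omega)
        refine le_trans ?_ hW1
        have hsub : ((Fintype.piFinset (fun _ : Fin d => powersetCard (lev T / 2) (range (lev T)))).filter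
            (fun S => Bad T (fun l => flip (lev T) (S l) (N l)))) ⊆ W := by
          intro S hS
          rw [mem_filter] at hS
          by_contra hSW
          refine hS.2 fun x hx1 hx2 => ?_
          exact hW2 S hS.1 hSW x hx1 fun _ => hx2
        exact_mod_cast card_le_card hsub)
    refine h1.trans ?_
    rw [prod_const, card_univ, Fintype.card_fin]
    have h2 : ((2 : ℝ) ^ lev T) ^ d ≤ (4 * T) ^ d := pow_le_pow_left₀ (by positivity) (hlev1 T hT).2 d
    have h3 : T ^ (κ * A) / (1 + Real.log T) ^ A ≤ (yy T : ℝ) ^ A := by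
      calc T ^ (κ * A) / (1 + Real.log T) ^ A = (T ^ κ / (1 + Real.log T)) ^ A := by
            rw [div_pow, ← Real.rpow_natCast (T ^ κ), ← Real.rpow_mul hTp.le]
        _ ≤ (yy T : ℝ) ^ A := pow_le_pow_left₀ (by positivity) hy1 A
    have h4 : 1 / (yy T : ℝ) ^ A ≤ (1 + Real.log T) ^ A * T ^ (-(κ * A)) := by
      refine (one_div_le_one_div_of_le (by positivity) h3).trans (le_of_eq ?_)
      rw [Real.rpow_neg hTp.le, one_div_div, div_eq_mul_inv]
    calc 1 / (yy T : ℝ) ^ A * ((2 : ℝ) ^ lev T) ^ d ≤ ((1 + Real.log T) ^ A * T ^ (-(κ * A))) * (4 * T) ^ d :=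
          mul_le_mul h4 h2 (by positivity) (by positivity)
      _ = 4 ^ d * (1 + Real.log T) ^ A * T ^ ((d : ℝ) - κ * A) := by
          rw [mul_pow, show (d : ℝ) - κ * A = d + (-(κ * A)) by ring, Real.rpow_add hTp, Real.rpow_natCast]
          ring
  have hs : 0 ≤ (d : ℝ) - κ * A := by linarith
  obtain ⟨E, h1, h2⟩ := winFamE (κ := Fin d) (Q := Fin d → ℕ) (fun m l => (m l : ℝ))
    (fun T => (((Fintype.piFinset (fun _ : Fin d => range (2 ^ lev T))).filter (Bad T) : Finset (Fin d → ℕ)) : Set (Fin d → ℕ)))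
    (s := (d : ℝ) - κ * A) hs (by
      intro ε hε
      set ε' : ℝ := ε / (A + 1) with hε'
      have hε'0 : 0 < ε' := by positivity
      refine ⟨4 ^ d * (1 + 1 / ε') ^ A, fun T hT => ⟨Finset.finite_toSet _, ?_⟩⟩
      rw [Set.ncard_coe_finset]
      refine (hcount T hT).trans ?_
      have hTp : (0 : ℝ) < T := by linarith
      have hlog : 0 ≤ Real.log T := Real.log_nonneg hT
      have h3 : 1 + Real.log T ≤ (1 + 1 / ε') * T ^ ε' := by
        have h4 := Real.log_le_rpow_div hTp.le hε'0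
        have h5 : 1 ≤ T ^ ε' := Real.one_le_rpow hT hε'0.le
        rw [div_eq_mul_one_div, mul_comm] at h4
        linarith
      have h6 : (1 + Real.log T) ^ A ≤ (1 + 1 / ε') ^ A * T ^ ε := by
        calc (1 + Real.log T) ^ A ≤ ((1 + 1 / ε') * T ^ ε') ^ A := pow_le_pow_left₀ (by linarith) h3 A
          _ = (1 + 1 / ε') ^ A * T ^ (ε' * A) := by rw [mul_pow, ← Real.rpow_natCast (T ^ ε'), ← Real.rpow_mul hTp.le]
          _ ≤ (1 + 1 / ε') ^ A * T ^ ε := by
              apply mul_le_mul_of_nonneg_left _ (by positivity)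
              apply Real.rpow_le_rpow_of_exponent_le hT
              rw [hε', div_mul_eq_mul_div, div_le_iff₀ (by positivity)]
              nlinarith
      calc 4 ^ d * (1 + Real.log T) ^ A * T ^ ((d : ℝ) - κ * A)
          ≤ 4 ^ d * ((1 + 1 / ε') ^ A * T ^ ε) * T ^ ((d : ℝ) - κ * A) := by
            apply mul_le_mul_of_nonneg_right _ (by positivity)
            exact mul_le_mul_of_nonneg_left h6 (by positivity)
        _ = 4 ^ d * (1 + 1 / ε') ^ A * T ^ ((d : ℝ) - κ * A + ε) := by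
            rw [Real.rpow_add hTp]
            ring) hpos hτ hv hρ
  refine ⟨E, h1, fun x hx => ?_⟩
  obtain ⟨R, hR, hRc⟩ := le_of_cube x
  obtain ⟨i₀, hi₀⟩ := h2 x hx R hR
  have hR1 : (1 : ℝ) ≤ R := by exact_mod_cast hR
  -- `v i` is large
  set Y : ℝ := ((max y₀ 1 : ℕ) : ℝ) with hY
  have hY1 : 1 ≤ Y := by
    rw [hY]
    exact_mod_cast le_max_right y₀ 1
  obtain ⟨i₁, hi₁⟩ := Filter.eventually_atTop.1 (tendsto_of_expLe hpos hτ hv
    (max (Real.exp 2) (max (Real.exp (2 * (R : ℝ) ^ κ)) ((2 * Y) ^ (1 / κ)))))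
  refine ⟨max i₀ i₁, fun i hi m hm X hX1 hX2 => ?_⟩
  have hvi := hpos i
  have hvi0 : 0 < v i := by linarith
  have hbig := hi₁ i ((le_max_right _ _).trans hi)
  have hbig1 : Real.exp 2 ≤ v i := (le_max_left _ _).trans hbig
  have hbig2 : Real.exp (2 * (R : ℝ) ^ κ) ≤ v i := ((le_max_left _ _).trans (le_max_right _ _)).trans hbig
  have hbig3 : (2 * Y) ^ (1 / κ) ≤ v i := ((le_max_right _ _).trans (le_max_right _ _)).trans hbig
  set T : ℝ := R * v i with hT
  have hT1 : 1 ≤ T := by nlinarith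
  have hTp : 0 < T := by linarith
  have hvT : v i ≤ T := by nlinarith
  have h3 := hi₀ i ((le_max_left _ _).trans hi) m hm
  have h6 := hRc (fun l => (m l : ℝ)) (v i) ρ hvi hρ hm
  rw [mem_coe, mem_filter, not_and] at h3
  have h4 : m ∈ Fintype.piFinset (fun _ : Fin d => range (2 ^ lev T)) := by
    refine Fintype.mem_piFinset.2 fun l => mem_range.2 ?_
    have h5 : (m l : ℝ) < (2 : ℝ) ^ lev T := ((le_abs_self _).trans (h6 l)).trans_lt (hlev1 T hT1).1
    exact_mod_cast h5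
  have h5 : ∀ x : ℕ, yy T ≤ x → (x : ℝ) ≤ Real.exp (c * (lev T / 2 : ℕ)) → Good x m := by
    have := h3 h4
    simp only [hBad, not_not] at this
    exact this
  refine h5 X ?_ ?_
  · -- `yy T ≤ X`
    have h7 : 2 * Y ≤ (v i) ^ κ := by
      have h8 := Real.rpow_le_rpow (by positivity) hbig3 hκ.le
      rwa [← Real.rpow_mul (by positivity), show 1 / κ * κ = 1 by field_simp, Real.rpow_one] at h8
    have h8 : 2 * (R : ℝ) ^ κ ≤ 1 + Real.log T := by
      have h9 := (Real.log_le_log (Real.exp_pos _) (hbig2.trans hvT))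
      rw [Real.log_exp] at h9
      linarith
    have hRk : 0 < (R : ℝ) ^ κ := Real.rpow_pos_of_pos (by linarith) _
    have hL : 0 < 1 + Real.log T := by linarith
    have h11 : T ^ κ = (R : ℝ) ^ κ * (v i) ^ κ := by
      rw [hT, Real.mul_rpow (by positivity) hvi0.le]
    have hvk : 0 < (v i) ^ κ := Real.rpow_pos_of_pos hvi0 _
    have h12 : (⌈T ^ κ / (1 + Real.log T)⌉₊ : ℝ) ≤ (v i) ^ κ := by
      have h13 := Nat.ceil_lt_add_one (show (0 : ℝ) ≤ T ^ κ / (1 + Real.log T) by positivity)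
      have h16 : T ^ κ / (1 + Real.log T) ≤ (v i) ^ κ / 2 := by
        rw [div_le_iff₀ hL, h11]
        nlinarith
      linarith
    have h13 : Y ≤ (v i) ^ κ := by linarith
    have h14 : (yy T : ℝ) ≤ X := by
      refine le_trans ?_ hX1
      have h15 : ((max (max y₀ 1) ⌈T ^ κ / (1 + Real.log T)⌉₊ : ℕ) : ℝ) = max Y (⌈T ^ κ / (1 + Real.log T)⌉₊ : ℝ) := by
        rw [Nat.cast_max]
      show ((max (max y₀ 1) ⌈T ^ κ / (1 + Real.log T)⌉₊ : ℕ) : ℝ) ≤ (v i) ^ κ
      rw [h15]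
      exact max_le h13 h12
    exact_mod_cast h14
  · -- `X ≤ exp (c r)`
    refine hX2.trans ?_
    rw [Real.rpow_def_of_pos hvi0]
    apply Real.exp_le_exp.2
    have hlog : 2 ≤ Real.log (v i) := by
      rw [← Real.log_exp 2]
      exact Real.log_le_log (Real.exp_pos _) hbig1
    have h7 : Real.log (v i) ≤ lev T := by
      have h8 := Real.log_le_log hvi0 (hvT.trans (hlev1 T hT1).1.le)
      rw [Real.log_pow] at h8
      have h9 : Real.log 2 ≤ 1 := by
        have := Real.log_two_lt_d9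
        linarith
      have h10 : (0 : ℝ) ≤ lev T := Nat.cast_nonneg _
      nlinarith
    have h8 : ((lev T : ℝ) - 1) / 2 ≤ ((lev T / 2 : ℕ) : ℝ) := by
      have h9 : lev T ≤ 2 * (lev T / 2) + 1 := by omega
      have h10 : (lev T : ℝ) ≤ 2 * ((lev T / 2 : ℕ) : ℝ) + 1 := by exact_mod_cast h9
      linarith
    nlinarith

end Pool.Agent.X174
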