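import Pool.Agent.X174.WinVecV

/-! Tuples of rational numbers whose numerators and denominators lie in cubes around the members of a thin sequence of
points. -/

set_option autoImplicit false

open Finset Filter Topology MeasureTheory

namespace Pool.Agent.X174

/-- numerators and denominators of a tuple of rational numbers -/
def numDen {κ : Type} (q : κ → ℚ) (x : κ × Fin 2) : ℝ := if x.2 = 0 then ((q x.1).num : ℝ) else ((q x.1).den : ℝ)

lemma numDen_zero {κ : Type} (q : κ → ℚ) (j : κ) : numDen q (j, 0) = ((q j).num : ℝ) := by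
  unfold numDen
  simp

lemma numDen_one {κ : Type} (q : κ → ℚ) (j : κ) : numDen q (j, 1) = ((q j).den : ℝ) := by
  unfold numDen
  simp

/-- general families of sets `Exc T` with at most `C T ^ s` elements -/
theorem winFam {κ : Type} [Fintype κ] {Q : Type} (h : Q → κ → ℝ) (Exc : ℝ → Set Q) {s C : ℝ} (hs : 0 ≤ s)
    (hE : ∀ T : ℝ, 1 ≤ T → (Exc T).Finite ∧ ((Exc T).ncard : ℝ) ≤ C * T ^ s) {v : ℕ → ℝ} {τ ρ : ℝ}
    (hpos : ∀ n, 1 ≤ v n) (hτ : 0 ≤ τ) (hv : Pool.Agent.Y854.GM.ExpLe v τ) (hρ : ρ < 1) :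
    ∃ E : Set (κ → ℝ), dimH E ≤ ENNReal.ofReal ((s + τ) / (1 - ρ)) ∧ ∀ α : κ → ℝ, α ∉ E →
      ∀ R : ℕ, 1 ≤ R → ∃ i₀ : ℕ, ∀ i : ℕ, i₀ ≤ i → ∀ q : Q,
        (∀ j, |h q j - α j * v i| ≤ (v i) ^ ρ) → q ∉ Exc (R * v i) := by
  have hvp : ∀ n, 0 < v n := fun n => lt_of_lt_of_le one_pos (hpos n)
  have key : ∀ R : ℕ, ∃ E : Set (κ → ℝ), dimH E ≤ ENNReal.ofReal ((s + τ) / (1 - ρ)) ∧ (1 ≤ R → ∀ α : κ → ℝ, α ∉ E →
      ∃ i₀ : ℕ, ∀ i : ℕ, i₀ ≤ i → ∀ q : Q,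
        (∀ j, |h q j - α j * v i| ≤ (v i) ^ ρ) → q ∉ Exc (R * v i)) := by
    intro R
    by_cases hR : 1 ≤ R
    · have hR1 : (1 : ℝ) ≤ R := by exact_mod_cast hR
      have hRp : (0 : ℝ) < R := by linarith
      obtain ⟨E, h1, h2⟩ := windowsVecV (fun i => Exc (R * v i)) (fun _ q j => h q j) hpos hτ hv hs hρ (by
        intro ε hε
        refine ⟨|C| * (R : ℝ) ^ s, 0, fun i _ => ?_⟩
        have hT : 1 ≤ (R : ℝ) * v i := by nlinarith [hpos i]
        obtain ⟨h3, h4⟩ := hE _ hT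
        refine ⟨h3, h4.trans ?_⟩
        calc C * ((R : ℝ) * v i) ^ s ≤ |C| * ((R : ℝ) * v i) ^ s :=
              mul_le_mul_of_nonneg_right (le_abs_self C) (by positivity)
          _ = |C| * (R : ℝ) ^ s * (v i) ^ s := by
              rw [Real.mul_rpow hRp.le (hvp i).le]
              ring
          _ ≤ |C| * (R : ℝ) ^ s * (v i) ^ (s + ε) := mul_le_mul_of_nonneg_left
              (Real.rpow_le_rpow_of_exponent_le (hpos i) (by linarith)) (by positivity))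
      refine ⟨E, h1, fun _ α hα => ?_⟩
      obtain ⟨i₀, hi⟩ := h2 α hα
      exact ⟨i₀, fun i hi1 q hq hqE => hi i hi1 q hqE hq⟩
    · exact ⟨∅, by simp, fun h => absurd h hR⟩
  choose Es h1 h2 using key
  refine ⟨⋃ R, Es R, ?_, fun α hα R hR => h2 R hR α (fun hm => hα (Set.mem_iUnion.2 ⟨_, hm⟩))⟩
  rw [dimH_iUnion]
  exact iSup_le h1

/-- the elements of a cube are at most `R v_i` -/
lemma le_of_cube {κ : Type} [Fintype κ] (α : κ → ℝ) : ∃ R : ℕ, 1 ≤ R ∧ ∀ (x : κ → ℝ) (w ρ : ℝ), 1 ≤ w → ρ < 1 →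
    (∀ j, |x j - α j * w| ≤ w ^ ρ) → ∀ j, |x j| ≤ R * w := by
  obtain ⟨R, hR⟩ := exists_nat_ge (∑ j, |α j|)
  refine ⟨R + 1, by omega, fun x w ρ hw hρ hx j => ?_⟩
  have hwp : 0 < w := by linarith
  have h1 : |α j| ≤ R := (Finset.single_le_sum (f := fun j => |α j|) (fun i _ => abs_nonneg _) (Finset.mem_univ j)).trans hR
  have h2 : w ^ ρ ≤ w := by
    calc w ^ ρ ≤ w ^ (1 : ℝ) := Real.rpow_le_rpow_of_exponent_le hw hρ.le
      _ = w := Real.rpow_one _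
  have h3 : |x j| ≤ |x j - α j * w| + |α j * w| := by
    have := abs_add_le (x j - α j * w) (α j * w)
    rwa [sub_add_cancel] at this
  have h4 : |α j * w| ≤ R * w := by
    rw [abs_mul, abs_of_pos hwp]
    exact mul_le_mul_of_nonneg_right h1 hwp.le
  have h5 := hx j
  push_cast
  linarith

/-- comparison of the smallness conditions -/
lemma small_of_small {v : ℕ → ℝ} (hv : Tendsto v atTop atTop) (hpos : ∀ n, 1 ≤ v n) (R : ℕ) (hR : 1 ≤ R) (B : ℝ) :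
    ∃ i₀ : ℕ, ∀ i : ℕ, i₀ ≤ i → (v i) ^ (-(max B 0 + 1)) ≤ (R * v i) ^ (-B) := by
  have hR1 : (1 : ℝ) ≤ R := by exact_mod_cast hR
  have hRp : (0 : ℝ) < R := by linarith
  obtain ⟨i₀, hi⟩ := (hv.eventually_ge_atTop ((R : ℝ) ^ (max B 0))).exists_forall_of_atTop
  refine ⟨i₀, fun i hi1 => ?_⟩
  have hvi := hpos i
  have hvp : 0 < v i := by linarith
  have h1 := hi i hi1
  have hRv : 1 ≤ (R : ℝ) * v i := by nlinarith
  calc (v i) ^ (-(max B 0 + 1)) = (v i) ^ (-(max B 0)) * (v i)⁻¹ := by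
        rw [neg_add, Real.rpow_add hvp, Real.rpow_neg_one]
    _ ≤ (v i) ^ (-(max B 0)) * ((R : ℝ) ^ (max B 0))⁻¹ :=
        mul_le_mul_of_nonneg_left (inv_anti₀ (by positivity) h1) (by positivity)
    _ = (R * v i) ^ (-(max B 0)) := by
        rw [Real.mul_rpow hRp.le hvp.le, Real.rpow_neg hRp.le]
        ring
    _ ≤ (R * v i) ^ (-B) := Real.rpow_le_rpow_of_exponent_le hRv (by linarith [le_max_left B 0])

end Pool.Agent.X174
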