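import Pool.Agent.X174.WinVec

/-! Windows in several dimensions, for sets `S_n` depending on the index `n`, and for tuples of integers. -/

set_option autoImplicit false

open Finset Filter Topology MeasureTheory

namespace Pool.Agent.X174

open scoped ENNReal NNReal
open Pool.Agent.Y854.GM (ExpLe tendsto_of_expLe)

/-- the dimension bound for sets depending on the index -/
theorem dim_winVecV {κ : Type} [Fintype κ] {T : Type} (S : ℕ → Set T) (h : ℕ → T → κ → ℝ) {v : ℕ → ℝ} {s τ θ D : ℝ}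
    (hpos : ∀ n, 1 ≤ v n) (hτ : 0 ≤ τ)
    (hv : ExpLe v τ) (hs : 0 ≤ s) (hθ1 : θ < 1) (hD : s + τ < D * (1 - θ)) (C : ℝ) (hC : 0 ≤ C) (n1 : ℕ)
    (hS : ∀ n : ℕ, n1 ≤ n → (S n).Finite ∧ ((S n).ncard : ℝ) ≤ C * (v n) ^ s) :
    dimH {α : κ → ℝ | ∀ n1 : ℕ, ∃ n : ℕ, n1 ≤ n ∧ ∃ t ∈ S n, ∀ j, |h n t j - α j * v n| ≤ (v n) ^ θ} ≤
      ENNReal.ofReal D := by
  have h1θ : 0 < 1 - θ := by linarith
  have hD0 : 0 < D := by
    have h1 : 0 < D * (1 - θ) := lt_of_le_of_lt (by positivity) hD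
    exact (pos_iff_pos_of_mul_pos h1).2 h1θ
  have hDn : ((Real.toNNReal D : ℝ≥0) : ℝ) = D := Real.coe_toNNReal D hD0.le
  have hgoal : ENNReal.ofReal D = ((Real.toNNReal D : ℝ≥0) : ℝ≥0∞) := rfl
  rw [hgoal]
  apply dimH_le_of_hausdorffMeasure_ne_top
  rw [hDn]
  have hvp : ∀ n, 0 < v n := fun n => lt_of_lt_of_le one_pos (hpos n)
  set U : ℕ → Finset T := fun m => (hS (n1 + m) (by omega)).1.toFinset with hU
  set p : ℝ := D * (1 - θ) - s with hp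
  have hp1 : τ < p := by rw [hp]; linarith
  have hp0 : 0 < p := lt_of_le_of_lt hτ hp1
  have hcard : ∀ m : ℕ, ((U m).card : ℝ) ≤ C * (v (n1 + m)) ^ s := by
    intro m
    have h2 := (hS (n1 + m) (by omega)).2
    rw [Set.ncard_eq_toFinset_card _ (hS (n1 + m) (by omega)).1] at h2
    exact h2
  set r0 : ℕ → ℝ := fun n => 2 * (v (n1 + n)) ^ (θ - 1) with hr0
  have hr0p : ∀ n, 0 < r0 n := fun n => mul_pos two_pos (Real.rpow_pos_of_pos (hvp _) _)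
  have hsum0 : Summable (fun m : ℕ => (2 ^ D * C) * (v m) ^ (-p)) := (hv p hp1).mul_left _
  have hsum : Summable (fun m : ℕ => (2 ^ D * C) * (v (n1 + m)) ^ (-p)) := by
    have h1 := (summable_nat_add_iff n1).2 hsum0
    refine h1.congr fun m => ?_
    rw [add_comm m n1]
  have hlev : ∀ m : ℕ, ((U m).card : ℝ) * (r0 m) ^ D ≤ (2 ^ D * C) * (v (n1 + m)) ^ (-p) := by
    intro m
    have hm0 := hvp (n1 + m)
    calc ((U m).card : ℝ) * (r0 m) ^ D ≤ (C * (v (n1 + m)) ^ s) * (r0 m) ^ D :=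
          mul_le_mul_of_nonneg_right (hcard m) (Real.rpow_nonneg (hr0p m).le _)
      _ = (2 ^ D * C) * ((v (n1 + m)) ^ s * (v (n1 + m)) ^ ((θ - 1) * D)) := by
          rw [hr0]
          simp only
          rw [Real.mul_rpow two_pos.le (Real.rpow_nonneg hm0.le _), ← Real.rpow_mul hm0.le]
          ring
      _ = (2 ^ D * C) * (v (n1 + m)) ^ (-p) := by
          rw [← Real.rpow_add hm0]
          congr 2
          rw [hp]
          ring
  have htv0 : Tendsto v atTop atTop := tendsto_of_expLe hvp hτ hv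
  have htv : Tendsto (fun n => v (n1 + n)) atTop atTop := by
    have h1 := htv0.comp (tendsto_add_atTop_nat n1)
    refine h1.congr fun m => ?_
    simp only [Function.comp]
    rw [add_comm]
  have hr0t : Tendsto r0 atTop (𝓝 0) := by
    have h1 : Tendsto (fun n => (v (n1 + n)) ^ (-(1 - θ))) atTop (𝓝 0) := (tendsto_rpow_neg_atTop h1θ).comp htv
    have h2 := h1.const_mul 2
    rw [mul_zero] at h2
    refine h2.congr (fun n => ?_)
    rw [hr0]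
    simp only
    congr 2
    ring
  have hr : ∀ ε : ℝ≥0∞, 0 < ε → ∃ N : ℕ, ∀ n : ℕ, N ≤ n → ENNReal.ofReal (r0 n) ≤ ε := by
    intro ε hε
    have h1 := ENNReal.tendsto_ofReal hr0t
    rw [ENNReal.ofReal_zero] at h1
    exact ((h1.eventually (ge_mem_nhds hε))).exists_forall_of_atTop
  set r : ℕ → ℝ≥0∞ := fun n => ⨆ i : ℕ, ENNReal.ofReal (r0 (n + i)) with hrdef
  have hrt : Tendsto r atTop (𝓝 0) := by
    rw [ENNReal.tendsto_atTop_zero]
    intro ε hε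
    obtain ⟨N, hN⟩ := hr ε hε
    exact ⟨N, fun n hn => iSup_le fun i => hN _ (by omega)⟩
  set W : ℕ → T → Set (κ → ℝ) := fun n t =>
    Metric.closedBall (fun j => h (n1 + n) t j / v (n1 + n)) ((v (n1 + n)) ^ (θ - 1)) with hW
  have hd : ∀ (n : ℕ) (t : T), Metric.ediam (W n t) ≤ ENNReal.ofReal (r0 n) := by
    intro n t
    apply Metric.ediam_le_of_forall_dist_le
    intro x hx y hy
    have h1 := Metric.mem_closedBall.1 hx
    have h2 := Metric.mem_closedBall.1 hy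
    have h3 := dist_triangle_right x y (fun j => h (n1 + n) t j / v (n1 + n))
    rw [hr0]
    simp only
    linarith
  have key := Measure.hausdorffMeasure_le_liminf_tsum (X := κ → ℝ) (β := ℕ)
    (ι := fun n => Σ i : ℕ, (U (n + i))) D
    {α : κ → ℝ | ∀ n1 : ℕ, ∃ n : ℕ, n1 ≤ n ∧ ∃ t ∈ S n, ∀ j, |h n t j - α j * v n| ≤ (v n) ^ θ}
    (l := atTop) r hrt
    (fun n q => W (n + q.1) (q.2 : T))
    (Eventually.of_forall fun n q => (hd (n + q.1) q.2).trans (le_iSup (fun i : ℕ => ENNReal.ofReal (r0 (n + i))) q.1))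
    (Eventually.of_forall fun n α hlim => by
      obtain ⟨m, hm1, t, ht, hm3⟩ := hlim (n1 + n)
      obtain ⟨i, rfl⟩ := Nat.exists_eq_add_of_le hm1
      rw [add_assoc] at hm3 ht
      have hmp : 0 < v (n1 + (n + i)) := hvp _
      have hmem : t ∈ U (n + i) := by
        rw [hU, Set.Finite.mem_toFinset]
        exact ht
      rw [Set.mem_iUnion]
      refine ⟨⟨i, ⟨_, hmem⟩⟩, ?_⟩
      rw [hW]
      simp only
      rw [Metric.mem_closedBall, dist_pi_le_iff (Real.rpow_nonneg hmp.le _)]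
      intro j
      rw [Real.dist_eq, Real.rpow_sub_one hmp.ne', le_div_iff₀ hmp]
      calc |α j - h (n1 + (n + i)) t j / v (n1 + (n + i))| * v (n1 + (n + i))
          = |(α j - h (n1 + (n + i)) t j / v (n1 + (n + i))) * v (n1 + (n + i))| := by
            rw [abs_mul, abs_of_pos hmp]
        _ = |h (n1 + (n + i)) t j - α j * v (n1 + (n + i))| := by
            rw [abs_sub_comm]
            congr 1
            field_simp
        _ ≤ _ := hm3 j)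
  refine ne_top_of_le_ne_top ?_ key
  have hnn : ∀ m : ℕ, 0 ≤ (2 ^ D * C) * (v (n1 + m)) ^ (-p) := fun m =>
    mul_nonneg (by positivity) (Real.rpow_nonneg (hvp _).le _)
  have htot : (∑' m : ℕ, ENNReal.ofReal ((2 ^ D * C) * (v (n1 + m)) ^ (-p))) ≠ ⊤ := by
    rw [← ENNReal.ofReal_tsum_of_nonneg hnn hsum]
    exact ENNReal.ofReal_ne_top
  have hbound : ∀ n : ℕ, (∑' q : Σ i : ℕ, (U (n + i)), Metric.ediam (W (n + q.1) (q.2 : T)) ^ D) ≤
      ∑' m : ℕ, ENNReal.ofReal ((2 ^ D * C) * (v (n1 + m)) ^ (-p)) := by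
    intro n
    rw [ENNReal.tsum_sigma']
    calc (∑' i : ℕ, ∑' x : (U (n + i)), Metric.ediam (W (n + i) (x : T)) ^ D)
        ≤ ∑' i : ℕ, ENNReal.ofReal ((2 ^ D * C) * (v (n1 + (n + i))) ^ (-p)) := by
          apply ENNReal.tsum_le_tsum
          intro i
          have h1 : ∀ x : (U (n + i)), Metric.ediam (W (n + i) (x : T)) ^ D ≤ ENNReal.ofReal ((r0 (n + i)) ^ D) := by
            intro x
            rw [← ENNReal.ofReal_rpow_of_pos (hr0p _)]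
            exact ENNReal.rpow_le_rpow (hd _ _) hD0.le
          refine (ENNReal.tsum_le_tsum h1).trans ?_
          rw [tsum_fintype]
          simp only [Finset.sum_const, Finset.card_univ, Fintype.card_coe, nsmul_eq_mul]
          rw [← ENNReal.ofReal_natCast, ← ENNReal.ofReal_mul (by positivity)]
          apply ENNReal.ofReal_le_ofReal
          exact hlev (n + i)
      _ ≤ ∑' m : ℕ, ENNReal.ofReal ((2 ^ D * C) * (v (n1 + m)) ^ (-p)) :=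
          ENNReal.tsum_comp_le_tsum_of_injective (f := fun i : ℕ => n + i)
            (fun a b h => by simpa using h) (fun m : ℕ => ENNReal.ofReal ((2 ^ D * C) * (v (n1 + m)) ^ (-p)))
  refine ne_top_of_le_ne_top htot ?_
  apply Filter.liminf_le_of_le
  · isBoundedDefault
  · intro b hb
    obtain ⟨n, hn⟩ := hb.exists
    exact hn.trans (hbound n)

/-- **Cubes without elements of thin sets `S_n`.** -/
theorem windowsVecV {κ : Type} [Fintype κ] {T : Type} (S : ℕ → Set T) (h : ℕ → T → κ → ℝ) {v : ℕ → ℝ} {s τ θ : ℝ}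
    (hpos : ∀ n, 1 ≤ v n) (hτ : 0 ≤ τ) (hv : ExpLe v τ) (hs : 0 ≤ s) (hθ1 : θ < 1)
    (hS : ∀ ε : ℝ, 0 < ε → ∃ (C : ℝ) (n1 : ℕ), ∀ n : ℕ, n1 ≤ n →
      (S n).Finite ∧ ((S n).ncard : ℝ) ≤ C * (v n) ^ (s + ε)) :
    ∃ E : Set (κ → ℝ), dimH E ≤ ENNReal.ofReal ((s + τ) / (1 - θ)) ∧ ∀ α : κ → ℝ, α ∉ E →
      ∃ n0 : ℕ, ∀ n : ℕ, n0 ≤ n → ∀ t ∈ S n, ¬ ∀ j, |h n t j - α j * v n| ≤ (v n) ^ θ := by
  have h1θ : 0 < 1 - θ := by linarith
  refine ⟨{α : κ → ℝ | ∀ n1 : ℕ, ∃ n : ℕ, n1 ≤ n ∧ ∃ t ∈ S n, ∀ j, |h n t j - α j * v n| ≤ (v n) ^ θ},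
    ?_, fun α hαE => ?_⟩
  · apply ENNReal.le_of_forall_pos_le_add
    intro ε hε _
    have hε' : (0 : ℝ) < ε := by exact_mod_cast hε
    set ε1 : ℝ := ε * (1 - θ) / 2 with hε1
    have hε1p : 0 < ε1 := by positivity
    obtain ⟨C, n1, hC⟩ := hS ε1 hε1p
    have hvp : ∀ n, 0 < v n := fun n => lt_of_lt_of_le one_pos (hpos n)
    have h1 := dim_winVecV S h hpos hτ hv (s := s + ε1) (by positivity) hθ1
      (D := (s + τ) / (1 - θ) + ε) (by
        rw [add_mul, div_mul_cancel₀ _ h1θ.ne']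
        have : (ε : ℝ) * (1 - θ) = 2 * ε1 := by rw [hε1]; ring
        linarith) |C| (abs_nonneg C) n1 (fun n hn => ⟨(hC n hn).1, (hC n hn).2.trans
          (mul_le_mul_of_nonneg_right (le_abs_self C) (Real.rpow_nonneg (hvp n).le _))⟩)
    rw [ENNReal.ofReal_add (by positivity) (by positivity), ENNReal.ofReal_coe_nnreal] at h1
    exact h1
  · by_contra hcon
    push Not at hcon
    exact hαE fun n1 => hcon n1

/-- tuples of natural numbers: a property with few exceptions in the boxes `[0, T] ^ κ` -/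
theorem winTup {κ : Type} [Fintype κ] (P : (κ → ℕ) → Prop) {v : ℕ → ℝ} {s τ θ : ℝ}
    (hpos : ∀ n, 1 ≤ v n) (hτ : 0 ≤ τ) (hv : ExpLe v τ) (hs : 0 ≤ s) (hθ1 : θ < 1)
    (hP : ∃ C : ℝ, ∀ T : ℕ, 1 ≤ T → ({t : κ → ℕ | (∀ j, t j ≤ T) ∧ P t}.ncard : ℝ) ≤ C * (T : ℝ) ^ s) :
    ∃ E : Set (κ → ℝ), dimH E ≤ ENNReal.ofReal ((s + τ) / (1 - θ)) ∧ ∀ α : κ → ℝ, α ∉ E →
      ∃ n0 : ℕ, ∀ n : ℕ, n0 ≤ n → ∀ t : κ → ℕ, (∀ j, |(t j : ℝ) - α j * v n| ≤ (v n) ^ θ) → ¬ P t := by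
  obtain ⟨E, h1, h2⟩ := windowsVec {t : κ → ℕ | P t} (fun t j => ((t j : ℕ) : ℝ)) hpos hτ hv hs hθ1 (by
    intro ε hε
    obtain ⟨C, hC⟩ := hP
    refine ⟨|C|, fun X hX => ?_⟩
    have hfl : 1 ≤ ⌊X⌋₊ := Nat.le_floor (by exact_mod_cast hX)
    have hXp : (0 : ℝ) < X := by linarith
    have hset : {t : κ → ℕ | t ∈ {t : κ → ℕ | P t} ∧ ∀ j, |((t j : ℕ) : ℝ)| ≤ X} =
        {t : κ → ℕ | (∀ j, t j ≤ ⌊X⌋₊) ∧ P t} := by
      ext t
      simp only [Set.mem_ofPred_eq]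
      constructor
      · rintro ⟨ht, hX'⟩
        exact ⟨fun j => Nat.le_floor (by rw [← abs_of_nonneg (Nat.cast_nonneg (t j) : (0 : ℝ) ≤ t j)]; exact hX' j), ht⟩
      · rintro ⟨ht, hX'⟩
        refine ⟨hX', fun j => ?_⟩
        rw [abs_of_nonneg (Nat.cast_nonneg _)]
        exact (Nat.cast_le.2 (ht j)).trans (Nat.floor_le hXp.le)
    have hfin : {t : κ → ℕ | (∀ j, t j ≤ ⌊X⌋₊) ∧ P t}.Finite := by
      apply (Set.Finite.pi (ι := κ) (t := fun _ => Set.Iic ⌊X⌋₊) (fun _ => Set.finite_Iic _)).subset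
      rintro t ⟨ht, -⟩ j _
      exact ht j
    rw [hset]
    refine ⟨hfin, (hC ⌊X⌋₊ hfl).trans ?_⟩
    calc C * (⌊X⌋₊ : ℝ) ^ s ≤ |C| * (⌊X⌋₊ : ℝ) ^ s :=
          mul_le_mul_of_nonneg_right (le_abs_self C) (by positivity)
      _ ≤ |C| * X ^ s := mul_le_mul_of_nonneg_left
          (Real.rpow_le_rpow (Nat.cast_nonneg _) (Nat.floor_le hXp.le) hs) (abs_nonneg C)
      _ ≤ |C| * X ^ (s + ε) := mul_le_mul_of_nonneg_left
          (Real.rpow_le_rpow_of_exponent_le hX (by linarith)) (abs_nonneg C))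
  refine ⟨E, h1, fun α hα => ?_⟩
  obtain ⟨n0, hn⟩ := h2 α hα
  exact ⟨n0, fun n hn1 t ht hPt => hn n hn1 t hPt ht⟩

/-- tuples of integers: a property with few exceptions in the boxes `[-T, T] ^ κ` -/
theorem winTupZ {κ : Type} [Fintype κ] (P : (κ → ℤ) → Prop) {v : ℕ → ℝ} {s τ θ : ℝ}
    (hpos : ∀ n, 1 ≤ v n) (hτ : 0 ≤ τ) (hv : ExpLe v τ) (hs : 0 ≤ s) (hθ1 : θ < 1)
    (hP : ∃ C : ℝ, ∀ T : ℕ, 1 ≤ T → ({t : κ → ℤ | (∀ j, |t j| ≤ T) ∧ P t}.ncard : ℝ) ≤ C * (T : ℝ) ^ s) :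
    ∃ E : Set (κ → ℝ), dimH E ≤ ENNReal.ofReal ((s + τ) / (1 - θ)) ∧ ∀ α : κ → ℝ, α ∉ E →
      ∃ n0 : ℕ, ∀ n : ℕ, n0 ≤ n → ∀ t : κ → ℤ, (∀ j, |(t j : ℝ) - α j * v n| ≤ (v n) ^ θ) → ¬ P t := by
  obtain ⟨E, h1, h2⟩ := windowsVec {t : κ → ℤ | P t} (fun t j => ((t j : ℤ) : ℝ)) hpos hτ hv hs hθ1 (by
    intro ε hε
    obtain ⟨C, hC⟩ := hP
    refine ⟨|C|, fun X hX => ?_⟩
    have hfl : 1 ≤ ⌊X⌋₊ := Nat.le_floor (by exact_mod_cast hX)
    have hXp : (0 : ℝ) < X := by linarith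
    have hset : {t : κ → ℤ | t ∈ {t : κ → ℤ | P t} ∧ ∀ j, |((t j : ℤ) : ℝ)| ≤ X} =
        {t : κ → ℤ | (∀ j, |t j| ≤ (⌊X⌋₊ : ℤ)) ∧ P t} := by
      ext t
      simp only [Set.mem_ofPred_eq]
      have key : ∀ j, |((t j : ℤ) : ℝ)| ≤ X ↔ |t j| ≤ (⌊X⌋₊ : ℤ) := by
        intro j
        rw [← Int.cast_abs, Int.natCast_floor_eq_floor hXp.le, Int.le_floor]
      constructor
      · rintro ⟨ht, hX'⟩
        exact ⟨fun j => (key j).1 (hX' j), ht⟩
      · rintro ⟨ht, hX'⟩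
        exact ⟨hX', fun j => (key j).2 (ht j)⟩
    have hfin : {t : κ → ℤ | (∀ j, |t j| ≤ (⌊X⌋₊ : ℤ)) ∧ P t}.Finite := by
      apply (Set.Finite.pi (ι := κ) (t := fun _ => Set.Icc (-(⌊X⌋₊ : ℤ)) (⌊X⌋₊ : ℤ)) (fun _ => Set.finite_Icc _ _)).subset
      rintro t ⟨ht, -⟩ j _
      exact abs_le.1 (ht j)
    rw [hset]
    refine ⟨hfin, (hC ⌊X⌋₊ hfl).trans ?_⟩
    calc C * (⌊X⌋₊ : ℝ) ^ s ≤ |C| * (⌊X⌋₊ : ℝ) ^ s :=
          mul_le_mul_of_nonneg_right (le_abs_self C) (by positivity)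
      _ ≤ |C| * X ^ s := mul_le_mul_of_nonneg_left
          (Real.rpow_le_rpow (Nat.cast_nonneg _) (Nat.floor_le hXp.le) hs) (abs_nonneg C)
      _ ≤ |C| * X ^ (s + ε) := mul_le_mul_of_nonneg_left
          (Real.rpow_le_rpow_of_exponent_le hX (by linarith)) (abs_nonneg C))
  refine ⟨E, h1, fun α hα => ?_⟩
  obtain ⟨n0, hn⟩ := h2 α hα
  exact ⟨n0, fun n hn1 t ht hPt => hn n hn1 t hPt ht⟩

end Pool.Agent.X174
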