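import Pool.Agent.X174.WinZ

/-! Windows for properties of natural numbers, from counts of exceptions. -/

set_option autoImplicit false

namespace Pool.Agent.X174

/-- the exponent of convergence of the sequence `v` is at most `τ` -/
def ExpLe (v : ℕ → ℝ) (τ : ℝ) : Prop := ∀ t : ℝ, τ < t → Summable (fun n : ℕ => (v n) ^ (-t))

lemma absN (m : ℕ) : |(((m : ℤ) : ℤ) : ℝ)| = (m : ℝ) := by
  push_cast
  exact abs_of_nonneg (Nat.cast_nonneg m)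

/-- counting natural numbers instead of integers -/
lemma count_nat (P : ℕ → Prop) (X : ℝ) (hX : 1 ≤ X) (B : ℝ) (s : ℝ) (hs : 0 ≤ s) (hB : 0 ≤ B)
    (h : ({n : ℕ | 1 ≤ n ∧ n ≤ ⌊X⌋₊ ∧ P n}.ncard : ℝ) ≤ B * (⌊X⌋₊ : ℝ) ^ s) :
    {t : ℤ | t ∈ {t : ℤ | 1 ≤ t ∧ P t.toNat} ∧ |(t : ℝ)| ≤ X}.Finite ∧
    ({t : ℤ | t ∈ {t : ℤ | 1 ≤ t ∧ P t.toNat} ∧ |(t : ℝ)| ≤ X}.ncard : ℝ) ≤ B * X ^ s := by
  refine ⟨(fin_absZ X).subset fun k hk => hk.2, ?_⟩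
  have hsub : {t : ℤ | t ∈ {t : ℤ | 1 ≤ t ∧ P t.toNat} ∧ |(t : ℝ)| ≤ X} ⊆
      (fun n : ℕ => (n : ℤ)) '' {n : ℕ | 1 ≤ n ∧ n ≤ ⌊X⌋₊ ∧ P n} := by
    rintro t ⟨⟨h1, h2⟩, h3⟩
    refine ⟨t.toNat, ⟨by omega, ?_, h2⟩, ?_⟩
    · apply Nat.le_floor
      have h4 : ((t.toNat : ℕ) : ℝ) = (t : ℝ) := by
        have : ((t.toNat : ℕ) : ℤ) = t := Int.toNat_of_nonneg (by omega)
        exact_mod_cast this
      rw [h4]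
      exact (le_abs_self _).trans h3
    · exact Int.toNat_of_nonneg (by omega)
  have hfin : {n : ℕ | 1 ≤ n ∧ n ≤ ⌊X⌋₊ ∧ P n}.Finite :=
    (Set.finite_Iic ⌊X⌋₊).subset fun n hn => hn.2.1
  have h1 := (Set.ncard_le_ncard hsub (hfin.image _)).trans (Set.ncard_image_le hfin)
  calc ({t : ℤ | t ∈ {t : ℤ | 1 ≤ t ∧ P t.toNat} ∧ |(t : ℝ)| ≤ X}.ncard : ℝ)
      ≤ ({n : ℕ | 1 ≤ n ∧ n ≤ ⌊X⌋₊ ∧ P n}.ncard : ℝ) := by exact_mod_cast h1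
    _ ≤ B * (⌊X⌋₊ : ℝ) ^ s := h
    _ ≤ B * X ^ s := mul_le_mul_of_nonneg_left
        (Real.rpow_le_rpow (Nat.cast_nonneg _) (Nat.floor_le (by linarith)) hs) hB

/-- windows for properties of natural numbers -/
lemma winN (P : ℕ → Prop) {v : ℕ → ℝ} {s τ θ : ℝ} (hpos : ∀ n, 1 ≤ v n) (hτ : 0 ≤ τ)
    (hv : ExpLe v τ) (hs : 0 ≤ s) (hθ1 : θ < 1) (B : ℝ) (hB : 0 ≤ B)
    (h : ∀ N : ℕ, 1 ≤ N → ({n : ℕ | 1 ≤ n ∧ n ≤ N ∧ P n}.ncard : ℝ) ≤ B * (N : ℝ) ^ s) :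
    ∃ E : Set ℝ, dimH E ≤ ENNReal.ofReal ((s + τ) / (1 - θ)) ∧ ∀ α : ℝ, 0 < α → α ∉ E →
      ∃ n0 : ℕ, ∀ n : ℕ, n0 ≤ n → ∀ m : ℕ, 1 ≤ m → |(m : ℝ) - α * v n| ≤ (v n) ^ θ → ¬ P m := by
  obtain ⟨E, h1, h2⟩ := winZ {t : ℤ | 1 ≤ t ∧ P t.toNat} hpos hτ hv hs hθ1 ⟨B, fun X hX =>
    count_nat P X hX B s hs hB (h ⌊X⌋₊ (Nat.le_floor (by exact_mod_cast hX)))⟩
  refine ⟨E, h1, fun α hα hαE => ?_⟩
  obtain ⟨n0, hn⟩ := h2 α hα hαE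
  refine ⟨n0, fun n hn1 m hm hw hP => hn n hn1 (m : ℤ) (by rw [absN]; exact hw) ⟨by exact_mod_cast hm, ?_⟩⟩
  rw [Int.toNat_natCast]
  exact hP

/-- from dyadic counts to counts -/
lemma cumN (P : ℕ → Prop) (s C : ℝ) (hs : 0 < s) (hC : 0 ≤ C) (K0 : ℕ)
    (h : ∀ K : ℕ, K0 ≤ K → ({n : ℕ | K < n ∧ n ≤ 2 * K ∧ P n}.ncard : ℝ) ≤ C * (K : ℝ) ^ s) :
    ∃ B : ℝ, 0 ≤ B ∧ ∀ N : ℕ, 1 ≤ N → ({n : ℕ | 1 ≤ n ∧ n ≤ N ∧ P n}.ncard : ℝ) ≤ B * (N : ℝ) ^ s := by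
  obtain ⟨B, hB⟩ := cumZ {t : ℤ | 1 ≤ t ∧ P t.toNat} s C hs hC K0 (fun K hK => by
    refine le_trans ?_ (h K hK)
    have hfin : {n : ℕ | K < n ∧ n ≤ 2 * K ∧ P n}.Finite := (Set.finite_Iic (2 * K)).subset fun n hn => hn.2.1
    have hsub : {k : ℤ | k ∈ {t : ℤ | 1 ≤ t ∧ P t.toNat} ∧ (K : ℝ) < |(k : ℝ)| ∧ |(k : ℝ)| ≤ 2 * K} ⊆
        (fun n : ℕ => (n : ℤ)) '' {n : ℕ | K < n ∧ n ≤ 2 * K ∧ P n} := by
      rintro t ⟨⟨h1, h2⟩, h3, h4⟩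
      have h5 : ((t.toNat : ℕ) : ℤ) = t := Int.toNat_of_nonneg (by omega)
      have h6 : |(t : ℝ)| = (t : ℝ) := abs_of_nonneg (by exact_mod_cast (by omega : 0 ≤ t))
      rw [h6] at h3 h4
      have h7 : (K : ℤ) < t := by exact_mod_cast h3
      have h8 : t ≤ 2 * K := by exact_mod_cast h4
      exact ⟨t.toNat, ⟨by omega, by omega, h2⟩, h5⟩
    have h1 := (Set.ncard_le_ncard hsub (hfin.image _)).trans (Set.ncard_image_le hfin)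
    exact_mod_cast h1)
  refine ⟨|B|, abs_nonneg B, fun N hN => ?_⟩
  have hN1 : (1 : ℝ) ≤ N := by exact_mod_cast hN
  have hinj : Function.Injective (fun n : ℕ => (n : ℤ)) := fun a b h => by simpa using h
  have hsub : (fun n : ℕ => (n : ℤ)) '' {n : ℕ | 1 ≤ n ∧ n ≤ N ∧ P n} ⊆
      {k : ℤ | k ∈ {t : ℤ | 1 ≤ t ∧ P t.toNat} ∧ |(k : ℝ)| ≤ N} := by
    rintro _ ⟨n, ⟨h1, h2, h3⟩, rfl⟩
    refine ⟨⟨by simp only; exact_mod_cast h1, ?_⟩, ?_⟩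
    · simp only [Int.toNat_natCast]
      exact h3
    · rw [absN]
      exact_mod_cast h2
  have h1 := Set.ncard_le_ncard hsub (hB N hN1).1
  rw [Set.ncard_image_of_injective _ hinj] at h1
  calc ({n : ℕ | 1 ≤ n ∧ n ≤ N ∧ P n}.ncard : ℝ) ≤ _ := by exact_mod_cast h1
    _ ≤ B * (N : ℝ) ^ s := (hB N hN1).2
    _ ≤ |B| * (N : ℝ) ^ s := mul_le_mul_of_nonneg_right (le_abs_self B) (by positivity)

/-- windows for the size of a minimum: if the property `A n y` (antitone in `y`) holds for at most `C X / y ^ c` of the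
`n ≤ X`, then in the windows `A n (n ^ ρ)` does not hold -/
lemma winMin (A : ℕ → ℝ → Prop) (hA : ∀ n y y', y ≤ y' → A n y' → A n y) {C c ρ : ℝ} (hC : 0 ≤ C)
    (hρ : 0 < ρ) (hcρ : c * ρ < 1)
    (h : ∀ X y : ℝ, 1 ≤ X → 1 ≤ y → ({n : ℕ | 1 ≤ n ∧ (n : ℝ) ≤ X ∧ A n y}.ncard : ℝ) ≤ C * X / y ^ c)
    {v : ℕ → ℝ} {τ θ : ℝ} (hpos : ∀ n, 1 ≤ v n) (hτ : 0 ≤ τ) (hv : ExpLe v τ) (hθ1 : θ < 1) :
    ∃ E : Set ℝ, dimH E ≤ ENNReal.ofReal ((1 - c * ρ + τ) / (1 - θ)) ∧ ∀ α : ℝ, 0 < α → α ∉ E →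
      ∃ n0 : ℕ, ∀ n : ℕ, n0 ≤ n → ∀ m : ℕ, 1 ≤ m → |(m : ℝ) - α * v n| ≤ (v n) ^ θ →
        ¬ A m ((m : ℝ) ^ ρ) := by
  obtain ⟨B, hB, hcount⟩ := cumN (fun n => A n ((n : ℝ) ^ ρ)) (1 - c * ρ) (2 * C) (by linarith) (by positivity) 1
    (fun K hK => by
      have hK1 : (1 : ℝ) ≤ K := by exact_mod_cast hK
      have hKp : (0 : ℝ) < K := by linarith
      have hsub : {n : ℕ | K < n ∧ n ≤ 2 * K ∧ A n ((n : ℝ) ^ ρ)} ⊆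
          {n : ℕ | 1 ≤ n ∧ (n : ℝ) ≤ 2 * K ∧ A n ((K : ℝ) ^ ρ)} := by
        rintro n ⟨h1, h2, h3⟩
        refine ⟨by omega, by exact_mod_cast h2, hA _ _ _ ?_ h3⟩
        exact Real.rpow_le_rpow hKp.le (by exact_mod_cast h1.le) hρ.le
      have hfin : {n : ℕ | 1 ≤ n ∧ (n : ℝ) ≤ 2 * K ∧ A n ((K : ℝ) ^ ρ)}.Finite :=
        (Set.finite_Iic (2 * K)).subset fun n hn => by
          have := hn.2.1
          show n ≤ 2 * K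
          exact_mod_cast this
      refine (Nat.cast_le.2 (Set.ncard_le_ncard hsub hfin)).trans
        ((h (2 * K) ((K : ℝ) ^ ρ) (by linarith) (Real.one_le_rpow hK1 hρ.le)).trans (le_of_eq ?_))
      rw [← Real.rpow_mul hKp.le, Real.rpow_sub hKp, Real.rpow_one, mul_comm ρ c]
      ring)
  exact winN _ hpos hτ hv (by linarith) hθ1 B hB hcount

end Pool.Agent.X174
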