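import Pool.Agent.X174.WinRank

/-!
# Dimensions of spaces of relations: almost all numbers and windows
-/

set_option autoImplicit false

open Filter

namespace Pool.Agent.X174

/-- all but at most `K` of the numbers in `[N, κ N]` -/
def Alm (rk : ℝ → ℕ → ℤ) (D : ℤ) : Prop :=
  ∀ κ : ℕ, ∃ K : ℕ, ∀ c : ℝ, 1 < c → ∃ N0 : ℕ, ∀ N : ℕ, N0 ≤ N →
    {k : ℕ | (N ≤ k ∧ k ≤ κ * N) ∧ rk c k ≠ D}.ncard ≤ K

/-- all numbers in windows -/
def InW (rk : ℝ → ℕ → ℤ) (D : ℤ) : Prop :=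
  ∀ (v : ℕ → ℝ) (τ ρ : ℝ), (∀ i, 1 ≤ v i) → 0 ≤ τ → (∀ t : ℝ, τ < t → Summable (fun n : ℕ => (v n) ^ (-t))) → ρ < 1 →
    ∃ E : Set ℝ, dimH E ≤ ENNReal.ofReal (τ / (1 - ρ)) ∧ ∀ α : ℝ, 0 < α → α ∉ E → ∀ c : ℝ, 1 < c →
      ∃ i₀ : ℕ, ∀ i : ℕ, i₀ ≤ i → ∀ k : ℕ, |(k : ℝ) - α * v i| ≤ (v i) ^ ρ → rk c k = D

theorem inW_of_alm {rk : ℝ → ℕ → ℤ} {D : ℤ}
    (hconv : ∀ (c₁ c c₂ : ℝ) (k : ℕ), 1 < c₁ → c₁ ≤ c → c ≤ c₂ → rk c₁ k = D → rk c₂ k = D → rk c k = D)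
    (h : Alm rk D) : InW rk D :=
  fun _ _ _ hv hτ hE hρ => winRank (fun c k => rk c k = D) hconv h hv hτ hE hρ

theorem inW_unique {rk : ℝ → ℕ → ℤ} {D D' : ℤ} (h : InW rk D) (h' : InW rk D') : D = D' := by
  have hv : ∀ i : ℕ, (1 : ℝ) ≤ (2 : ℝ) ^ i := fun i => one_le_pow₀ (by norm_num)
  obtain ⟨E, hE, h1⟩ := h (fun i => (2 : ℝ) ^ i) 0 0 hv le_rfl (Pool.Agent.Y854.GM.expLe_geom 2 (by norm_num)) one_pos
  obtain ⟨E', hE', h1'⟩ := h' (fun i => (2 : ℝ) ^ i) 0 0 hv le_rfl (Pool.Agent.Y854.GM.expLe_geom 2 (by norm_num)) one_pos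
  obtain ⟨α, hα0, hα⟩ := exists_pos_notMem_real (E := E ∪ E') (by
    rw [dimH_union, max_le_iff]
    constructor
    · simpa using hE
    · simpa using hE')
  obtain ⟨i₀, hi₀⟩ := h1 α hα0 (fun hm => hα (Or.inl hm)) 2 one_lt_two
  obtain ⟨i₁, hi₁⟩ := h1' α hα0 (fun hm => hα (Or.inr hm)) 2 one_lt_two
  set i := max i₀ i₁
  have h2 : |((⌊α * (2 : ℝ) ^ i⌋₊ : ℕ) : ℝ) - α * (2 : ℝ) ^ i| ≤ ((2 : ℝ) ^ i) ^ (0 : ℝ) := by
    rw [Real.rpow_zero, abs_le]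
    constructor
    · linarith [Nat.lt_floor_add_one (α * (2 : ℝ) ^ i)]
    · linarith [Nat.floor_le (show 0 ≤ α * (2 : ℝ) ^ i by positivity)]
  rw [← hi₀ i (le_max_left _ _) _ h2, ← hi₁ i (le_max_right _ _) _ h2]

theorem alm_iff_inW {rk : ℝ → ℕ → ℤ} {D₀ : ℤ}
    (hconv : ∀ (D : ℤ) (c₁ c c₂ : ℝ) (k : ℕ), 1 < c₁ → c₁ ≤ c → c ≤ c₂ → rk c₁ k = D → rk c₂ k = D → rk c k = D)
    (h₀ : Alm rk D₀) (D : ℤ) : Alm rk D ↔ InW rk D := by
  refine ⟨inW_of_alm (hconv D), fun h => ?_⟩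
  have h1 := inW_unique h (inW_of_alm (hconv D₀) h₀)
  rw [h1]
  exact h₀

/-- finitely many lists of positive numbers of bounded sum -/
theorem finite_lists (m : ℕ) : {w : List ℕ | (∀ t ∈ w, 1 ≤ t) ∧ w.sum ≤ m}.Finite := by
  have h1 : {w : List (Fin (m + 1)) | w.length ≤ m}.Finite := List.finite_length_le (Fin (m + 1)) m
  refine (h1.image (List.map Fin.val)).subset ?_
  rintro w ⟨hw1, hw2⟩
  have hle : ∀ t ∈ w, t ≤ m := fun t ht => (List.single_le_sum (by simp) t ht).trans hw2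
  have hlen : w.length ≤ m := (List.length_le_sum_of_one_le w hw1).trans hw2
  refine ⟨w.attach.map fun t => (⟨t.1, Nat.lt_succ_of_le (hle t.1 t.2)⟩ : Fin (m + 1)), ?_, ?_⟩
  · simpa using hlen
  · rw [List.map_map]
    have : (Fin.val ∘ fun t : {x // x ∈ w} => (⟨t.1, Nat.lt_succ_of_le (hle t.1 t.2)⟩ : Fin (m + 1))) =
        fun t => t.1 := rfl
    rw [this]
    exact List.attach_map_subtype_val w

/-- dimensions are monotone below a finite-dimensional space of formal sums -/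
theorem finrank_mono_supported {α : Type} {S : Set α} (hS : S.Finite) {U V : Submodule ℚ (α →₀ ℚ)} (hUV : U ≤ V)
    (hV : V ≤ Finsupp.supported ℚ ℚ S) : Module.finrank ℚ U ≤ Module.finrank ℚ V := by
  have : Finite S := hS
  have h1 : Module.Finite ℚ (Finsupp.supported ℚ ℚ S) :=
    Module.Finite.equiv (Finsupp.supportedEquivFinsupp (M := ℚ) (R := ℚ) S).symm
  have h2 : FiniteDimensional ℚ V := Submodule.finiteDimensional_of_le hV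
  exact Submodule.finrank_mono hUV

end Pool.Agent.X174
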