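import Pool.Agent.X174.NearTup
import Pool.Agent.X39.Near.Master

/-!
# Simultaneous approximations: `n` systems of analytic functions

The functions `f_j1, …, f_jp` of the `j`-th variable are analytic and algebraically independent together with the variable.
Relations between the `n p` numbers `f_ji(t_j)` whose coefficients are polynomials in rational functions of the `t_j` and in
arbitrary complex constants.
-/

set_option autoImplicit false

namespace Pool.Agent.X174.NearTup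

open Filter Topology MeasureTheory NumberField
open Pool.Agent.X39.Near (Size degreeOf_map rpow_levels)

/-- The value of a polynomial with coefficients in the integers of `F` at the numbers `u_jk(t_j) / w_j(t_j)` and `ξ_i`. -/
noncomputable def coefAtT {n q g : ℕ} (u : Fin n → Fin q → Polynomial ℂ) (w : Fin n → Polynomial ℂ) (ξ : Fin g → ℂ)
    (F : Type) [Field F] (ι : F →+* ℂ) (t : Fin n → F) : MvPolynomial ((Fin n × Fin q) ⊕ Fin g) (𝓞 F) →+* ℂ :=
  MvPolynomial.eval₂Hom (ι.comp (algebraMap (𝓞 F) F))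
    (Sum.elim (fun x => (u x.1 x.2).eval (ι (t x.1)) / (w x.1).eval (ι (t x.1))) ξ)

/-- There is a polynomial `P` of degree at most `d` in each variable, whose coefficients are values of polynomials of degree
at most `d` in each variable, in the numbers `u_jk(t_j) / w_j(t_j)` and `ξ_i`, with coefficients in the integers of `F` all of
whose conjugates are at most `T ^ A`, such that the value of `P` at the numbers `f_ji(t_j)` is at most `T ^ (-B)` times the
absolute value of some nonzero coefficient. -/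
def DependentT {J : Type} {n q g : ℕ} (f : Fin n → J → ℂ → ℂ) (u : Fin n → Fin q → Polynomial ℂ)
    (w : Fin n → Polynomial ℂ) (ξ : Fin g → ℂ) (F : Type) [Field F] [NumberField F] (ι : F →+* ℂ) (d : ℕ) (A B T : ℝ)
    (t : Fin n → F) : Prop :=
  ∃ P : MvPolynomial (Fin n × J) (MvPolynomial ((Fin n × Fin q) ⊕ Fin g) (𝓞 F)),
    (∀ x, P.degreeOf x ≤ d) ∧ (∀ e v, (P.coeff e).degreeOf v ≤ d) ∧
    (∀ e s (φ : F →+* ℂ), ‖φ ((P.coeff e).coeff s : 𝓞 F)‖ ≤ T ^ A) ∧
    ∃ e₀, coefAtT u w ξ F ι t (P.coeff e₀) ≠ 0 ∧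
      ‖MvPolynomial.eval₂ (coefAtT u w ξ F ι t) (fun x => f x.1 x.2 (ι (t x.1))) P‖ ≤
        T ^ (-B) * ‖coefAtT u w ξ F ι t (P.coeff e₀)‖

theorem DependentT.trans {J : Type} {n q g : ℕ} (y : Fin n → J → ℂ → ℂ) (u : Fin n → Fin q → Polynomial ℂ)
    (w : Fin n → Polynomial ℂ) (ξ : Fin g → ℂ) (F F' : Type) [Field F] [NumberField F] [Field F']
    [NumberField F'] (ι : F →+* ℂ)
    (ι' : F' →+* ℂ) (e : F ≃+* F') (he : ∀ t, ι' (e t) = ι t) (d : ℕ) (A B T : ℝ) (t : Fin n → F)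
    (h : DependentT y u w ξ F ι d A B T t) : DependentT y u w ξ F' ι' d A B T (fun j => e (t j)) := by
  obtain ⟨P, h1, h2, h3, e₀, h4, h5⟩ := h
  set f : 𝓞 F →+* 𝓞 F' := (RingOfIntegers.mapRingEquiv e : 𝓞 F →+* 𝓞 F') with hf
  have hcomp : (coefAtT u w ξ F' ι' (fun j => e (t j))).comp (MvPolynomial.map f) = coefAtT u w ξ F ι t := by
    apply MvPolynomial.ringHom_ext
    · intro r
      simp only [coefAtT, RingHom.comp_apply, MvPolynomial.map_C, MvPolynomial.eval₂Hom_C]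
      exact he _
    · intro v
      simp only [coefAtT, RingHom.comp_apply, MvPolynomial.map_X, MvPolynomial.eval₂Hom_X', he]
  have hc : ∀ c, coefAtT u w ξ F' ι' (fun j => e (t j)) (MvPolynomial.map f c) = coefAtT u w ξ F ι t c :=
    fun c => RingHom.congr_fun hcomp c
  refine ⟨MvPolynomial.map (MvPolynomial.map f) P, fun x => (degreeOf_map _ P x).trans (h1 x),
    fun s v => ?_, fun s s' φ => ?_, e₀, ?_, ?_⟩
  · rw [MvPolynomial.coeff_map]
    exact (degreeOf_map _ _ v).trans (h2 s v)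
  · rw [MvPolynomial.coeff_map, MvPolynomial.coeff_map]
    exact h3 s s' (φ.comp (e : F →+* F'))
  · rwa [MvPolynomial.coeff_map, hc]
  · rw [MvPolynomial.coeff_map, hc, MvPolynomial.eval₂_map, hcomp]
    simp only [he]
    exact h5

theorem DependentT.level {J : Type} {n q g : ℕ} (y : Fin n → J → ℂ → ℂ) (u : Fin n → Fin q → Polynomial ℂ)
    (w : Fin n → Polynomial ℂ) (ξ : Fin g → ℂ) (F : Type) [Field F] [NumberField F] (ι : F →+* ℂ) (d : ℕ)
    (A B B' T T' : ℝ)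
    (t : Fin n → F) (hA : 0 ≤ A) (h1 : 1 ≤ T) (h2 : T ≤ T') (h3 : T' ≤ T ^ 2) (h4 : 2 * |B'| ≤ B)
    (h : DependentT y u w ξ F ι d A B T t) : DependentT y u w ξ F ι d A B' T' t := by
  obtain ⟨h5, h6⟩ := rpow_levels hA h1 h2 h3 h4
  obtain ⟨P, p1, p2, p3, e₀, p4, p5⟩ := h
  exact ⟨P, p1, p2, fun e s φ => (p3 e s φ).trans h5, e₀, p4,
    p5.trans (mul_le_mul_of_nonneg_right h6 (norm_nonneg _))⟩

/-- the form of the library -/
theorem DependentT.mem {J : Type} {n p q g : ℕ} (e₂ : J ≃ Fin p) {f : Fin n → J → ℂ → ℂ}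
    {u : Fin n → Fin q → Polynomial ℂ} {w : Fin n → Polynomial ℂ} {ξ : Fin g → ℂ} {F : Type} [Field F]
    [NumberField F] {ι : F →+* ℂ} {d : ℕ} {A B T : ℝ} {t : Fin n → F} {K : Fin n → Set ℂ}
    (h : DependentT f u w ξ F ι d A B T t) (hs : ∀ j, Pool.Agent.Y120.HtLe F T (t j)) (hK : ∀ j, ι (t j) ∈ K j) :
    t ∈ Pool.Agent.Y549.GM.Exc F ι d (fun j => fun i : Fin p => f j (e₂.symm i)) u w ξ K A B T := by
  obtain ⟨P, h1, h2, h3, e₀, h4, h5⟩ := h
  set e₁ : Fin n × J ≃ Fin n × Fin p := Equiv.prodCongr (Equiv.refl (Fin n)) e₂ with he₁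
  set P' : MvPolynomial (Fin n × Fin p) (MvPolynomial ((Fin n × Fin q) ⊕ Fin g) (𝓞 F)) :=
    MvPolynomial.rename e₁ P with hP'
  have hcoef : ∀ s : (Fin n × Fin p) →₀ ℕ, P'.coeff s = P.coeff (s.mapDomain e₁.symm) := by
    intro s
    have h6 : s = (s.mapDomain e₁.symm).mapDomain e₁ := by
      rw [← Finsupp.mapDomain_comp]
      simp [Finsupp.mapDomain_id]
    conv_lhs => rw [h6]
    rw [hP', MvPolynomial.coeff_rename_mapDomain e₁ e₁.injective]
  have hsym : (e₀.mapDomain e₁).mapDomain e₁.symm = e₀ := by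
    rw [← Finsupp.mapDomain_comp]
    simp [Finsupp.mapDomain_id]
  refine ⟨fun j => ⟨hs j, hK j⟩, P', fun x => ?_, fun s v => ?_, fun s s' φ => ?_, e₀.mapDomain e₁, ?_, ?_⟩
  · have h6 := MvPolynomial.degreeOf_rename_of_injective (p := P) e₁.injective (e₁.symm x)
    rw [e₁.apply_symm_apply] at h6
    rw [hP', h6]
    exact h1 _
  · rw [hcoef]
    exact h2 _ _
  · rw [hcoef]
    exact h3 _ _ φ
  · rw [hcoef, hsym]
    exact h4
  · rw [hcoef, hsym]
    have h6 : MvPolynomial.eval₂ (coefAtT u w ξ F ι t) (fun x : Fin n × Fin p => f x.1 (e₂.symm x.2) (ι (t x.1))) P' =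
        MvPolynomial.eval₂ (coefAtT u w ξ F ι t) (fun x => f x.1 x.2 (ι (t x.1))) P := by
      rw [hP', MvPolynomial.eval₂_rename]
      congr 1
      funext x
      simp [he₁, Function.comp]
    change ‖MvPolynomial.eval₂ (coefAtT u w ξ F ι t) (fun x : Fin n × Fin p => f x.1 (e₂.symm x.2) (ι (t x.1))) P'‖ ≤
      T ^ (-B) * ‖coefAtT u w ξ F ι t (P.coeff e₀)‖
    rw [h6]
    exact h5

/-- almost all real points are outside a set of small dimension -/
theorem ae_real {n : ℕ} {E : Set (Fin n → ℂ)} {D : ℝ} (h : dimH E ≤ ENNReal.ofReal D) (h0 : 0 ≤ D) (hD : D < n) :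
    ∀ᵐ x : Fin n → ℝ, (fun j => (x j : ℂ)) ∉ E := by
  have hiso : Isometry (fun x : Fin n → ℝ => (fun j => (x j : ℂ) : Fin n → ℂ)) := by
    refine Isometry.of_dist_eq fun a b => ?_
    apply le_antisymm
    · refine (dist_pi_le_iff dist_nonneg).2 fun j => ?_
      rw [Complex.dist_of_im_eq (by simp)]
      simpa using dist_le_pi_dist a b j
    · refine (dist_pi_le_iff dist_nonneg).2 fun j => ?_
      have h1 := dist_le_pi_dist (fun j => (a j : ℂ)) (fun j => (b j : ℂ)) j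
      rw [Complex.dist_of_im_eq (by simp)] at h1
      simpa using h1
  set E' : Set (Fin n → ℝ) := {x | (fun j => (x j : ℂ)) ∈ E} with hE'
  have h1 : dimH E' ≤ ENNReal.ofReal D := by
    rw [← hiso.dimH_image]
    refine (dimH_mono ?_).trans h
    rintro _ ⟨x, hx, rfl⟩
    exact hx
  have h2 := Pool.Agent.X39.Near.vol_zero_vec h1 h0 (by rwa [Fintype.card_fin])
  exact measure_eq_zero_iff_ae_notMem.1 h2

/-- **The theorem for `n` systems of functions.** -/
theorem masterTup {J : Type} [Fintype J] {n q g : ℕ} (hn : 1 ≤ n) (m : ℕ) (Ω : Fin n → Set ℂ) (hΩ : ∀ j, IsOpen (Ω j))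
    (f : Fin n → J → ℂ → ℂ) (han : ∀ j i, ∀ t ∈ Ω j, AnalyticAt ℂ (f j i) t)
    (hind : ∀ j, ∀ t ∈ Ω j, Pool.Agent.Y124.LocInd (f j) t)
    (u : Fin n → Fin q → Polynomial ℂ) (w : Fin n → Polynomial ℂ) (hw : ∀ j, ∀ t ∈ Ω j, (w j).eval t ≠ 0)
    (ξ : Fin g → ℂ) {ω : ℝ} (hω : 0 < ω) :
    ∃ E : Set (Fin n → ℂ), dimH E ≤ ENNReal.ofReal (2 * m * ((n : ℝ) - 1) / ω) ∧
      (2 * m * ((n : ℝ) - 1) < n * ω → ∀ᵐ x : Fin n → ℝ, (fun j => (x j : ℂ)) ∉ E) ∧
      ∀ x : Fin n → ℂ, (∀ j, x j ∈ Ω j) → x ∉ E → ∀ (F : Type) [Field F] [NumberField F],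
        Module.finrank ℚ F ≤ m → ∀ (ι : F →+* ℂ) (d A : ℕ), ∃ B T₁ : ℝ, ∀ T : ℝ, T₁ ≤ T → ∀ t : Fin n → F,
          (∀ j, Size F T (t j)) → (∀ j, ‖ι (t j) - x j‖ ≤ T ^ (-ω)) → ¬ DependentT f u w ξ F ι d A B T t := by
  classical
  have hn1 : (1 : ℝ) ≤ n := by exact_mod_cast hn
  suffices hmain : ∃ E : Set (Fin n → ℂ), dimH E ≤ ENNReal.ofReal (2 * m * ((n : ℝ) - 1) / ω) ∧
      ∀ x : Fin n → ℂ, (∀ j, x j ∈ Ω j) → x ∉ E → ∀ (F : Type) [Field F] [NumberField F],
        Module.finrank ℚ F ≤ m → ∀ (ι : F →+* ℂ) (d A : ℕ), ∃ B T₁ : ℝ, ∀ T : ℝ, T₁ ≤ T → ∀ t : Fin n → F,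
          (∀ j, Size F T (t j)) → (∀ j, ‖ι (t j) - x j‖ ≤ T ^ (-ω)) → ¬ DependentT f u w ξ F ι d A B T t by
    obtain ⟨E, h1, h2⟩ := hmain
    have h0 : (0 : ℝ) ≤ 2 * m * ((n : ℝ) - 1) / ω := by
      have : (0 : ℝ) ≤ (n : ℝ) - 1 := by linarith
      positivity
    exact ⟨E, h1, fun h3 => ae_real h1 h0 ((div_lt_iff₀ hω).2 h3), h2⟩
  set p : ℕ := Fintype.card J with hp
  let e₂ : J ≃ Fin p := Fintype.equivFin J
  have hind' : ∀ j, ∀ t ∈ Ω j, Pool.Agent.Y124.LocInd (fun i : Fin p => f j (e₂.symm i)) t := by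
    intro j t ht P hP
    have h1 : (MvPolynomial.rename (Option.map e₂.symm) P : MvPolynomial (Option J) ℂ) = 0 := by
      apply hind j t ht
      filter_upwards [hP] with z hz
      rw [MvPolynomial.eval_rename, ← hz]
      have h0 : ((fun o : Option J => o.elim z fun y => f j y z) ∘ Option.map e₂.symm) =
          fun o : Option (Fin p) => o.elim z fun y => f j (e₂.symm y) z := by
        funext o
        rcases o with _ | i
        · rfl
        · rfl
      rw [h0]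
    have hinj : Function.Injective (MvPolynomial.rename (R := ℂ) (Option.map e₂.symm)) :=
      MvPolynomial.rename_injective _ (Option.map_injective e₂.symm.injective)
    exact hinj (by rw [h1, map_zero])
  refine tuples n m hn Ω hΩ (fun F _ _ => DependentT f u w ξ F)
    (fun F F' _ _ _ _ ι ι' e he d A B T t => DependentT.trans f u w ξ F F' ι ι' e he d A B T t)
    (fun F _ _ ι d A B B' T T' t => DependentT.level f u w ξ F ι d A B B' T T' t) ?_ hω
  intro K hK hKΩ d A ε hA hε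
  obtain ⟨B, C, T₀, hC, hT₀, h⟩ := Pool.Agent.Y549.GM.general m n p q g d
    (fun j => fun i : Fin p => f j (e₂.symm i)) K hK (fun j i t ht => han j _ t (hKΩ j ht))
    (fun j t ht => hind' j t (hKΩ j ht)) u w (fun j t ht => hw j t (hKΩ j ht)) A ε hε
  refine ⟨B, C, T₀, fun F _ _ hF ι T hT => ?_⟩
  obtain ⟨h3, h4⟩ := h F hF ι ξ T hT
  have hT0 : 0 ≤ T := by linarith
  have hT1 : 1 ≤ T := by linarith
  have hht : ∀ x : F, Size F T x → Pool.Agent.Y120.HtLe F T x := by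
    rintro x ⟨a, b, hb, hab, hx⟩
    exact ⟨a, b, hb, Pool.Agent.Y120.house_le F hT0 fun φ => (hab φ).1,
      Pool.Agent.Y120.house_le F hT0 fun φ => (hab φ).2, hx⟩
  have hht' : ∀ x : F, Pool.Agent.Y120.HtLe F T x → Size F T x := by
    rintro x ⟨a, b, hb, ha, hb', hx⟩
    exact ⟨a, b, hb, fun φ => ⟨(Pool.Agent.Y120.house_ge F _ φ).trans ha, (Pool.Agent.Y120.house_ge F _ φ).trans hb'⟩, hx⟩
  have hsub : {t : Fin n → F | (∀ j, ι (t j) ∈ K j ∧ Size F T (t j)) ∧ DependentT f u w ξ F ι d A B T t} ⊆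
      Pool.Agent.Y549.GM.Exc F ι d (fun j => fun i : Fin p => f j (e₂.symm i)) u w ξ K A B T :=
    fun t ht => ht.2.mem e₂ (fun j => hht _ (ht.1 j).2) fun j => (ht.1 j).1
  obtain ⟨c, -, hc⟩ := card_quot F
  have hfin : {x : F | Size F T x}.Finite := (hc T hT1).1
  refine ⟨h3.subset hsub, ?_⟩
  have h5 : ((({t : Fin n → F | (∀ j, ι (t j) ∈ K j ∧ Size F T (t j)) ∧ DependentT f u w ξ F ι d A B T t}).ncard : ℕ) : ℝ) ≤
      ((Pool.Agent.Y549.GM.Exc F ι d (fun j => fun i : Fin p => f j (e₂.symm i)) u w ξ K A B T).ncard : ℝ) := by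
    exact_mod_cast Set.ncard_le_ncard hsub h3
  refine h5.trans (h4.trans ?_)
  have hsub' : {x : F | Pool.Agent.Y120.HtLe F T x ∧ ι x ∈ ⋃ j, K j} ⊆ {x : F | Size F T x} :=
    fun x hx => hht' x hx.1
  have h6 : (({x : F | Pool.Agent.Y120.HtLe F T x ∧ ι x ∈ ⋃ j, K j}.ncard : ℕ) : ℝ) ≤
      (({x : F | Size F T x}.ncard : ℕ) : ℝ) := by
    exact_mod_cast Set.ncard_le_ncard hsub' hfin
  exact mul_le_mul_of_nonneg_left (pow_le_pow_left₀ (Nat.cast_nonneg _) h6 _) (by positivity)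

end Pool.Agent.X174.NearTup
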