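import Pool.Agent.X39.Near.Gl2
import Pool.Agent.X174.MasterTup

/-!
# Relations between the entries of `n` matrices with proportional determinants
-/

set_option autoImplicit false
set_option linter.unusedSectionVars false

open NumberField Filter

namespace Pool.Agent.X174.GlTup

open MvPolynomial Pool.Agent.X255.NP
open Pool.Agent.X174.NearTup (DependentT coefAtT)
open Pool.Agent.X39.Near (Dependent coefAt)

variable {F : Type} [Field F] [NumberField F]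

/-- the index of the coefficients, for systems without the functions `u` -/
def sg (n g : ℕ) : (Fin 0 ⊕ Fin g) ≃ ((Fin n × Fin 0) ⊕ Fin g) where
  toFun := Sum.elim (fun k => k.elim0) Sum.inr
  invFun := Sum.elim (fun k => k.2.elim0) Sum.inr
  left_inv := by
    rintro (k | k)
    · exact k.elim0
    · rfl
  right_inv := by
    rintro (k | k)
    · exact k.2.elim0
    · rfl

/-- the case `q = 0` of the definitions, as a system of constant functions -/
theorem dep_of {J : Type} {n g : ℕ} (f : Fin n → J → ℂ → ℂ) (u : Fin n → Fin 0 → Polynomial ℂ)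
    (w : Fin n → Polynomial ℂ) (ξ : Fin g → ℂ) (io : F →+* ℂ) {d : ℕ} {A B T : ℝ} {t : Fin n → F} {t₀ : F}
    (h : Dependent (fun (x : Fin n × J) (_ : ℂ) => f x.1 x.2 (io (t x.1))) (fun k : Fin 0 => k.elim0) 1 ξ F io d A B T t₀) :
    DependentT f u w ξ F io d A B T t := by
  classical
  obtain ⟨P, h1, h2, h3, e₀, h4, h5⟩ := h
  set σ := sg n g with hσ
  set ρ : MvPolynomial (Fin 0 ⊕ Fin g) (𝓞 F) →+* MvPolynomial ((Fin n × Fin 0) ⊕ Fin g) (𝓞 F) :=
    (rename (R := 𝓞 F) σ : MvPolynomial (Fin 0 ⊕ Fin g) (𝓞 F) →ₐ[𝓞 F] MvPolynomial ((Fin n × Fin 0) ⊕ Fin g) (𝓞 F)).toRingHom with hρ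
  have hρr : ∀ p, ρ p = rename σ p := fun p => rfl
  have hcomp : (coefAtT u w ξ F io t).comp ρ = coefAt (fun k : Fin 0 => k.elim0) 1 ξ F io t₀ := by
    apply MvPolynomial.ringHom_ext
    · intro r
      simp only [RingHom.comp_apply, hρr, rename_C, coefAtT, coefAt, eval₂Hom_C]
    · rintro (k | k)
      · exact k.elim0
      · simp only [RingHom.comp_apply, hρr, rename_X, coefAtT, coefAt, eval₂Hom_X']
        rfl
  have hval : ∀ p, coefAtT u w ξ F io t (ρ p) = coefAt (fun k : Fin 0 => k.elim0) 1 ξ F io t₀ p := fun p =>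
    RingHom.congr_fun hcomp p
  refine ⟨MvPolynomial.map ρ P, fun x => (Pool.Agent.X39.Near.degreeOf_map _ P x).trans (h1 x), fun e v => ?_,
    fun e s φ => ?_, e₀, ?_, ?_⟩
  · rw [coeff_map, hρr]
    obtain ⟨v', rfl⟩ := σ.surjective v
    rw [degreeOf_rename_of_injective σ.injective]
    exact h2 e v'
  · rw [coeff_map, hρr]
    have hs : s = Finsupp.mapDomain σ (Finsupp.mapDomain σ.symm s) := by
      rw [← Finsupp.mapDomain_comp]
      have : (σ ∘ σ.symm : ((Fin n × Fin 0) ⊕ Fin g) → _) = id := by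
        funext y
        simp
      rw [this, Finsupp.mapDomain_id]
    rw [hs, coeff_rename_mapDomain σ σ.injective]
    exact h3 e _ φ
  · rw [coeff_map, hval]
    exact h4
  · rw [coeff_map, hval, eval₂_map, hcomp]
    exact h5

/-- with one transcendental constant, the polynomial vanishes -/
theorem poly_zeroT {J : Type} [Fintype J] [DecidableEq J] {n : ℕ} (f : Fin n → J → ℂ → ℂ)
    (u : Fin n → Fin 0 → Polynomial ℂ) (w : Fin n → Polynomial ℂ) {c : ℂ} (hc : Transcendental ℚ c)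
    (io : F →+* ℂ) {d : ℕ} {A B T : ℝ} {t : Fin n → F} (h : ¬ DependentT f u w (fun _ : Fin 1 => c) F io d A B T t)
    (hT : 0 < T) (PP : MvPolynomial (Fin 1 ⊕ (Fin n × J)) (𝓞 F)) (hdo : ∀ i, PP.degreeOf i ≤ d)
    (hbound : ∀ (s : Fin 1 ⊕ (Fin n × J) →₀ ℕ) (φ : F →+* ℂ), ‖φ ((PP.coeff s : 𝓞 F) : F)‖ ≤ T ^ A)
    (hev : eval₂ (io.comp (algebraMap (𝓞 F) F)) (Sum.elim (fun _ : Fin 1 => c) fun x => f x.1 x.2 (io (t x.1))) PP = 0) :
    PP = 0 :=
  Pool.Agent.X39.Near.poly_zero (fun (x : Fin n × J) (_ : ℂ) => f x.1 x.2 (io (t x.1))) (fun k : Fin 0 => k.elim0) 1 hc F io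
    (t := 0) (fun h1 => h (dep_of f u w _ io h1)) hT PP hdo hbound hev

/-! Elimination of the fourth entries. -/

/-- the contribution of one matrix -/
noncomputable def fac {n : ℕ} (N : Fin n → ℤ) (D : ℕ) (s : Fin n × Fin 4 →₀ ℕ) (j : Fin n) :
    MvPolynomial (Fin 1 ⊕ (Fin n × Fin 3)) (𝓞 F) :=
  X (Sum.inr (j, 0)) ^ (s (j, 0) + D - s (j, 3)) * (X (Sum.inr (j, 1)) ^ (s (j, 1)) *
    (X (Sum.inr (j, 2)) ^ (s (j, 2)) * (C ((N j : ℤ) : 𝓞 F) * X (Sum.inl 0) +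
      X (Sum.inr (j, 1)) * X (Sum.inr (j, 2))) ^ (s (j, 3))))

/-- the polynomial in the common determinant and the first three entries -/
noncomputable def elimT {n : ℕ} (N : Fin n → ℤ) (D : ℕ) (Q : MvPolynomial (Fin n × Fin 4) (𝓞 F)) :
    MvPolynomial (Fin 1 ⊕ (Fin n × Fin 3)) (𝓞 F) :=
  ∑ s ∈ Q.support, C (Q.coeff s) * ∏ j, fac N D s j

theorem elimT_eval {n : ℕ} {N : Fin n → ℤ} {D : ℕ} {Q : MvPolynomial (Fin n × Fin 4) (𝓞 F)} (hQ : ∀ i, Q.degreeOf i ≤ D)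
    (ψ : 𝓞 F →+* ℂ) (M : Fin n → Fin 4 → ℂ) (c : ℂ) (hM : ∀ j, M j 0 * M j 3 - M j 1 * M j 2 = N j * c) :
    eval₂ ψ (Sum.elim (fun _ : Fin 1 => c) fun x : Fin n × Fin 3 => M x.1 (![0, 1, 2] x.2)) (elimT N D Q) =
      (∏ j, M j 0 ^ D) * eval₂ ψ (fun x : Fin n × Fin 4 => M x.1 x.2) Q := by
  classical
  rw [elimT, eval₂_sum, eval₂_eq', Finset.mul_sum]
  refine Finset.sum_congr rfl fun s hs => ?_
  rw [eval₂_mul, eval₂_C, Fintype.prod_prod_type, mul_left_comm, ← Finset.prod_mul_distrib]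
  congr 1
  rw [← coe_eval₂Hom, map_prod]
  refine Finset.prod_congr rfl fun j _ => ?_
  rw [coe_eval₂Hom]
  have h3 : s (j, 3) ≤ D := (monomial_le_degreeOf _ hs).trans (hQ _)
  simp only [fac, eval₂_mul, eval₂_C, eval₂_pow, eval₂_X, eval₂_add, Sum.elim_inr, Sum.elim_inl, Matrix.cons_val_zero,
    Matrix.cons_val_one, Matrix.cons_val]
  rw [map_intCast ψ, Fin.prod_univ_four, ← hM j, show M j 0 * M j 3 - M j 1 * M j 2 + M j 1 * M j 2 = M j 0 * M j 3 by ring, mul_pow]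
  have h4 : M j 0 ^ (s (j, 0) + D - s (j, 3)) * M j 0 ^ (s (j, 3)) = M j 0 ^ D * M j 0 ^ (s (j, 0)) := by
    rw [← pow_add, ← pow_add]
    congr 1
    omega
  linear_combination (M j 1 ^ s (j, 1) * M j 2 ^ s (j, 2) * M j 3 ^ s (j, 3)) * h4

theorem elimT_deg {n : ℕ} {N : Fin n → ℤ} {D : ℕ} {Q : MvPolynomial (Fin n × Fin 4) (𝓞 F)} (hQ : ∀ i, Q.degreeOf i ≤ D)
    (i : Fin 1 ⊕ (Fin n × Fin 3)) : (elimT N D Q).degreeOf i ≤ n * (6 * D) := by
  classical
  refine (degreeOf_le_totalDegree _ _).trans ?_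
  rw [elimT]
  refine totalDegree_finsetSum_le fun s hs => ?_
  refine (totalDegree_mul _ _).trans ?_
  rw [totalDegree_C, zero_add]
  refine (totalDegree_finsetProd _ _).trans ?_
  have h : ∀ j ∈ (Finset.univ : Finset (Fin n)), (fac (F := F) N D s j).totalDegree ≤ 6 * D := by
    intro j _
    have hi : ∀ i, s i ≤ D := fun i => (monomial_le_degreeOf _ hs).trans (hQ i)
    have h0 := hi (j, 0)
    have h1 := hi (j, 1)
    have h2 := hi (j, 2)
    have h3 := hi (j, 3)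
    have hX : ∀ (i : Fin 1 ⊕ (Fin n × Fin 3)) (k : ℕ),
        (X i ^ k : MvPolynomial (Fin 1 ⊕ (Fin n × Fin 3)) (𝓞 F)).totalDegree ≤ k := by
      intro i k
      exact (totalDegree_pow _ _).trans (by rw [totalDegree_X, mul_one])
    have hY : (C ((N j : ℤ) : 𝓞 F) * X (Sum.inl 0) + X (Sum.inr (j, 1)) * X (Sum.inr (j, 2)) :
        MvPolynomial (Fin 1 ⊕ (Fin n × Fin 3)) (𝓞 F)).totalDegree ≤ 2 := by
      refine (totalDegree_add _ _).trans (max_le ?_ ?_)
      · refine (totalDegree_mul _ _).trans ?_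
        rw [totalDegree_C, totalDegree_X]
        norm_num
      · refine (totalDegree_mul _ _).trans ?_
        rw [totalDegree_X, totalDegree_X]
    have hYp : ((C ((N j : ℤ) : 𝓞 F) * X (Sum.inl 0) + X (Sum.inr (j, 1)) * X (Sum.inr (j, 2)) :
        MvPolynomial (Fin 1 ⊕ (Fin n × Fin 3)) (𝓞 F)) ^ (s (j, 3))).totalDegree ≤ s (j, 3) * 2 :=
      (totalDegree_pow _ _).trans (Nat.mul_le_mul_left _ hY)
    rw [fac]
    refine ((totalDegree_mul _ _).trans (Nat.add_le_add (hX _ _)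
      ((totalDegree_mul _ _).trans (Nat.add_le_add (hX _ _) ((totalDegree_mul _ _).trans
        (Nat.add_le_add (hX _ _) hYp)))))).trans ?_
    omega
  refine (Finset.sum_le_sum h).trans ?_
  rw [Finset.sum_const, Finset.card_univ, Fintype.card_fin, smul_eq_mul]

theorem elimT_coeff {n : ℕ} {N : Fin n → ℤ} {D : ℕ} {Q : MvPolynomial (Fin n × Fin 4) (𝓞 F)} (hQ : ∀ i, Q.degreeOf i ≤ D)
    {R : ℝ} (hR : ∀ s (φ : F →+* ℂ), ‖φ ((Q.coeff s : 𝓞 F) : F)‖ ≤ R) (hR0 : 0 ≤ R) (s : Fin 1 ⊕ (Fin n × Fin 3) →₀ ℕ)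
    (φ : F →+* ℂ) :
    ‖φ (((elimT N D Q).coeff s : 𝓞 F) : F)‖ ≤ (D + 1) ^ (n * 4) * (R * ∏ j, (|(N j : ℝ)| + 1) ^ D) := by
  classical
  set ψ := φ.comp (algebraMap (𝓞 F) F) with hψ
  have h1 : φ (((elimT N D Q).coeff s : 𝓞 F) : F) = (MvPolynomial.map ψ (elimT N D Q)).coeff s := by
    rw [coeff_map]
    rfl
  rw [h1]
  refine (coeff_le_l1 _ _).trans ?_
  rw [elimT, map_sum]
  refine (l1_sum _ _).trans ?_
  have h2 : ∀ s ∈ Q.support, l1 (MvPolynomial.map ψ (C (Q.coeff s) * ∏ j, fac N D s j)) ≤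
      R * ∏ j, (|(N j : ℝ)| + 1) ^ D := by
    intro s hs
    rw [map_mul, map_prod, MvPolynomial.map_C]
    refine (l1_mul _ _).trans ?_
    rw [Pool.Agent.X39.Near.l1_C]
    refine mul_le_mul (hR s φ) ?_ (l1_nonneg _) hR0
    refine (Pool.Agent.X39.Near.l1_prod' _ _).trans ?_
    refine Finset.prod_le_prod (fun _ _ => l1_nonneg _) fun j _ => ?_
    have h3 : s (j, 3) ≤ D := (monomial_le_degreeOf _ hs).trans (hQ _)
    rw [fac]
    simp only [map_mul, map_pow, map_add, MvPolynomial.map_C, MvPolynomial.map_X]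
    have hX : ∀ (i : Fin 1 ⊕ (Fin n × Fin 3)) (k : ℕ),
        l1 (X i ^ k : MvPolynomial (Fin 1 ⊕ (Fin n × Fin 3)) ℂ) ≤ 1 := by
      intro i k
      refine (Pool.Agent.X39.Near.l1_pow _ _).trans ?_
      rw [Pool.Agent.X39.Near.l1_X, one_pow]
    have hN : ‖ψ ((N j : ℤ) : 𝓞 F)‖ = |(N j : ℝ)| := by
      rw [map_intCast, Complex.norm_intCast]
    have hY : l1 ((C (ψ ((N j : ℤ) : 𝓞 F)) * X (Sum.inl 0) + X (Sum.inr (j, 1)) * X (Sum.inr (j, 2)) :
        MvPolynomial (Fin 1 ⊕ (Fin n × Fin 3)) ℂ) ^ (s (j, 3))) ≤ (|(N j : ℝ)| + 1) ^ D := by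
      refine (Pool.Agent.X39.Near.l1_pow _ _).trans ?_
      have h4 : l1 (C (ψ ((N j : ℤ) : 𝓞 F)) * X (Sum.inl 0) + X (Sum.inr (j, 1)) * X (Sum.inr (j, 2)) :
          MvPolynomial (Fin 1 ⊕ (Fin n × Fin 3)) ℂ) ≤ |(N j : ℝ)| + 1 := by
        refine (l1_add _ _).trans (add_le_add ?_ ?_)
        · refine (l1_mul _ _).trans ?_
          rw [Pool.Agent.X39.Near.l1_C, Pool.Agent.X39.Near.l1_X, mul_one, hN]
        · refine (l1_mul _ _).trans ?_
          rw [Pool.Agent.X39.Near.l1_X, Pool.Agent.X39.Near.l1_X, mul_one]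
      exact (pow_le_pow_left₀ (l1_nonneg _) h4 _).trans
        (pow_le_pow_right₀ (by linarith [abs_nonneg (N j : ℝ)]) h3)
    have hmul : ∀ (p q : MvPolynomial (Fin 1 ⊕ (Fin n × Fin 3)) ℂ) (a : ℝ), l1 p ≤ 1 → l1 q ≤ a → l1 (p * q) ≤ a := by
      intro p q a hp hq
      refine (l1_mul _ _).trans ?_
      calc l1 p * l1 q ≤ 1 * l1 q := mul_le_mul_of_nonneg_right hp (l1_nonneg _)
        _ ≤ a := by rw [one_mul]; exact hq
    exact hmul _ _ _ (hX _ _) (hmul _ _ _ (hX _ _) (hmul _ _ _ (hX _ _) hY))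
  refine (Finset.sum_le_sum h2).trans ?_
  rw [Finset.sum_const, nsmul_eq_mul]
  refine mul_le_mul_of_nonneg_right ?_ (by positivity)
  have h3 := Pool.Agent.X39.Near.card_support Q hQ
  rw [Fintype.card_prod, Fintype.card_fin, Fintype.card_fin] at h3
  exact_mod_cast h3

/-- if the elimination gives zero, the polynomial vanishes at all invertible matrices with determinants `N_j c` -/
theorem zero_of_elimT {n : ℕ} {N : Fin n → ℤ} {D : ℕ} {Q : MvPolynomial (Fin n × Fin 4) (𝓞 F)}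
    (hQ : ∀ i, Q.degreeOf i ≤ D) (ψ : 𝓞 F →+* ℂ) (h : elimT N D Q = 0) (M : Fin n → Fin 4 → ℂ) (c : ℂ)
    (hM : ∀ j, M j 0 * M j 3 - M j 1 * M j 2 = N j * c) (hM0 : ∀ j, M j 0 * M j 3 - M j 1 * M j 2 ≠ 0) :
    eval₂ ψ (fun x : Fin n × Fin 4 => M x.1 x.2) Q = 0 := by
  classical
  -- the matrices `M_j (1, 0; s, 1)`
  let L : Fin n → Fin 4 → Polynomial ℂ := fun j => ![Polynomial.C (M j 0) + Polynomial.C (M j 1) * Polynomial.X,
    Polynomial.C (M j 1), Polynomial.C (M j 2) + Polynomial.C (M j 3) * Polynomial.X, Polynomial.C (M j 3)]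
  set p : Polynomial ℂ := eval₂ (Polynomial.C.comp ψ) (fun x : Fin n × Fin 4 => L x.1 x.2) Q with hp
  have hev : ∀ s : ℂ, p.eval s = eval₂ ψ (fun x : Fin n × Fin 4 => (L x.1 x.2).eval s) Q := by
    intro s
    have h1 : ((Polynomial.evalRingHom s).comp (eval₂Hom (Polynomial.C.comp ψ) (fun x : Fin n × Fin 4 => L x.1 x.2))) =
        eval₂Hom ψ (fun x : Fin n × Fin 4 => (L x.1 x.2).eval s) := by
      apply MvPolynomial.ringHom_ext
      · intro a
        simp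
      · intro x
        simp
    exact RingHom.congr_fun h1 Q
  have hprod : (∏ j, L j 0 ^ D) * p = 0 := by
    apply Polynomial.funext
    intro s
    rw [Polynomial.eval_mul, Polynomial.eval_zero, Polynomial.eval_prod, hev]
    have h1 := elimT_eval hQ ψ (fun j i => (L j i).eval s) c (fun j => by
      rw [← hM j]
      simp only [L, Matrix.cons_val_zero, Matrix.cons_val_one, Matrix.cons_val, Polynomial.eval_add, Polynomial.eval_mul,
        Polynomial.eval_C, Polynomial.eval_X]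
      ring)
    rw [h, eval₂_zero] at h1
    rw [h1]
    congr 1
    exact Finset.prod_congr rfl fun j _ => by rw [Polynomial.eval_pow]
  have hL0 : ∀ j, L j 0 ≠ 0 := by
    intro j h1
    apply hM0 j
    have h2 := congrArg (Polynomial.eval 0) h1
    have h3 := congrArg (Polynomial.eval 1) h1
    simp only [L, Matrix.cons_val_zero, Polynomial.eval_add, Polynomial.eval_mul, Polynomial.eval_C, Polynomial.eval_X,
      mul_zero, add_zero, Polynomial.eval_zero, mul_one] at h2 h3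
    rw [h2, zero_add] at h3
    rw [h2, h3]
    ring
  have hp0 : p = 0 := by
    rcases mul_eq_zero.1 hprod with h1 | h1
    · exact absurd h1 (Finset.prod_ne_zero_iff.2 fun j _ => pow_ne_zero _ (hL0 j))
    · exact h1
  have h1 := hev 0
  rw [hp0, Polynomial.eval_zero] at h1
  rw [h1]
  congr 2
  funext x
  obtain ⟨j, i⟩ := x
  fin_cases i <;> simp [L]

/-- **`n` matrices.** -/
theorem glT {n : ℕ} (f : Fin n → Fin 3 → ℂ → ℂ) (u : Fin n → Fin 0 → Polynomial ℂ) (w : Fin n → Polynomial ℂ) {c : ℂ}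
    (hc : Transcendental ℚ c) (io : F →+* ℂ) {D : ℕ} {A B T : ℝ} {t : Fin n → F}
    (h : ¬ DependentT f u w (fun _ : Fin 1 => c) F io (n * (6 * D)) A B T t) (hT : 0 < T) (N : Fin n → ℤ)
    {Q : MvPolynomial (Fin n × Fin 4) (𝓞 F)} (hQ : ∀ i, Q.degreeOf i ≤ D) {R : ℝ}
    (hR : ∀ s (φ : F →+* ℂ), ‖φ ((Q.coeff s : 𝓞 F) : F)‖ ≤ R) (hR0 : 0 ≤ R)
    (hb : (D + 1) ^ (n * 4) * (R * ∏ j, (|(N j : ℝ)| + 1) ^ D) ≤ T ^ A)
    (M : Fin n → Fin 4 → ℂ) (h0 : ∀ j, M j 0 = f j 0 (io (t j))) (h1 : ∀ j, M j 1 = f j 1 (io (t j)))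
    (h2 : ∀ j, M j 2 = f j 2 (io (t j))) (h3 : ∀ j, M j 0 * M j 3 - M j 1 * M j 2 = N j * c)
    (hM : eval₂ (io.comp (algebraMap (𝓞 F) F)) (fun x : Fin n × Fin 4 => M x.1 x.2) Q = 0)
    (M' : Fin n → Fin 4 → ℂ) (c' : ℂ) (h4 : ∀ j, M' j 0 * M' j 3 - M' j 1 * M' j 2 = N j * c')
    (h5 : ∀ j, M' j 0 * M' j 3 - M' j 1 * M' j 2 ≠ 0) :
    eval₂ (io.comp (algebraMap (𝓞 F) F)) (fun x : Fin n × Fin 4 => M' x.1 x.2) Q = 0 := by
  classical
  refine zero_of_elimT hQ _ (poly_zeroT f u w hc io h hT (elimT N D Q) (elimT_deg hQ)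
    (fun s φ => (elimT_coeff hQ hR hR0 s φ).trans hb) ?_) M' c' h4 h5
  have h6 := elimT_eval hQ (io.comp (algebraMap (𝓞 F) F)) M c h3
  rw [hM, mul_zero] at h6
  rw [← h6]
  congr 2
  funext x
  obtain ⟨j, i⟩ := x
  fin_cases i
  · exact (h0 j).symm
  · exact (h1 j).symm
  · exact (h2 j).symm

/-! Composition with polynomials, any index type. -/

variable {σ : Type}

/-- the composition -/
noncomputable def comp {m : ℕ} (R : Fin m → MvPolynomial σ ℤ) (Q : MvPolynomial (Fin m) (𝓞 F)) : MvPolynomial σ (𝓞 F) :=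
  eval₂ C (fun k => (R k).map (Int.castRingHom (𝓞 F))) Q

theorem comp_eval {m : ℕ} (R : Fin m → MvPolynomial σ ℤ) (Q : MvPolynomial (Fin m) (𝓞 F)) (ψ : 𝓞 F →+* ℂ)
    (M : σ → ℂ) : eval₂ ψ M (comp R Q) = eval₂ ψ (fun k => aeval M (R k)) Q := by
  have h1 : (eval₂Hom ψ M).comp (eval₂Hom C (fun k => (R k).map (Int.castRingHom (𝓞 F)))) =
      eval₂Hom ψ (fun k => aeval M (R k)) := by
    apply MvPolynomial.ringHom_ext
    · intro a
      simp
    · intro k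
      simp only [RingHom.comp_apply, eval₂Hom_X', coe_eval₂Hom, eval₂_map, aeval_def]
      congr 1
      exact Subsingleton.elim _ _
  exact RingHom.congr_fun h1 Q

theorem comp_deg {m : ℕ} {R : Fin m → MvPolynomial σ ℤ} {ρ δ : ℕ} (hR : ∀ k, (R k).totalDegree ≤ ρ)
    {Q : MvPolynomial (Fin m) (𝓞 F)} (hQ : Q.totalDegree ≤ δ) (i : σ) : (comp R Q).degreeOf i ≤ δ * ρ := by
  classical
  refine (degreeOf_le_totalDegree _ _).trans ?_
  have h0 : ∀ k, ((R k).map (Int.castRingHom (𝓞 F))).totalDegree ≤ ρ := fun k =>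
    (Finset.sup_mono (support_map_subset _ _)).trans (hR k)
  have h2 : ∀ s ∈ Q.support, ∑ k, s k ≤ δ := by
    intro s hs
    have h3 := le_totalDegree hs
    rw [Finsupp.sum_fintype _ _ fun _ => rfl] at h3
    exact h3.trans hQ
  rw [comp, eval₂_eq']
  exact totalDegree_finsetSum_le fun s hs => Pool.Agent.X39.Near.mono_deg h0 s (h2 s hs) _

theorem comp_coeff {m : ℕ} {R : Fin m → MvPolynomial σ ℤ} {L : ℝ} (hL : 1 ≤ L)
    (hR : ∀ k, l1 ((R k).map (Int.castRingHom ℂ)) ≤ L) {δ : ℕ} {Q : MvPolynomial (Fin m) (𝓞 F)} (hQ : Q.totalDegree ≤ δ)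
    {H : ℝ} (hH : ∀ s (φ : F →+* ℂ), ‖φ ((Q.coeff s : 𝓞 F) : F)‖ ≤ H) (hH0 : 0 ≤ H) (s : σ →₀ ℕ) (φ : F →+* ℂ) :
    ‖φ (((comp R Q).coeff s : 𝓞 F) : F)‖ ≤ (δ + 1) ^ m * (H * L ^ δ) := by
  classical
  set ψ := φ.comp (algebraMap (𝓞 F) F) with hψ
  have h1 : φ (((comp R Q).coeff s : 𝓞 F) : F) = (MvPolynomial.map ψ (comp R Q)).coeff s := by
    rw [coeff_map]
    rfl
  rw [h1]
  refine (coeff_le_l1 _ _).trans ?_
  rw [comp, eval₂_eq', map_sum]
  refine (l1_sum _ _).trans ?_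
  have h2 : ∀ s ∈ Q.support, l1 (MvPolynomial.map ψ (C (Q.coeff s) * ∏ k, ((R k).map (Int.castRingHom (𝓞 F))) ^ s k)) ≤
      H * L ^ δ := by
    intro s hs
    rw [map_mul, MvPolynomial.map_C, map_prod]
    refine (l1_mul _ _).trans ?_
    rw [Pool.Agent.X39.Near.l1_C]
    refine mul_le_mul (hH s φ) ?_ (l1_nonneg _) hH0
    refine (Pool.Agent.X39.Near.l1_prod' _ _).trans ?_
    have h3 : ∀ k ∈ (Finset.univ : Finset (Fin m)), l1 (MvPolynomial.map ψ (((R k).map (Int.castRingHom (𝓞 F))) ^ s k)) ≤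
        L ^ s k := by
      intro k _
      rw [map_pow, MvPolynomial.map_map]
      refine (Pool.Agent.X39.Near.l1_pow _ _).trans (pow_le_pow_left₀ (l1_nonneg _) ?_ _)
      have h4 : ψ.comp (Int.castRingHom (𝓞 F)) = Int.castRingHom ℂ := Subsingleton.elim _ _
      rw [h4]
      exact hR k
    refine (Finset.prod_le_prod (fun k _ => l1_nonneg _) h3).trans ?_
    rw [Finset.prod_pow_eq_pow_sum]
    refine pow_le_pow_right₀ hL (le_trans ?_ hQ)
    have h5 := le_totalDegree hs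
    rwa [Finsupp.sum_fintype _ _ fun _ => rfl] at h5
  refine (Finset.sum_le_sum h2).trans ?_
  rw [Finset.sum_const, nsmul_eq_mul]
  refine mul_le_mul_of_nonneg_right ?_ (by positivity)
  have h3 := Pool.Agent.X39.Near.card_support Q (D := δ) fun i => (degreeOf_le_totalDegree _ _).trans hQ
  rw [Fintype.card_fin] at h3
  exact_mod_cast h3

end Pool.Agent.X174.GlTup
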