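import Pool.Agent.X174.WinVecV

/-! Integral vectors in boxes: few exceptions in all large boxes `[-H, H] ^ κ`. -/

set_option autoImplicit false

open Finset Filter Topology MeasureTheory

namespace Pool.Agent.X174

open Pool.Agent.Y854.GM (ExpLe)

/-- a property of integral vectors with a proportion `≤ H ^ (-δ)` of exceptions in the boxes `[-H, H] ^ κ`, `H ≥ H₀` -/
theorem winBox {κ : Type} [Fintype κ] (hκ : 1 ≤ Fintype.card κ) (Good : (κ → ℤ) → Prop) {δ : ℝ} (hδ : 0 < δ) (H₀ : ℕ)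
    (h : ∀ H : ℕ, H₀ ≤ H → ({w : κ → ℤ | (∀ q, |w q| ≤ (H : ℤ)) ∧ ¬ Good w}.ncard : ℝ) ≤
      (H : ℝ) ^ (-δ) * (2 * H + 1 : ℝ) ^ (Fintype.card κ))
    {v : ℕ → ℝ} {τ ρ : ℝ} (hpos : ∀ n, 1 ≤ v n) (hτ : 0 ≤ τ) (hv : ExpLe v τ) (hρ : ρ < 1) :
    ∃ E : Set (κ → ℝ), dimH E ≤ ENNReal.ofReal (((Fintype.card κ : ℝ) - min δ (1 / 2) + τ) / (1 - ρ)) ∧
      ∀ x : κ → ℝ, x ∉ E → ∃ i₀ : ℕ, ∀ i : ℕ, i₀ ≤ i → ∀ w : κ → ℤ,
        (∀ j, |(w j : ℝ) - x j * v i| ≤ (v i) ^ ρ) → Good w := by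
  set M : ℕ := Fintype.card κ with hM
  set c : ℝ := min δ (1 / 2) with hc
  have hca : c ≤ δ := min_le_left _ _
  have hcb : c ≤ 1 / 2 := min_le_right _ _
  have hc0 : 0 < c := lt_min hδ (by norm_num)
  have hM1 : (1 : ℝ) ≤ M := by exact_mod_cast hκ
  set L : ℕ := max H₀ 1 with hL
  have hL1 : (1 : ℝ) ≤ L := by exact_mod_cast le_max_right H₀ 1
  obtain ⟨E, h1, h2⟩ := winTupZ (fun w : κ → ℤ => ¬ Good w) hpos hτ hv (s := (M : ℝ) - c) (by linarith) hρ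
    ⟨(3 * L : ℝ) ^ M, fun T hT => by
      have hT1 : (1 : ℝ) ≤ T := by exact_mod_cast hT
      set H : ℕ := max T L with hH
      have hH0 : H₀ ≤ H := (le_max_left _ _).trans (le_max_right _ _)
      have hTH : T ≤ H := le_max_left _ _
      have hHT : (H : ℝ) ≤ L * T := by
        rcases max_cases T L with ⟨h3, -⟩ | ⟨h3, -⟩
        · rw [hH, h3]
          nlinarith
        · rw [hH, h3]
          nlinarith
      have hH1 : (1 : ℝ) ≤ H := by
        have : (T : ℝ) ≤ H := by exact_mod_cast hTH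
        linarith
      have hfin : {w : κ → ℤ | (∀ q, |w q| ≤ (H : ℤ)) ∧ ¬ Good w}.Finite := by
        apply (Set.Finite.pi (ι := κ) (t := fun _ => Set.Icc (-(H : ℤ)) (H : ℤ)) (fun _ => Set.finite_Icc _ _)).subset
        rintro t ⟨ht, -⟩ j _
        exact abs_le.1 (ht j)
      have hsub : {w : κ → ℤ | (∀ q, |w q| ≤ (T : ℤ)) ∧ ¬ Good w} ⊆ {w : κ → ℤ | (∀ q, |w q| ≤ (H : ℤ)) ∧ ¬ Good w} := by
        rintro w ⟨hw1, hw2⟩
        exact ⟨fun q => (hw1 q).trans (by exact_mod_cast hTH), hw2⟩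
      have hTH' : (T : ℝ) ≤ H := by exact_mod_cast hTH
      calc ({w : κ → ℤ | (∀ q, |w q| ≤ (T : ℤ)) ∧ ¬ Good w}.ncard : ℝ)
          ≤ ({w : κ → ℤ | (∀ q, |w q| ≤ (H : ℤ)) ∧ ¬ Good w}.ncard : ℝ) := by
            exact_mod_cast Set.ncard_le_ncard hsub hfin
        _ ≤ (H : ℝ) ^ (-δ) * (2 * H + 1 : ℝ) ^ M := h H hH0
        _ ≤ (T : ℝ) ^ (-c) * (3 * (L * T)) ^ M := by
            apply mul_le_mul _ (pow_le_pow_left₀ (by positivity) (by linarith) _) (by positivity) (by positivity)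
            calc (H : ℝ) ^ (-δ) ≤ (H : ℝ) ^ (-c) := Real.rpow_le_rpow_of_exponent_le hH1 (by linarith)
              _ ≤ (T : ℝ) ^ (-c) := by
                  rw [Real.rpow_neg (by linarith), Real.rpow_neg (by linarith)]
                  exact inv_anti₀ (by positivity) (Real.rpow_le_rpow (by linarith) hTH' hc0.le)
        _ = (3 * L : ℝ) ^ M * (T : ℝ) ^ ((M : ℝ) - c) := by
            rw [← mul_assoc, mul_pow, sub_eq_add_neg, Real.rpow_add (by linarith), Real.rpow_natCast]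
            ring⟩
  exact ⟨E, h1, fun x hx => (h2 x hx).imp fun i₀ hi i hi1 w hw => not_not.1 (hi i hi1 w hw)⟩

end Pool.Agent.X174
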