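import Pool.Agent.X174.WinVecV

/-! Tuples of rational integers among the tuples of algebraic integers of degree at most `1`. -/

set_option autoImplicit false

open Finset Filter Topology MeasureTheory

namespace Pool.Agent.X174

/-- the algebraic integers of degree at most `m` all of whose conjugates have absolute value at most `T` -/
def algInts (m T : ℕ) : Set ℂ :=
  {α | IsIntegral ℤ α ∧ (minpoly ℚ α).natDegree ≤ m ∧ ∀ z : ℂ, Polynomial.aeval z (minpoly ℚ α) = 0 → ‖z‖ ≤ T}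

lemma int_mem_algInts (a : ℤ) (T : ℕ) (ha : |a| ≤ T) : (a : ℂ) ∈ algInts 1 T := by
  have h1 : minpoly ℚ (a : ℂ) = Polynomial.X - Polynomial.C (a : ℚ) := by
    have := minpoly.eq_X_sub_C ℂ (a : ℚ)
    rwa [map_intCast] at this
  refine ⟨by simpa using isIntegral_algebraMap (R := ℤ) (A := ℂ) (x := a), ?_, fun z hz => ?_⟩
  · rw [h1, Polynomial.natDegree_X_sub_C]
  · rw [h1] at hz
    simp only [map_sub, Polynomial.aeval_X, Polynomial.aeval_C, map_intCast] at hz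
    rw [sub_eq_zero] at hz
    rw [hz, Complex.norm_intCast]
    exact_mod_cast ha

lemma exists_int_of_mem (α : ℂ) (T : ℕ) (h : α ∈ algInts 1 T) : ∃ a : ℤ, |a| ≤ T ∧ (a : ℂ) = α := by
  obtain ⟨h1, h2, h3⟩ := h
  have h4 : IsIntegral ℚ α := h1.tower_top
  have h5 : (minpoly ℚ α).natDegree = 1 := le_antisymm h2 (minpoly.natDegree_pos h4)
  obtain ⟨q, hq⟩ := minpoly.natDegree_eq_one_iff.1 h5
  have h6 : IsIntegral ℤ q := by
    rw [← hq] at h1
    exact (isIntegral_algebraMap_iff (algebraMap ℚ ℂ).injective).1 h1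
  obtain ⟨a, ha⟩ := IsIntegrallyClosed.isIntegral_iff.1 h6
  have h7 : (a : ℂ) = α := by
    rw [← hq, ← ha]
    simp
  refine ⟨a, ?_, h7⟩
  have h8 := h3 α (minpoly.aeval ℚ α)
  rw [← h7, Complex.norm_intCast] at h8
  exact_mod_cast h8

lemma ncard_algInts (T : ℕ) : (algInts 1 T).ncard ≤ 2 * T + 1 := by
  have h1 : algInts 1 T ⊆ (fun a : ℤ => (a : ℂ)) '' (Finset.Icc (-(T : ℤ)) T : Finset ℤ) := by
    intro α hα
    obtain ⟨a, ha, hα⟩ := exists_int_of_mem α T hα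
    refine ⟨a, ?_, hα⟩
    rw [Finset.coe_Icc]
    exact abs_le.1 ha
  calc (algInts 1 T).ncard ≤ ((fun a : ℤ => (a : ℂ)) '' (Finset.Icc (-(T : ℤ)) T : Finset ℤ)).ncard :=
        Set.ncard_le_ncard h1 ((Finset.finite_toSet _).image _)
    _ ≤ ((Finset.Icc (-(T : ℤ)) T : Finset ℤ) : Set ℤ).ncard := Set.ncard_image_le (Finset.finite_toSet _)
    _ = 2 * T + 1 := by
        rw [Set.ncard_coe_finset, Int.card_Icc]
        omega

/-- from the tuples of algebraic integers of degree at most `1` to the tuples of integers -/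
theorem intTuples {κ : Type} [Fintype κ] (Bad : (κ → ℂ) → Prop) {c C : ℝ}
    (h : ∀ T : ℕ, 1 ≤ T → (algInts 1 T).Finite ∧ ({α : κ → ℂ | (∀ i, α i ∈ algInts 1 T) ∧ Bad α}.ncard : ℝ) ≤
      C * (T : ℝ) ^ (-c) * ((algInts 1 T).ncard : ℝ) ^ (Fintype.card κ)) :
    ∃ C' : ℝ, ∀ T : ℕ, 1 ≤ T → ({a : κ → ℤ | (∀ j, |a j| ≤ T) ∧ Bad (fun j => (a j : ℂ))}.ncard : ℝ) ≤
      C' * (T : ℝ) ^ ((Fintype.card κ : ℝ) - c) := by
  refine ⟨|C| * 3 ^ (Fintype.card κ), fun T hT => ?_⟩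
  obtain ⟨h1, h2⟩ := h T hT
  have hT1 : (1 : ℝ) ≤ T := by exact_mod_cast hT
  have hTp : (0 : ℝ) < T := by linarith
  have hfin : {α : κ → ℂ | (∀ i, α i ∈ algInts 1 T) ∧ Bad α}.Finite := by
    apply (Set.Finite.pi (t := fun _ : κ => algInts 1 T) (fun _ => h1)).subset
    rintro α ⟨hα, -⟩ j _
    exact hα j
  have hinj : Function.Injective (fun (a : κ → ℤ) (j : κ) => (a j : ℂ)) := by
    intro a b hab
    funext j
    have h5 : (a j : ℂ) = (b j : ℂ) := congrFun hab j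
    exact_mod_cast h5
  have h3 : {a : κ → ℤ | (∀ j, |a j| ≤ T) ∧ Bad (fun j => (a j : ℂ))}.ncard ≤
      {α : κ → ℂ | (∀ i, α i ∈ algInts 1 T) ∧ Bad α}.ncard := by
    rw [← Set.ncard_image_of_injective _ hinj]
    apply Set.ncard_le_ncard _ hfin
    rintro _ ⟨a, ⟨ha1, ha2⟩, rfl⟩
    exact ⟨fun j => int_mem_algInts (a j) T (ha1 j), ha2⟩
  have h4 : ((algInts 1 T).ncard : ℝ) ≤ 3 * T := by
    have : ((algInts 1 T).ncard : ℝ) ≤ 2 * T + 1 := by exact_mod_cast ncard_algInts T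
    linarith
  calc ({a : κ → ℤ | (∀ j, |a j| ≤ T) ∧ Bad (fun j => (a j : ℂ))}.ncard : ℝ)
      ≤ ({α : κ → ℂ | (∀ i, α i ∈ algInts 1 T) ∧ Bad α}.ncard : ℝ) := by exact_mod_cast h3
    _ ≤ C * (T : ℝ) ^ (-c) * ((algInts 1 T).ncard : ℝ) ^ (Fintype.card κ) := h2
    _ ≤ |C| * (T : ℝ) ^ (-c) * (3 * T) ^ (Fintype.card κ) := by
        apply mul_le_mul (mul_le_mul_of_nonneg_right (le_abs_self C) (by positivity))
          (pow_le_pow_left₀ (Nat.cast_nonneg _) h4 _) (by positivity) (by positivity)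
    _ = |C| * 3 ^ (Fintype.card κ) * (T : ℝ) ^ ((Fintype.card κ : ℝ) - c) := by
        rw [mul_pow, sub_eq_add_neg, Real.rpow_add hTp, Real.rpow_natCast]
        ring

end Pool.Agent.X174
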