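import Pool.Agent.X174.TupInt
import Pool.Agent.X142.AZ.HurwShift

/-!
# Linear forms in monomials at simultaneous rational approximations
-/

set_option autoImplicit false

namespace Pool.Agent.X174.NearTup

open NumberField MeasureTheory
open Pool.Agent.X39.Near (Size degreeOf_map)

/-- an integral linear combination of different monomials as a polynomial -/
theorem lin_poly {σ κ : Type} [Fintype κ] [DecidableEq κ] (e : κ → σ →₀ ℕ) (he : Function.Injective e) (d : ℕ)
    (hd : ∀ i x, e i x ≤ d) (q : κ → ℤ) (hq : q ≠ 0) {M : ℝ} (hM : 0 ≤ M) (hqM : ∀ i, |(q i : ℝ)| ≤ M) :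
    (∑ i, MvPolynomial.monomial (e i) (q i)) ≠ 0 ∧ (∀ x, (∑ i, MvPolynomial.monomial (e i) (q i)).degreeOf x ≤ d) ∧
      ∀ s, |(((∑ i, MvPolynomial.monomial (e i) (q i)).coeff s : ℤ) : ℝ)| ≤ M := by
  classical
  have hc : ∀ s, (∑ i, MvPolynomial.monomial (e i) (q i)).coeff s = ∑ i, if e i = s then q i else 0 := by
    intro s
    rw [MvPolynomial.coeff_sum]
    exact Finset.sum_congr rfl fun i _ => MvPolynomial.coeff_monomial _ _ _
  have hc1 : ∀ i, (∑ i, MvPolynomial.monomial (e i) (q i)).coeff (e i) = q i := by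
    intro i
    rw [hc, Finset.sum_eq_single i]
    · rw [if_pos rfl]
    · intro k _ hk
      rw [if_neg fun h => hk (he h)]
    · intro h
      exact absurd (Finset.mem_univ _) h
  have hc2 : ∀ s, (∀ i, e i ≠ s) → (∑ i, MvPolynomial.monomial (e i) (q i)).coeff s = 0 := by
    intro s hs
    rw [hc]
    exact Finset.sum_eq_zero fun i _ => if_neg (hs i)
  refine ⟨?_, fun x => ?_, fun s => ?_⟩
  · obtain ⟨i, hi⟩ := Function.ne_iff.1 hq
    intro h
    apply hi
    rw [← hc1 i, h]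
    rfl
  · rw [MvPolynomial.degreeOf_le_iff]
    intro s hs
    rw [MvPolynomial.mem_support_iff] at hs
    by_contra hcon
    apply hs
    refine hc2 s fun i hi => hcon ?_
    rw [← hi]
    exact hd i x
  · by_cases h : ∃ i, e i = s
    · obtain ⟨i, rfl⟩ := h
      rw [hc1]
      exact hqM i
    · rw [hc2 s (not_exists.1 h)]
      simpa using hM

/-- the value of this polynomial -/
theorem aeval_lin {σ κ : Type} [Fintype κ] (e : κ → σ →₀ ℕ) (q : κ → ℤ) (y : σ → ℂ) :
    MvPolynomial.aeval y (∑ i, MvPolynomial.monomial (e i) (q i)) = ∑ i, (q i : ℂ) * (e i).prod fun x k => y x ^ k := by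
  rw [map_sum]
  refine Finset.sum_congr rfl fun i _ => ?_
  rw [MvPolynomial.aeval_monomial]
  simp

/-- integral polynomials at simultaneous rational approximations -/
theorem poly_of {J : Type} {n q g : ℕ} {f : Fin n → J → ℂ → ℂ} {u : Fin n → Fin q → Polynomial ℂ}
    {w : Fin n → Polynomial ℂ} {ξ : Fin g → ℂ} {x : Fin n → ℂ} {ω : ℝ} {m : ℕ} (hm : 1 ≤ m)
    (h : ∀ (F : Type) [Field F] [NumberField F],
        Module.finrank ℚ F ≤ m → ∀ (ι : F →+* ℂ) (d A : ℕ), ∃ B T₁ : ℝ, ∀ T : ℝ, T₁ ≤ T → ∀ t : Fin n → F,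
          (∀ j, Size F T (t j)) → (∀ j, ‖ι (t j) - x j‖ ≤ T ^ (-ω)) → ¬ DependentT f u w ξ F ι d A B T t) (d A : ℕ) :
    ∃ B T₁ : ℝ, ∀ T : ℝ, T₁ ≤ T → ∀ t : Fin n → ℚ, (∀ j, |((t j).num : ℝ)| ≤ T) → (∀ j, ((t j).den : ℝ) ≤ T) →
      (∀ j, ‖((t j : ℚ) : ℂ) - x j‖ ≤ T ^ (-ω)) → ∀ P : MvPolynomial (Fin n × J) ℤ, P ≠ 0 → (∀ y, P.degreeOf y ≤ d) →
        (∀ s, |((P.coeff s : ℤ) : ℝ)| ≤ T ^ A) →
        T ^ (-B) < ‖MvPolynomial.aeval (fun y : Fin n × J => f y.1 y.2 ((t y.1 : ℚ) : ℂ)) P‖ := by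
  obtain ⟨B, T₁, h1⟩ := h ℚ ((Module.finrank_self ℚ).le.trans hm) (algebraMap ℚ ℂ) d A
  refine ⟨B, max T₁ 0, fun T hT t hn hd hx P hP0 hPd hPc => ?_⟩
  by_contra hcon
  push Not at hcon
  refine h1 T ((le_max_left _ _).trans hT) t (fun j => size_rat (hn j) (hd j)) (fun j => ?_)
    (dependent_of_int ((le_max_right _ _).trans hT) P hP0 hPd (fun s => by simpa using hPc s) ?_)
  · simpa using hx j
  · simpa using hcon

/-- integral linear forms in `1` and monomials of the values at simultaneous rational approximations -/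
theorem lin_of {J : Type} [Fintype J] {n q g p : ℕ} {f : Fin n → J → ℂ → ℂ} {u : Fin n → Fin q → Polynomial ℂ}
    {w : Fin n → Polynomial ℂ} {ξ : Fin g → ℂ} {x : Fin n → ℂ} {ω : ℝ} {m : ℕ} (hm : 1 ≤ m)
    (h : ∀ (F : Type) [Field F] [NumberField F],
        Module.finrank ℚ F ≤ m → ∀ (ι : F →+* ℂ) (d A : ℕ), ∃ B T₁ : ℝ, ∀ T : ℝ, T₁ ≤ T → ∀ t : Fin n → F,
          (∀ j, Size F T (t j)) → (∀ j, ‖ι (t j) - x j‖ ≤ T ^ (-ω)) → ¬ DependentT f u w ξ F ι d A B T t)
    (M : Fin p → J → ℕ) (hM : Function.Injective M) (hM0 : ∀ i, M i ≠ 0) (A : ℕ) :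
    ∃ B T₁ : ℝ, ∀ T : ℝ, T₁ ≤ T → ∀ t : Fin n → ℚ, (∀ j, |((t j).num : ℝ)| ≤ T) → (∀ j, ((t j).den : ℝ) ≤ T) →
      (∀ j, ‖((t j : ℚ) : ℂ) - x j‖ ≤ T ^ (-ω)) → ∀ (b : ℤ) (c : Fin n → Fin p → ℤ), ¬ (b = 0 ∧ c = 0) →
        |(b : ℝ)| ≤ T ^ A → (∀ j i, |(c j i : ℝ)| ≤ T ^ A) →
        T ^ (-B) < ‖(b : ℂ) + ∑ j, ∑ i, (c j i : ℂ) * ∏ k, f j k ((t j : ℚ) : ℂ) ^ M i k‖ := by
  classical
  obtain ⟨B, T₁, h1⟩ := poly_of hm h (∑ i, ∑ k, M i k) A
  refine ⟨B, max T₁ 0, fun T hT t hn hd hx b c hbc hb hc => ?_⟩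
  have hT0 : 0 ≤ T := (le_max_right _ _).trans hT
  set e : Option (Fin n × Fin p) → (Fin n × J) →₀ ℕ := fun o =>
    Finsupp.equivFunOnFinite.symm (fun y => match o with
      | none => 0
      | some z => if y.1 = z.1 then M z.2 y.2 else 0) with he
  set cc : Option (Fin n × Fin p) → ℤ := fun o => match o with
      | none => b
      | some z => c z.1 z.2 with hcc
  have he1 : ∀ z y, e (some z) y = if y.1 = z.1 then M z.2 y.2 else 0 := fun z y => rfl
  have he0 : ∀ y, e none y = 0 := fun y => rfl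
  have hinj : Function.Injective e := by
    rintro (_ | z) (_ | z') hz
    · rfl
    · exfalso
      apply hM0 z'.2
      funext k
      have := DFunLike.congr_fun hz (z'.1, k)
      rw [he0, he1, if_pos rfl] at this
      exact this.symm
    · exfalso
      apply hM0 z.2
      funext k
      have := DFunLike.congr_fun hz (z.1, k)
      rw [he0, he1, if_pos rfl] at this
      exact this
    · by_cases h1 : z.1 = z'.1
      · congr 1
        refine Prod.ext h1 (hM ?_)
        funext k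
        have := DFunLike.congr_fun hz (z.1, k)
        rw [he1, he1, if_pos rfl, if_pos h1] at this
        exact this
      · exfalso
        apply hM0 z.2
        funext k
        have := DFunLike.congr_fun hz (z.1, k)
        rw [he1, he1, if_pos rfl, if_neg h1] at this
        exact this
  have hed : ∀ o y, e o y ≤ ∑ i, ∑ k, M i k := by
    rintro (_ | z) y
    · rw [he0]
      exact Nat.zero_le _
    · rw [he1]
      split_ifs
      · exact (Finset.single_le_sum (f := fun k => M z.2 k) (fun _ _ => Nat.zero_le _) (Finset.mem_univ y.2)).trans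
          (Finset.single_le_sum (f := fun i => ∑ k, M i k) (fun _ _ => Nat.zero_le _) (Finset.mem_univ z.2))
      · exact Nat.zero_le _
  have hcc0 : cc ≠ 0 := by
    intro h
    apply hbc
    refine ⟨congrFun h none, ?_⟩
    funext j i
    exact congrFun h (some (j, i))
  obtain ⟨g1, g2, g3⟩ := lin_poly e hinj _ hed cc hcc0 (M := T ^ A) (by positivity) (by
    rintro (_ | z)
    · exact hb
    · exact hc z.1 z.2)
  have h2 := h1 T ((le_max_left _ _).trans hT) t hn hd hx _ g1 g2 g3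
  refine h2.trans_le (le_of_eq ?_)
  rw [aeval_lin, Fintype.sum_option, Fintype.sum_prod_type]
  congr 2
  · have : e none = 0 := by
      ext y
      rfl
    rw [this]
    simp [hcc]
  · refine Finset.sum_congr rfl fun j _ => Finset.sum_congr rfl fun i _ => ?_
    congr 1
    rw [Finsupp.prod_fintype _ _ (fun _ => pow_zero _), Fintype.prod_prod_type, Finset.prod_eq_single j]
    · refine Finset.prod_congr rfl fun k _ => ?_
      rw [he1, if_pos rfl]
    · intro j' _ hj'
      refine Finset.prod_eq_one fun k _ => ?_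
      rw [he1, if_neg hj', pow_zero]
    · intro h
      exact absurd (Finset.mem_univ _) h

/-- the points which are not `0, -1, -2, …` form an open set -/
theorem isOpen_ne : IsOpen {z : ℂ | ∀ n : ℕ, z ≠ -n} := by
  have h1 : {z : ℂ | ∀ n : ℕ, z ≠ -n} = {z : ℂ | (Complex.Gamma z)⁻¹ ≠ 0} := by
    ext z
    simp only [Set.mem_ofPred_eq, ne_eq, inv_eq_zero, Complex.Gamma_eq_zero_iff, not_exists]
  rw [h1]
  exact isOpen_ne_fun Complex.differentiable_one_div_Gamma.continuous continuous_const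

/-- a shifted version -/
theorem isOpen_shift {κ : Type} [Finite κ] (α : κ → ℂ) : IsOpen {z : ℂ | ∀ (k : κ) (n : ℕ), z + α k ≠ -n} := by
  have h1 : {z : ℂ | ∀ (k : κ) (n : ℕ), z + α k ≠ -n} = ⋂ k, (fun z => z + α k) ⁻¹' {z : ℂ | ∀ n : ℕ, z ≠ -n} := by
    ext z
    simp
  rw [h1]
  exact isOpen_iInter_of_finite fun k => isOpen_ne.preimage (by fun_prop)

end Pool.Agent.X174.NearTup
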