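import Pool.Agent.Y124.StdC

/-!
# Local algebraic independence and inversion
-/

set_option autoImplicit false

open MvPolynomial Filter Topology

namespace Pool.Agent.X174

lemma eval_option {J : Type} (z : ℂ) (g : J → ℂ) (P : MvPolynomial (Option J) ℂ) :
    Polynomial.eval₂ (MvPolynomial.eval g) z (MvPolynomial.optionEquivLeft ℂ J P) =
      MvPolynomial.eval (fun o : Option J => o.elim z g) P := by
  have h : (Polynomial.eval₂RingHom (MvPolynomial.eval g) z).comp
      (MvPolynomial.optionEquivLeft ℂ J : MvPolynomial (Option J) ℂ →+* Polynomial (MvPolynomial J ℂ)) =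
      MvPolynomial.eval (fun o : Option J => o.elim z g) := by
    apply MvPolynomial.ringHom_ext
    · intro a
      simp [MvPolynomial.optionEquivLeft_C]
    · rintro (_ | i)
      · simp [MvPolynomial.optionEquivLeft_X_none]
      · simp [MvPolynomial.optionEquivLeft_X_some]
  exact RingHom.congr_fun h P

/-- algebraic independence of `z, f_j(1 / z)` near `t₀` from that of `z, f_j(z)` near `1 / t₀` -/
theorem locInd_inv {J : Type} {f : J → ℂ → ℂ} {t₀ : ℂ} (ht₀ : t₀ ≠ 0) (h : Pool.Agent.Y124.LocInd f t₀⁻¹) :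
    Pool.Agent.Y124.LocInd (fun j z => f j z⁻¹) t₀ := by
  classical
  intro P hP
  set p := MvPolynomial.optionEquivLeft ℂ J P with hp
  set N : ℕ := p.natDegree with hN
  set Q : MvPolynomial (Option J) ℂ := (MvPolynomial.optionEquivLeft ℂ J).symm (Polynomial.reflect N p) with hQ
  have hQ' : MvPolynomial.optionEquivLeft ℂ J Q = Polynomial.reflect N p := by
    rw [hQ, AlgEquiv.apply_symm_apply]
  have hinv : Tendsto (fun w : ℂ => w⁻¹) (𝓝 t₀⁻¹) (𝓝 t₀) := by
    have := (continuousAt_inv₀ (inv_ne_zero ht₀)).tendsto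
    rwa [inv_inv] at this
  have h0 : Q = 0 := by
    apply h
    have hne : ∀ᶠ w : ℂ in 𝓝 t₀⁻¹, w ≠ 0 := eventually_ne_nhds (inv_ne_zero ht₀)
    filter_upwards [hinv.eventually hP, hne] with w hw hw0
    have hz : w⁻¹ ≠ 0 := inv_ne_zero hw0
    let _ : Invertible (w⁻¹) := invertibleOfNonzero hz
    have h1 := Polynomial.eval₂_reflect_mul_pow (MvPolynomial.eval fun y => f y w) (w⁻¹) N p le_rfl
    rw [invOf_eq_inv, inv_inv, hp, eval_option, ← hp] at h1
    rw [← eval_option w (fun y => f y w) Q, hQ']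
    simp only [inv_inv] at hw
    rw [hw] at h1
    rcases mul_eq_zero.1 h1 with h2 | h2
    · exact h2
    · exact absurd h2 (pow_ne_zero _ hz)
  rw [h0, map_zero] at hQ'
  have h2 : p = 0 := Polynomial.reflect_eq_zero_iff.1 hQ'.symm
  rw [hp] at h2
  exact (map_eq_zero_iff _ (MvPolynomial.optionEquivLeft ℂ J).injective).1 h2

end Pool.Agent.X174
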