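import Pool.Agent.X174.TupInt

/-!
# A measure of algebraic independence at simultaneous approximations
-/

set_option autoImplicit false

namespace Pool.Agent.X174.NearTup

open NumberField MeasureTheory
open Pool.Agent.X39.Near (Size)

/-- the inequality `|P (y)| ≥ H ^ (-C)` for all nonzero integral polynomials of degree at most `k` in each variable and height
at most `H`, for all `H` between `T ^ (1 / k)` and `T ^ k` -/
def InequalityT {J : Type} (k : ℕ) (C T : ℝ) (y : J → ℂ) : Prop :=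
  ∀ (H : ℝ) (P : MvPolynomial J ℤ), T ^ (1 / (k : ℝ)) ≤ H → H ≤ T ^ (k : ℝ) → P ≠ 0 → (∀ x, P.degreeOf x ≤ k) →
    (∀ s, |((P.coeff s : ℤ) : ℝ)| ≤ H) → H ^ (-C) ≤ ‖MvPolynomial.aeval y P‖

/-- the inequality follows from the absence of relations -/
theorem ineq_of {J : Type} {n q g : ℕ} {f : Fin n → J → ℂ → ℂ} {u : Fin n → Fin q → Polynomial ℂ}
    {w : Fin n → Polynomial ℂ} {ξ : Fin g → ℂ} {x : Fin n → ℂ} {ω : ℝ} {F : Type} [Field F] [NumberField F]
    {ι : F →+* ℂ}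
    (h : ∀ d A : ℕ, ∃ B T₁ : ℝ, ∀ T : ℝ, T₁ ≤ T → ∀ t : Fin n → F, (∀ j, Size F T (t j)) →
        (∀ j, ‖ι (t j) - x j‖ ≤ T ^ (-ω)) → ¬ DependentT f u w ξ F ι d A B T t) (k : ℕ) (hk : 1 ≤ k) :
    ∃ C T₁ : ℝ, ∀ T : ℝ, T₁ ≤ T → ∀ t : Fin n → F, (∀ j, Size F T (t j)) →
      (∀ j, ‖ι (t j) - x j‖ ≤ T ^ (-ω)) → InequalityT k C T (fun y : Fin n × J => f y.1 y.2 (ι (t y.1))) := by
  obtain ⟨B, T₁, h⟩ := h k k
  have hk1 : (1 : ℝ) ≤ k := by exact_mod_cast hk
  have hkp : (0 : ℝ) < k := by linarith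
  refine ⟨k * |B|, max T₁ 1, fun T hT t ht1 ht2 H P' hH1 hH2 hP0 hPd hPc => ?_⟩
  have hT1 : 1 ≤ T := (le_max_right _ _).trans hT
  have hTp : 0 < T := by linarith
  by_contra hcon
  push Not at hcon
  refine h T ((le_max_left _ _).trans hT) t ht1 ht2 (dependent_of_int hTp.le P' hP0 hPd (fun s => (hPc s).trans ?_) ?_)
  · rw [Real.rpow_natCast] at hH2 ⊢
    exact hH2
  · refine hcon.le.trans ?_
    have hHp : 0 < T ^ (1 / (k : ℝ)) := by positivity
    calc H ^ (-(k * |B|)) ≤ (T ^ (1 / (k : ℝ))) ^ (-(k * |B|)) :=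
          Real.rpow_le_rpow_of_nonpos hHp hH1 (by nlinarith [abs_nonneg B])
      _ = T ^ (-|B|) := by
          rw [← Real.rpow_mul hTp.le]
          congr 1
          field_simp
      _ ≤ T ^ (-B) := Real.rpow_le_rpow_of_exponent_le hT1 (by linarith [le_abs_self B])

end Pool.Agent.X174.NearTup
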