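import Pool.Agent.Y854.GM.Win

/-! # Windows without elements of a sparse set of integers: from dyadic counts -/

set_option autoImplicit false

open Finset Filter

namespace Pool.Agent.X174

lemma fin_absZ (X : ℝ) : {k : ℤ | |(k : ℝ)| ≤ X}.Finite := by
  apply (Set.finite_Icc (-⌊X⌋) ⌊X⌋).subset
  intro k hk
  have h := abs_le.1 (show |(k : ℝ)| ≤ X from hk)
  rw [Set.mem_Icc]
  constructor
  · have : -k ≤ ⌊X⌋ := Int.le_floor.2 (by push_cast; linarith [h.1])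
    linarith
  · exact Int.le_floor.2 h.2

lemma card_absZ (N : ℕ) : (({k : ℤ | |(k : ℝ)| ≤ N}.ncard : ℕ) : ℝ) ≤ 2 * N + 1 := by
  have e : {k : ℤ | |(k : ℝ)| ≤ N} ⊆ ((Finset.Icc (-(N : ℤ)) N : Finset ℤ) : Set ℤ) := by
    intro k hk
    have h := abs_le.1 (show |(k : ℝ)| ≤ N from hk)
    rw [Finset.coe_Icc, Set.mem_Icc]
    exact ⟨by exact_mod_cast h.1, by exact_mod_cast h.2⟩
  have h1 := Set.ncard_le_ncard e (Finset.finite_toSet _)
  rw [Set.ncard_coe_finset, Int.card_Icc] at h1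
  have h2 : (((N : ℤ) + 1 - -(N : ℤ)).toNat : ℕ) = 2 * N + 1 := by omega
  rw [h2] at h1
  exact_mod_cast h1

/-- from dyadic counts to cumulative counts -/
theorem cumZ (S : Set ℤ) (s C : ℝ) (hs : 0 < s) (hC : 0 ≤ C) (K0 : ℕ)
    (h : ∀ K : ℕ, K0 ≤ K → ({k : ℤ | k ∈ S ∧ (K : ℝ) < |(k : ℝ)| ∧ |(k : ℝ)| ≤ 2 * K}.ncard : ℝ) ≤ C * (K : ℝ) ^ s) :
    ∃ C' : ℝ, ∀ X : ℝ, 1 ≤ X → {k : ℤ | k ∈ S ∧ |(k : ℝ)| ≤ X}.Finite ∧
      ({k : ℤ | k ∈ S ∧ |(k : ℝ)| ≤ X}.ncard : ℝ) ≤ C' * X ^ s := by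
  have h2s : (2 : ℝ) ^ (-s) < 1 := Real.rpow_lt_one_of_one_lt_of_neg (by norm_num) (by linarith)
  have h2p : (0 : ℝ) < (2 : ℝ) ^ (-s) := by positivity
  set D : ℝ := (C + 2) / (1 - (2 : ℝ) ^ (-s)) + (4 * K0 + 10) with hD
  have hD1 : (C + 2) / (1 - (2 : ℝ) ^ (-s)) ≤ D := by
    rw [hD]
    have : (0 : ℝ) ≤ K0 := Nat.cast_nonneg _
    linarith
  have hq : 0 ≤ (C + 2) / (1 - (2 : ℝ) ^ (-s)) := div_nonneg (by linarith) (by linarith)
  have hD2 : (4 * (K0 : ℝ) + 10) ≤ D := by rw [hD]; linarith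
  have hD0 : 0 ≤ D := hq.trans hD1
  have hDc : C + 2 + D * (2 : ℝ) ^ (-s) ≤ D := by
    rw [div_le_iff₀ (by linarith)] at hD1
    linarith
  have fin : ∀ X : ℝ, {k : ℤ | k ∈ S ∧ |(k : ℝ)| ≤ X}.Finite := fun X =>
    (fin_absZ X).subset fun k hk => hk.2
  have key : ∀ X : ℕ, ({k : ℤ | k ∈ S ∧ |(k : ℝ)| ≤ (X : ℝ)}.ncard : ℝ) ≤ D * (max 1 (X : ℝ)) ^ s := by
    intro X
    induction X using Nat.strong_induction_on with
    | _ X ih =>
      have hm1 : (1 : ℝ) ≤ max 1 (X : ℝ) := le_max_left _ _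
      have hm1s : 1 ≤ (max 1 (X : ℝ)) ^ s := Real.one_le_rpow hm1 hs.le
      rcases lt_or_ge X (2 * K0 + 2) with hsm | hbig
      · have h1 : ({k : ℤ | k ∈ S ∧ |(k : ℝ)| ≤ (X : ℝ)}.ncard : ℝ) ≤ 2 * X + 1 := by
          refine le_trans ?_ (card_absZ X)
          rw [Nat.cast_le]
          exact Set.ncard_le_ncard (fun k hk => hk.2) (fin_absZ _)
        have h2 : (X : ℝ) ≤ 2 * K0 + 2 := by exact_mod_cast hsm.le
        nlinarith
      · obtain ⟨K, hK⟩ : ∃ K, K = X / 2 := ⟨_, rfl⟩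
        have hKX : K < X := by omega
        have hK0 : K0 ≤ K := by omega
        have hK1 : 1 ≤ K := by omega
        have hKp : (1 : ℝ) ≤ K := by exact_mod_cast hK1
        have hXp : (1 : ℝ) ≤ X := by exact_mod_cast (by omega : 1 ≤ X)
        have hKX2 : (K : ℝ) ≤ X / 2 := by
          rw [le_div_iff₀ (by norm_num)]
          exact_mod_cast (by omega : K * 2 ≤ X)
        have hsub : {k : ℤ | k ∈ S ∧ |(k : ℝ)| ≤ (X : ℝ)} ⊆
            ({k : ℤ | k ∈ S ∧ |(k : ℝ)| ≤ (K : ℝ)} ∪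
              {k : ℤ | k ∈ S ∧ (K : ℝ) < |(k : ℝ)| ∧ |(k : ℝ)| ≤ 2 * K}) ∪ {(X : ℤ), -(X : ℤ)} := by
          rintro k ⟨hkS, hkX⟩
          by_cases h1 : |(k : ℝ)| ≤ K
          · exact Or.inl (Or.inl ⟨hkS, h1⟩)
          · push Not at h1
            by_cases h2 : |(k : ℝ)| ≤ 2 * K
            · exact Or.inl (Or.inr ⟨hkS, h1, h2⟩)
            · right
              push Not at h2
              have h3 : |k| ≤ (X : ℤ) := by exact_mod_cast hkX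
              have h4 : 2 * (K : ℤ) < |k| := by exact_mod_cast h2
              have h5 : |k| = (X : ℤ) := by omega
              rcases abs_choice k with h6 | h6
              · exact Or.inl (by rw [← h5, h6])
              · right
                rw [Set.mem_singleton_iff]
                omega
        have hfin1 := fin (K : ℝ)
        have hfin2 : {k : ℤ | k ∈ S ∧ (K : ℝ) < |(k : ℝ)| ∧ |(k : ℝ)| ≤ 2 * K}.Finite :=
          (fin_absZ (2 * K)).subset fun k hk => hk.2.2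
        have hfin3 : ({(X : ℤ), -(X : ℤ)} : Set ℤ).Finite := Set.toFinite _
        have h1 : {k : ℤ | k ∈ S ∧ |(k : ℝ)| ≤ (X : ℝ)}.ncard ≤
            {k : ℤ | k ∈ S ∧ |(k : ℝ)| ≤ (K : ℝ)}.ncard +
              {k : ℤ | k ∈ S ∧ (K : ℝ) < |(k : ℝ)| ∧ |(k : ℝ)| ≤ 2 * K}.ncard + 2 := by
          refine (Set.ncard_le_ncard hsub ((hfin1.union hfin2).union hfin3)).trans ?_
          refine (Set.ncard_union_le _ _).trans ?_
          exact Nat.add_le_add (Set.ncard_union_le _ _) (Set.ncard_insert_le _ _ |>.trans (by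
            rw [Set.ncard_singleton]))
        have h2 := ih K hKX
        rw [max_eq_right hKp] at h2
        rw [max_eq_right hXp]
        have h3 := h K hK0
        have h4 : (K : ℝ) ^ s ≤ (2 : ℝ) ^ (-s) * (X : ℝ) ^ s := by
          calc (K : ℝ) ^ s ≤ ((X : ℝ) / 2) ^ s := Real.rpow_le_rpow (by linarith) hKX2 hs.le
            _ = (2 : ℝ) ^ (-s) * (X : ℝ) ^ s := by
                rw [Real.div_rpow (by linarith) (by norm_num), Real.rpow_neg (by norm_num)]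
                ring
        have h5 : (K : ℝ) ^ s ≤ (X : ℝ) ^ s := Real.rpow_le_rpow (by linarith) (by linarith) hs.le
        have h6 : 1 ≤ (X : ℝ) ^ s := Real.one_le_rpow hXp hs.le
        have h7 : ({k : ℤ | k ∈ S ∧ |(k : ℝ)| ≤ (X : ℝ)}.ncard : ℝ) ≤
            ({k : ℤ | k ∈ S ∧ |(k : ℝ)| ≤ (K : ℝ)}.ncard : ℝ) +
              ({k : ℤ | k ∈ S ∧ (K : ℝ) < |(k : ℝ)| ∧ |(k : ℝ)| ≤ 2 * K}.ncard : ℝ) + 2 := by
          exact_mod_cast h1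
        calc ({k : ℤ | k ∈ S ∧ |(k : ℝ)| ≤ (X : ℝ)}.ncard : ℝ)
            ≤ D * (K : ℝ) ^ s + C * (K : ℝ) ^ s + 2 := by linarith
          _ ≤ D * ((2 : ℝ) ^ (-s) * (X : ℝ) ^ s) + C * (X : ℝ) ^ s + 2 * (X : ℝ) ^ s := by
              have e1 := mul_le_mul_of_nonneg_left h4 hD0
              have e2 := mul_le_mul_of_nonneg_left h5 hC
              linarith
          _ = (C + 2 + D * (2 : ℝ) ^ (-s)) * (X : ℝ) ^ s := by ring
          _ ≤ D * (X : ℝ) ^ s := mul_le_mul_of_nonneg_right hDc (by positivity)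
  refine ⟨D, fun X hX => ⟨fin X, ?_⟩⟩
  have hX0 : 0 ≤ X := by linarith
  have hfl : 1 ≤ ⌊X⌋₊ := Nat.le_floor (by exact_mod_cast hX)
  have h1 : {k : ℤ | k ∈ S ∧ |(k : ℝ)| ≤ X}.ncard ≤ {k : ℤ | k ∈ S ∧ |(k : ℝ)| ≤ (⌊X⌋₊ : ℝ)}.ncard := by
    apply Set.ncard_le_ncard _ (fin _)
    rintro k ⟨hk, hkX⟩
    refine ⟨hk, ?_⟩
    have h2 : k.natAbs ≤ ⌊X⌋₊ := by
      apply Nat.le_floor
      rw [Nat.cast_natAbs]
      push_cast
      exact hkX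
    have h3 : ((k.natAbs : ℕ) : ℝ) = |(k : ℝ)| := by
      rw [Nat.cast_natAbs]
      push_cast
      rfl
    rw [← h3]
    exact_mod_cast h2
  have h2 := key ⌊X⌋₊
  rw [max_eq_right (by exact_mod_cast hfl : (1 : ℝ) ≤ (⌊X⌋₊ : ℝ))] at h2
  calc ({k : ℤ | k ∈ S ∧ |(k : ℝ)| ≤ X}.ncard : ℝ) ≤ _ := by exact_mod_cast h1
    _ ≤ D * (⌊X⌋₊ : ℝ) ^ s := h2
    _ ≤ D * X ^ s := mul_le_mul_of_nonneg_left
        (Real.rpow_le_rpow (Nat.cast_nonneg _) (Nat.floor_le hX0) hs.le) hD0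

/-- windows around the members of a thin sequence without elements of a sparse set of integers -/
theorem winZ (S : Set ℤ) {v : ℕ → ℝ} {s τ θ : ℝ} (hpos : ∀ n, 1 ≤ v n) (hτ : 0 ≤ τ)
    (hv : Pool.Agent.Y854.GM.ExpLe v τ) (hs : 0 ≤ s) (hθ1 : θ < 1)
    (hS : ∃ C : ℝ, ∀ X : ℝ, 1 ≤ X →
      {t : ℤ | t ∈ S ∧ |(t : ℝ)| ≤ X}.Finite ∧ ({t : ℤ | t ∈ S ∧ |(t : ℝ)| ≤ X}.ncard : ℝ) ≤ C * X ^ s) :
    ∃ E : Set ℝ, dimH E ≤ ENNReal.ofReal ((s + τ) / (1 - θ)) ∧ ∀ α : ℝ, 0 < α → α ∉ E →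
      ∃ n0 : ℕ, ∀ n : ℕ, n0 ≤ n → ∀ t : ℤ, |(|(t : ℝ)|) - α * v n| ≤ (v n) ^ θ → t ∉ S := by
  obtain ⟨E, h2, h3⟩ := Pool.Agent.Y854.GM.windows S (fun k : ℤ => |(k : ℝ)|) hpos hτ hv hs hθ1
    (fun ε hε => by
      obtain ⟨M, hM⟩ := hS
      refine ⟨|M|, fun X hX => ⟨(hM X hX).1, (hM X hX).2.trans ?_⟩⟩
      have hX0 : (0 : ℝ) < X := by linarith
      calc M * X ^ s ≤ |M| * X ^ s := mul_le_mul_of_nonneg_right (le_abs_self M) (by positivity)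
        _ ≤ |M| * X ^ (s + ε) :=
            mul_le_mul_of_nonneg_left (Real.rpow_le_rpow_of_exponent_le hX (by linarith))
              (abs_nonneg M))
  refine ⟨E, h2, fun α hα hαE => ?_⟩
  obtain ⟨n₀, hn⟩ := h3 α hα hαE
  exact ⟨n₀, fun n hn1 t hw hS => absurd (hn n hn1 t hS) (not_lt.2 hw)⟩

end Pool.Agent.X174
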