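import Pool.Agent.X174.WinProj

/-!
# Exceptional sets of rational points depending on a constant: cubes in `ℝ^(n+1)`
-/

set_option autoImplicit false

namespace Pool.Agent.X174

/-- the passage to cubes -/
theorem winExc {n : ℕ} (Exc : ℝ → ℝ → Set (Projectivization ℚ (Fin (n + 1) → ℚ))) {s : ℝ} (hs : 0 ≤ s)
    (hanti : ∀ c c' B : ℝ, c ≤ c' → Exc c' B ⊆ Exc c B)
    (hheight : ∀ (c B B' : ℝ) (P : Projectivization ℚ (Fin (n + 1) → ℚ)), P ∈ Exc c B → P.mulHeight ≤ B' → P ∈ Exc c B')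
    (hE : ∀ c ε : ℝ, 0 < ε → ∃ C : ℝ, ∀ T : ℝ, 1 ≤ T → (Exc c T).Finite ∧ ((Exc c T).ncard : ℝ) ≤ C * T ^ (s + ε))
    {v : ℕ → ℝ} {τ ρ : ℝ} (hv : ∀ i, 1 ≤ v i) (hτ : 0 ≤ τ)
    (hv' : ∀ t : ℝ, τ < t → Summable (fun n : ℕ => (v n) ^ (-t))) (hρ : ρ < 1) :
    ∃ E : Set (Fin (n + 1) → ℝ), dimH E ≤ ENNReal.ofReal ((s + τ) / (1 - ρ)) ∧
      ∀ y : Fin (n + 1) → ℝ, y ∉ E → ∀ c : ℝ, ∃ i₀ : ℕ, ∀ i : ℕ, i₀ ≤ i → ∀ x : Fin (n + 1) → ℤ, Finset.univ.gcd x = 1 →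
        (∀ j, |(x j : ℝ) - y j * v i| ≤ (v i) ^ ρ) →
        ∀ (hx : (fun j => (x j : ℚ)) ≠ 0) (B : ℝ), Projectivization.mk ℚ (fun j => (x j : ℚ)) hx ∉ Exc c B := by
  have key : ∀ k : ℤ, ∃ E : Set (Fin (n + 1) → ℝ), dimH E ≤ ENNReal.ofReal ((s + τ) / (1 - ρ)) ∧
      ∀ y : Fin (n + 1) → ℝ, y ∉ E → ∃ i₀ : ℕ, ∀ i : ℕ, i₀ ≤ i → ∀ x : Fin (n + 1) → ℤ, Finset.univ.gcd x = 1 →
        (∀ j, |(x j : ℝ) - y j * v i| ≤ (v i) ^ ρ) →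
        ∀ (hx : (fun j => (x j : ℚ)) ≠ 0) (B : ℝ), Projectivization.mk ℚ (fun j => (x j : ℚ)) hx ∉ Exc k B := by
    intro k
    obtain ⟨E, h1, h2⟩ := winProj (fun T => Exc k T) hs (hE k) hv hτ hv' hρ
    refine ⟨E, h1, fun y hy => ?_⟩
    obtain ⟨R, hR, hRc⟩ := le_of_cube y
    obtain ⟨i₀, hi₀⟩ := h2 y hy R hR
    refine ⟨i₀, fun i hi x hg hcube hx B hmem => hi₀ i hi x hg hcube hx ?_⟩
    refine hheight k B _ _ hmem ?_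
    exact mulHeight_prim_le hg hx (hRc (fun j => (x j : ℝ)) (v i) ρ (hv i) hρ hcube)
  choose Es h1 h2 using key
  refine ⟨⋃ k, Es k, ?_, fun y hy c => ?_⟩
  · rw [dimH_iUnion]
    exact iSup_le h1
  · obtain ⟨i₀, hi₀⟩ := h2 ⌊c⌋ y (fun hm => hy (Set.mem_iUnion.2 ⟨_, hm⟩))
    exact ⟨i₀, fun i hi x hg hcube hx B hmem => hi₀ i hi x hg hcube hx B (hanti _ _ _ (Int.floor_le c) hmem)⟩

end Pool.Agent.X174
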