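import Pool.Agent.X174.WinRat

/-! Algebraic numbers whose irreducible integral polynomial has its coefficients in cubes around the members of a thin
sequence of points. -/

set_option autoImplicit false

open Finset Filter Topology MeasureTheory Polynomial

namespace Pool.Agent.X174

lemma prim_of_irreducible {P : ℤ[X]} (hP : Irreducible P) {t : ℂ} (ht : aeval t P = 0) : P.IsPrimitive := by
  apply hP.isPrimitive
  intro h0
  have h1 : P = C (P.coeff 0) := Polynomial.eq_C_of_natDegree_eq_zero h0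
  rw [h1] at ht
  simp at ht
  apply hP.ne_zero
  rw [h1, ht, C_0]

/-- an irreducible integral polynomial is determined up to the sign by a complex root -/
lemma eq_or_neg_of_root {P Q : ℤ[X]} (hP : Irreducible P) (hQ : Irreducible Q) {t : ℂ} (hPt : aeval t P = 0)
    (hQt : aeval t Q = 0) : P = Q ∨ P = -Q := by
  have hPp := prim_of_irreducible hP hPt
  have hQp := prim_of_irreducible hQ hQt
  have hPi : Irreducible (P.map (Int.castRingHom ℚ)) := (IsPrimitive.Int.irreducible_iff_irreducible_map_cast hPp).1 hP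
  have hQi : Irreducible (Q.map (Int.castRingHom ℚ)) := (IsPrimitive.Int.irreducible_iff_irreducible_map_cast hQp).1 hQ
  have hPt' : aeval t (P.map (Int.castRingHom ℚ)) = 0 := by
    rw [← hPt]
    simp [aeval_def, eval₂_map]
    congr 1
  have hQt' : aeval t (Q.map (Int.castRingHom ℚ)) = 0 := by
    rw [← hQt]
    simp [aeval_def, eval₂_map]
    congr 1
  have h1 : minpoly ℚ t ∣ P.map (Int.castRingHom ℚ) := minpoly.dvd ℚ t hPt'
  have h2 : minpoly ℚ t ∣ Q.map (Int.castRingHom ℚ) := minpoly.dvd ℚ t hQt'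
  have halg : IsIntegral ℚ t := by
    rw [← isAlgebraic_iff_isIntegral]
    exact ⟨_, hPi.ne_zero, hPt'⟩
  have hnu : ¬ IsUnit (minpoly ℚ t) := minpoly.not_isUnit ℚ t
  have h3 : Associated (minpoly ℚ t) (P.map (Int.castRingHom ℚ)) := (hPi.dvd_iff.1 h1).resolve_left hnu |>.symm
  have h4 : Associated (minpoly ℚ t) (Q.map (Int.castRingHom ℚ)) := (hQi.dvd_iff.1 h2).resolve_left hnu |>.symm
  have h5 : P.map (Int.castRingHom ℚ) ∣ Q.map (Int.castRingHom ℚ) := (h3.symm.trans h4).dvd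
  have h6 : P ∣ Q := (IsPrimitive.Int.dvd_iff_map_cast_dvd_map_cast P Q hPp).2 h5
  have h7 : Associated P Q := by
    rcases hQ.dvd_iff.1 h6 with h | h
    · exact absurd h hP.not_isUnit
    · exact h.symm
  obtain ⟨u, hu⟩ := h7
  obtain ⟨w, hw, hw'⟩ := Polynomial.isUnit_iff.1 u.isUnit
  rcases Int.isUnit_iff.1 hw with h | h
  · left
    rw [h, C_1] at hw'
    rw [← hw', mul_one] at hu
    exact hu
  · right
    rw [h] at hw'
    rw [← hw', C_neg, C_1] at hu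
    rw [← hu]
    ring

/-- the algebraic numbers in a thin set `E`: if at most `C X ^ s` elements of `E` are roots of nonzero integral polynomials
of degree at most `D` with coefficients at most `X`, then the cubes contain no irreducible polynomial with a root in `E` -/
theorem winPoly (D : ℕ) (E : Set ℂ) {s C : ℝ} (hs : 0 ≤ s)
    (hE : ∀ X : ℝ, 1 ≤ X → {t | t ∈ E ∧ ∃ P : ℤ[X], P ≠ 0 ∧ P.natDegree ≤ D ∧
      (∀ i, |((P.coeff i : ℤ) : ℝ)| ≤ X) ∧ aeval t P = 0}.Finite ∧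
      ({t | t ∈ E ∧ ∃ P : ℤ[X], P ≠ 0 ∧ P.natDegree ≤ D ∧
      (∀ i, |((P.coeff i : ℤ) : ℝ)| ≤ X) ∧ aeval t P = 0}.ncard : ℝ) ≤ C * X ^ s)
    {v : ℕ → ℝ} {τ ρ : ℝ} (hpos : ∀ n, 1 ≤ v n) (hτ : 0 ≤ τ) (hv : Pool.Agent.Y854.GM.ExpLe v τ) (hρ : ρ < 1) :
    ∃ F : Set (Fin (D + 1) → ℝ), dimH F ≤ ENNReal.ofReal ((s + τ) / (1 - ρ)) ∧ ∀ x : Fin (D + 1) → ℝ, x ∉ F →
      ∃ i₀ : ℕ, ∀ i : ℕ, i₀ ≤ i → ∀ P : ℤ[X], Irreducible P → P.natDegree ≤ D →
        (∀ j : Fin (D + 1), |((P.coeff j : ℤ) : ℝ) - x j * v i| ≤ (v i) ^ ρ) → ∀ t : ℂ, aeval t P = 0 → t ∉ E := by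
  classical
  set A : ℝ → Set ℂ := fun X => {t | t ∈ E ∧ ∃ P : ℤ[X], P ≠ 0 ∧ P.natDegree ≤ D ∧
      (∀ i, |((P.coeff i : ℤ) : ℝ)| ≤ X) ∧ aeval t P = 0} with hA
  -- a fixed irreducible polynomial for each number
  set P₀ : ℂ → ℤ[X] := fun t => if h : ∃ P : ℤ[X], Irreducible P ∧ aeval t P = 0 then h.choose else 0 with hP₀
  have hP₀' : ∀ (P : ℤ[X]) (t : ℂ), Irreducible P → aeval t P = 0 → P = P₀ t ∨ P = -P₀ t := by
    intro P t hP ht
    have h : ∃ P : ℤ[X], Irreducible P ∧ aeval t P = 0 := ⟨P, hP, ht⟩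
    have h1 : P₀ t = h.choose := by
      rw [hP₀]
      simp only [h, ↓reduceDIte]
    rw [h1]
    exact eq_or_neg_of_root hP h.choose_spec.1 ht h.choose_spec.2
  obtain ⟨F, hF1, hF2⟩ := winFam (κ := Fin (D + 1)) (Q := ℤ[X] × ℂ) (fun q j => ((q.1.coeff j : ℤ) : ℝ))
    (fun X => {q : ℤ[X] × ℂ | Irreducible q.1 ∧ q.1.natDegree ≤ D ∧ (∀ i, |((q.1.coeff i : ℤ) : ℝ)| ≤ X) ∧ q.2 ∈ E ∧
      aeval q.2 q.1 = 0}) (s := s) (C := 2 * C) hs
    (fun X hX => by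
      obtain ⟨h1, h2⟩ := hE X hX
      have hsub : {q : ℤ[X] × ℂ | Irreducible q.1 ∧ q.1.natDegree ≤ D ∧ (∀ i, |((q.1.coeff i : ℤ) : ℝ)| ≤ X) ∧
          q.2 ∈ E ∧ aeval q.2 q.1 = 0} ⊆
          (fun z : ℂ × Bool => ((if z.2 then P₀ z.1 else -P₀ z.1), z.1)) '' (A X ×ˢ (Set.univ : Set Bool)) := by
        rintro ⟨P, t⟩ ⟨h3, h4, h5, h6, h7⟩
        simp only at h3 h4 h5 h6 h7
        rcases hP₀' P t h3 h7 with h | h
        · exact ⟨(t, true), ⟨⟨h6, P, h3.ne_zero, h4, h5, h7⟩, Set.mem_univ _⟩, by simp [← h]⟩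
        · exact ⟨(t, false), ⟨⟨h6, P, h3.ne_zero, h4, h5, h7⟩, Set.mem_univ _⟩, by simp [← h]⟩
      have hfinA : (A X ×ˢ (Set.univ : Set Bool)).Finite := h1.prod Set.finite_univ
      refine ⟨(hfinA.image _).subset hsub, ?_⟩
      have h8 : ({q : ℤ[X] × ℂ | Irreducible q.1 ∧ q.1.natDegree ≤ D ∧ (∀ i, |((q.1.coeff i : ℤ) : ℝ)| ≤ X) ∧
          q.2 ∈ E ∧ aeval q.2 q.1 = 0}.ncard) ≤ 2 * (A X).ncard := by
        calc _ ≤ ((fun z : ℂ × Bool => ((if z.2 then P₀ z.1 else -P₀ z.1), z.1)) ''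
              (A X ×ˢ (Set.univ : Set Bool))).ncard := Set.ncard_le_ncard hsub (hfinA.image _)
          _ ≤ (A X ×ˢ (Set.univ : Set Bool)).ncard := Set.ncard_image_le hfinA
          _ = 2 * (A X).ncard := by
              rw [Set.ncard_prod, Set.ncard_univ, Nat.card_eq_fintype_card, Fintype.card_bool, mul_comm]
      calc _ ≤ ((2 * (A X).ncard : ℕ) : ℝ) := by exact_mod_cast h8
        _ = 2 * ((A X).ncard : ℝ) := by push_cast; ring
        _ ≤ 2 * (C * X ^ s) := by linarith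
        _ = 2 * C * X ^ s := by ring)
    hpos hτ hv hρ
  refine ⟨F, hF1, fun x hx => ?_⟩
  obtain ⟨R, hR, hRc⟩ := le_of_cube x
  obtain ⟨i₁, hi₁⟩ := hF2 x hx R hR
  refine ⟨i₁, fun i hi P hP hdeg hcube t ht htE => ?_⟩
  refine hi₁ i hi (P, t) hcube ⟨hP, hdeg, fun m => ?_, htE, ht⟩
  by_cases hm : m < D + 1
  · exact hRc (fun j : Fin (D + 1) => ((P.coeff j : ℤ) : ℝ)) (v i) ρ (hpos i) hρ hcube ⟨m, hm⟩
  · have h1 : P.coeff m = 0 := Polynomial.coeff_eq_zero_of_natDegree_lt (by omega)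
    simp only [h1, Int.cast_zero, abs_zero]
    have : (0 : ℝ) ≤ R := Nat.cast_nonneg R
    exact mul_nonneg this (by linarith [hpos i])

end Pool.Agent.X174
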