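import Pool.Agent.X174.WinVecV

/-!
# Properties of natural numbers with a bounded number of exceptions in `[N, κ N]`: windows in `ℝ`
-/

set_option autoImplicit false

open Filter

namespace Pool.Agent.X174

/-- a property `Good c k`, convex in the parameter `c > 1`, with at most `K` exceptions in `[N, κ N]`, where `K` depends
only on `κ` -/
theorem winRank (Good : ℝ → ℕ → Prop)
    (hconv : ∀ (c₁ c c₂ : ℝ) (k : ℕ), 1 < c₁ → c₁ ≤ c → c ≤ c₂ → Good c₁ k → Good c₂ k → Good c k)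
    (hB : ∀ κ : ℕ, ∃ K : ℕ, ∀ c : ℝ, 1 < c → ∃ N0 : ℕ, ∀ N : ℕ, N0 ≤ N →
      {k : ℕ | (N ≤ k ∧ k ≤ κ * N) ∧ ¬ Good c k}.ncard ≤ K)
    {v : ℕ → ℝ} {τ ρ : ℝ} (hpos : ∀ n, 1 ≤ v n) (hτ : 0 ≤ τ) (hv : Pool.Agent.Y854.GM.ExpLe v τ) (hρ : ρ < 1) :
    ∃ E : Set ℝ, dimH E ≤ ENNReal.ofReal (τ / (1 - ρ)) ∧
      ∀ α : ℝ, 0 < α → α ∉ E → ∀ c : ℝ, 1 < c → ∃ i₀ : ℕ, ∀ i : ℕ, i₀ ≤ i → ∀ k : ℕ,
        |(k : ℝ) - α * v i| ≤ (v i) ^ ρ → Good c k := by
  classical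
  have hvp : ∀ n, 0 < v n := fun n => lt_of_lt_of_le one_pos (hpos n)
  have htv : Tendsto v atTop atTop := Pool.Agent.Y854.GM.tendsto_of_expLe hvp hτ hv
  have key : ∀ z : ℕ × ℕ, ∃ E : Set (Fin 1 → ℝ), dimH E ≤ ENNReal.ofReal (τ / (1 - ρ)) ∧
      (1 ≤ z.1 → ∀ x : Fin 1 → ℝ, x ∉ E → ∃ i₀ : ℕ, ∀ i : ℕ, i₀ ≤ i → ∀ k : ℕ,
        |(k : ℝ) - x 0 * v i| ≤ (v i) ^ ρ →
        (⌊v i / (2 * z.1)⌋₊ ≤ k ∧ k ≤ (4 * z.1 * (z.1 + 1)) * ⌊v i / (2 * z.1)⌋₊) →
          (Good (1 + 1 / ((z.2 : ℝ) + 1)) k ∧ Good ((z.2 : ℝ) + 2) k)) := by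
    rintro ⟨R, c⟩
    dsimp only
    by_cases hR : 1 ≤ R
    swap
    · exact ⟨∅, by simp, fun h => absurd h hR⟩
    have hc0 : (0 : ℝ) ≤ c := Nat.cast_nonneg c
    have hc1 : (1 : ℝ) < 1 + 1 / ((c : ℝ) + 1) := by
      have : 0 < 1 / ((c : ℝ) + 1) := by positivity
      linarith
    have hc2 : (1 : ℝ) < (c : ℝ) + 2 := by linarith
    obtain ⟨K, hK⟩ := hB (4 * R * (R + 1))
    obtain ⟨N0, hN0⟩ := hK _ hc1
    obtain ⟨N1, hN1⟩ := hK _ hc2
    have hR1 : (1 : ℝ) ≤ R := by exact_mod_cast hR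
    have hRp : (0 : ℝ) < R := by linarith
    -- large `i`
    obtain ⟨i₁, hi₁⟩ := (htv.eventually_ge_atTop (2 * R * (max N0 N1 : ℕ))).exists_forall_of_atTop
    obtain ⟨E, h1, h2⟩ := windowsVecV (κ := Fin 1) (T := ℕ) (s := 0)
      (fun i => {k : ℕ | (⌊v i / (2 * R)⌋₊ ≤ k ∧ k ≤ (4 * R * (R + 1)) * ⌊v i / (2 * R)⌋₊) ∧
          ¬ Good (1 + 1 / ((c : ℝ) + 1)) k} ∪
        {k : ℕ | (⌊v i / (2 * R)⌋₊ ≤ k ∧ k ≤ (4 * R * (R + 1)) * ⌊v i / (2 * R)⌋₊) ∧
          ¬ Good ((c : ℝ) + 2) k}) (fun _ k _ => (k : ℝ)) hpos hτ hv le_rfl hρ (by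
        intro ε hε
        refine ⟨(2 * K : ℕ), i₁, fun i hi => ⟨?_, ?_⟩⟩
        · refine (Set.finite_Iic (4 * R * (R + 1) * ⌊v i / (2 * R)⌋₊)).subset fun k hk => ?_
          rcases hk with hk | hk
          · exact hk.1.2
          · exact hk.1.2
        · have h3 : max N0 N1 ≤ ⌊v i / (2 * R)⌋₊ := by
            apply Nat.le_floor
            rw [le_div_iff₀ (by positivity)]
            have := hi₁ i hi
            linarith
          have h4 := hN0 _ ((le_max_left _ _).trans h3)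
          have h5 := hN1 _ ((le_max_right _ _).trans h3)
          have h6 := (Set.ncard_union_le {k : ℕ | (⌊v i / (2 * R)⌋₊ ≤ k ∧ k ≤ (4 * R * (R + 1)) * ⌊v i / (2 * R)⌋₊) ∧
              ¬ Good (1 + 1 / ((c : ℝ) + 1)) k}
            {k : ℕ | (⌊v i / (2 * R)⌋₊ ≤ k ∧ k ≤ (4 * R * (R + 1)) * ⌊v i / (2 * R)⌋₊) ∧
              ¬ Good ((c : ℝ) + 2) k}).trans (add_le_add h4 h5)
          have h7 : K + K = 2 * K := by ring
          rw [h7] at h6
          calc ((_ : ℕ) : ℝ) ≤ ((2 * K : ℕ) : ℝ) := by exact_mod_cast h6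
            _ = ((2 * K : ℕ) : ℝ) * 1 := (mul_one _).symm
            _ ≤ ((2 * K : ℕ) : ℝ) * (v i) ^ ((0 : ℝ) + ε) := by
                apply mul_le_mul_of_nonneg_left _ (Nat.cast_nonneg _)
                exact Real.one_le_rpow (hpos i) (by linarith))
    rw [zero_add] at h1
    refine ⟨E, h1, fun _ x hx => ?_⟩
    obtain ⟨i₀, hi⟩ := h2 x hx
    refine ⟨i₀, fun i hi1 k hk hkN => ?_⟩
    have h3 : ∀ k' ∈ _, ¬ ∀ j : Fin 1, |((k' : ℕ) : ℝ) - x j * v i| ≤ (v i) ^ ρ := hi i hi1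
    have h4 : ∀ j : Fin 1, |((k : ℕ) : ℝ) - x j * v i| ≤ (v i) ^ ρ := by
      intro j
      rw [show j = 0 from Subsingleton.elim _ _]
      exact hk
    constructor
    · by_contra hcon
      exact h3 k (Or.inl ⟨hkN, hcon⟩) h4
    · by_contra hcon
      exact h3 k (Or.inr ⟨hkN, hcon⟩) h4
  choose Es h1 h2 using key
  set ι : ℝ → Fin 1 → ℝ := fun α _ => α with hι
  have hiso : Isometry ι := by
    apply Isometry.of_dist_eq
    intro a b
    exact dist_pi_const a b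
  refine ⟨ι ⁻¹' ⋃ z, Es z, ?_, fun α hα0 hα c hc => ?_⟩
  · calc dimH (ι ⁻¹' ⋃ z, Es z) = dimH (ι '' (ι ⁻¹' ⋃ z, Es z)) := (hiso.dimH_image _).symm
      _ ≤ dimH (⋃ z, Es z) := dimH_mono (Set.image_preimage_subset _ _)
      _ = ⨆ z, dimH (Es z) := dimH_iUnion _
      _ ≤ _ := iSup_le h1
  -- the parameters
  obtain ⟨R, hR⟩ := exists_nat_ge (α + 1 / α + 1)
  have hα1 : 0 < 1 / α := by positivity
  have hR1 : (1 : ℝ) ≤ R := by linarith
  have hRn : 1 ≤ R := by exact_mod_cast hR1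
  have hRp : (0 : ℝ) < R := by linarith
  have hRu : α ≤ R := by linarith
  have hRl : 1 / (R : ℝ) ≤ α := by
    have h7 : 1 / α ≤ R := by linarith
    rw [div_le_iff₀ hRp]
    rw [div_le_iff₀ hα0] at h7
    linarith
  obtain ⟨m, hm⟩ := exists_nat_ge (max c (1 / (c - 1)))
  have hmc : c ≤ (m : ℝ) + 2 := by linarith [le_max_left c (1 / (c - 1))]
  have hcm : 1 + 1 / ((m : ℝ) + 1) ≤ c := by
    have h3 : 1 / (c - 1) ≤ (m : ℝ) + 1 := by linarith [le_max_right c (1 / (c - 1))]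
    have h4 : 0 < c - 1 := by linarith
    have h5 : 0 < (m : ℝ) + 1 := by positivity
    rw [div_le_iff₀ h4] at h3
    have h6 : 1 / ((m : ℝ) + 1) ≤ c - 1 := by
      rw [div_le_iff₀ h5]
      linarith
    linarith
  have hm1 : (1 : ℝ) < 1 + 1 / ((m : ℝ) + 1) := by
    have : 0 < 1 / ((m : ℝ) + 1) := by positivity
    linarith
  obtain ⟨i₀, hi₀⟩ := h2 (R, m) hRn (ι α) (fun hmm => hα (Set.mem_iUnion.2 ⟨_, hmm⟩))
  dsimp only at hi₀
  -- large `i`: `v_i ^ ρ ≤ v_i / (2 R)` and `4 R ≤ v_i`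
  have ht : Tendsto (fun i => (v i) ^ (1 - ρ)) atTop atTop := (tendsto_rpow_atTop (by linarith)).comp htv
  obtain ⟨i₁, hi₁⟩ := (ht.eventually_ge_atTop (2 * (R : ℝ))).exists_forall_of_atTop
  obtain ⟨i₂, hi₂⟩ := (htv.eventually_ge_atTop (4 * (R : ℝ))).exists_forall_of_atTop
  refine ⟨max i₀ (max i₁ i₂), fun i hi k hk => ?_⟩
  have hia : i₀ ≤ i := (le_max_left _ _).trans hi
  have hib : i₁ ≤ i := ((le_max_left _ _).trans (le_max_right _ _)).trans hi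
  have hic : i₂ ≤ i := ((le_max_right _ _).trans (le_max_right _ _)).trans hi
  have hvi := hpos i
  have hvip := hvp i
  have h3 : (v i) ^ ρ ≤ v i / (2 * R) := by
    rw [le_div_iff₀ (by positivity)]
    have h4 := hi₁ i hib
    calc (v i) ^ ρ * (2 * R) ≤ (v i) ^ ρ * (v i) ^ (1 - ρ) := mul_le_mul_of_nonneg_left h4 (by positivity)
      _ = v i := by rw [← Real.rpow_add hvip]; simp
  have h4R := hi₂ i hic
  set N : ℕ := ⌊v i / (2 * R)⌋₊ with hN
  have hNle : (N : ℝ) ≤ v i / (2 * R) := Nat.floor_le (by positivity)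
  have hNge : v i ≤ 4 * R * N := by
    have h5 : v i / (2 * R) < N + 1 := Nat.lt_floor_add_one _
    rw [div_lt_iff₀ (by positivity)] at h5
    have h6 : (1 : ℝ) ≤ N := by
      have : 1 ≤ N := Nat.le_floor (by
        rw [Nat.cast_one, le_div_iff₀ (by positivity)]
        linarith)
      exact_mod_cast this
    nlinarith
  have hboth := hi₀ i hia k hk ⟨by
    have h5 := (abs_le.1 hk).1
    have h6 : v i / R ≤ α * v i := by
      have := mul_le_mul_of_nonneg_right hRl hvip.le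
      calc v i / R = 1 / R * v i := by ring
        _ ≤ α * v i := this
    have h7 : v i / R = v i / (2 * R) + v i / (2 * R) := by
      field_simp
      ring
    have h8 : (N : ℝ) ≤ k := by linarith
    exact (Nat.cast_le (α := ℝ)).1 h8, by
    have h5 := (abs_le.1 hk).2
    have h6 : α * v i ≤ R * v i := mul_le_mul_of_nonneg_right hRu hvip.le
    have h7 : v i / (2 * R) ≤ v i := by
      rw [div_le_iff₀ (by positivity)]
      nlinarith
    have h8 : (k : ℝ) ≤ (R + 1) * v i := by linarith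
    have h9 : (k : ℝ) ≤ ((4 * R * (R + 1) * N : ℕ) : ℝ) := by
      push_cast
      calc (k : ℝ) ≤ (R + 1) * v i := h8
        _ ≤ (R + 1) * (4 * R * N) := mul_le_mul_of_nonneg_left hNge (by positivity)
        _ = _ := by ring
    exact (Nat.cast_le (α := ℝ)).1 h9⟩
  exact hconv _ c _ k hm1 hcm hmc hboth.1 hboth.2

/-- a set of real numbers of dimension zero does not contain all positive numbers -/
theorem exists_pos_notMem_real {E : Set ℝ} (h : dimH E ≤ ENNReal.ofReal 0) : ∃ α : ℝ, 0 < α ∧ α ∉ E := by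
  by_contra hcon
  push Not at hcon
  have h1 : Set.Ioi (0 : ℝ) ⊆ E := fun x hx => hcon x hx
  have h3 : (interior (Set.Ioi (0 : ℝ))).Nonempty := by
    rw [interior_Ioi]
    exact ⟨1, by simp⟩
  have h4 := Real.dimH_of_nonempty_interior h3
  have h5 := (dimH_mono h1).trans h
  rw [h4, ENNReal.ofReal_zero] at h5
  simp at h5

end Pool.Agent.X174
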