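import Pool.Agent.X174.WinRat

/-! Windows of size `c v ^ ρ` for all constants `c`. -/

set_option autoImplicit false

open Finset Filter Topology MeasureTheory

namespace Pool.Agent.X174

open scoped ENNReal NNReal

/-- `winFam` with windows of size `c v ^ ρ`, for all `c` simultaneously -/
theorem winFamC {κ : Type} [Fintype κ] {Q : Type} (h : Q → κ → ℝ) (Exc : ℝ → Set Q) {s C : ℝ} (hs : 0 ≤ s)
    (hE : ∀ T : ℝ, 1 ≤ T → (Exc T).Finite ∧ ((Exc T).ncard : ℝ) ≤ C * T ^ s) {v : ℕ → ℝ} {τ ρ : ℝ}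
    (hpos : ∀ n, 1 ≤ v n) (hτ : 0 ≤ τ) (hv : Pool.Agent.Y854.GM.ExpLe v τ) (hρ : ρ < 1) :
    ∃ E : Set (κ → ℝ), dimH E ≤ ENNReal.ofReal ((s + τ) / (1 - ρ)) ∧ ∀ α : κ → ℝ, α ∉ E →
      ∀ R : ℕ, 1 ≤ R → ∀ c : ℝ, ∃ i₀ : ℕ, ∀ i : ℕ, i₀ ≤ i → ∀ q : Q,
        (∀ j, |h q j - α j * v i| ≤ c * (v i) ^ ρ) → q ∉ Exc (R * v i) := by
  have hvp : ∀ n, 0 < v n := fun n => lt_of_lt_of_le one_pos (hpos n)
  have h1ρ : 0 < 1 - ρ := by linarith
  -- exponents decreasing to `ρ`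
  set θ : ℕ → ℝ := fun m => ρ + (1 - ρ) / (m + 2) with hθ
  have hθρ : ∀ m, ρ < θ m := fun m => by
    rw [hθ]
    have : 0 < (1 - ρ) / ((m : ℝ) + 2) := by positivity
    simp only
    linarith
  have hθ1 : ∀ m, θ m < 1 := fun m => by
    rw [hθ]
    simp only
    have h1 : (1 - ρ) / ((m : ℝ) + 2) < 1 - ρ := by
      rw [div_lt_iff₀ (by positivity)]
      have : (0 : ℝ) ≤ m := Nat.cast_nonneg m
      nlinarith
    linarith
  have hθt : Tendsto θ atTop (𝓝 ρ) := by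
    rw [hθ]
    have h1 : Tendsto (fun m : ℕ => (1 - ρ) / ((m : ℝ) + 2)) atTop (𝓝 0) := by
      apply Tendsto.div_atTop tendsto_const_nhds
      exact tendsto_atTop_add_const_right _ _ tendsto_natCast_atTop_atTop
    have h2 := h1.const_add ρ
    rwa [add_zero] at h2
  have key : ∀ m : ℕ, ∃ E : Set (κ → ℝ), dimH E ≤ ENNReal.ofReal ((s + τ) / (1 - θ m)) ∧ ∀ α : κ → ℝ, α ∉ E →
      ∀ R : ℕ, 1 ≤ R → ∃ i₀ : ℕ, ∀ i : ℕ, i₀ ≤ i → ∀ q : Q,
        (∀ j, |h q j - α j * v i| ≤ (v i) ^ (θ m)) → q ∉ Exc (R * v i) := fun m =>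
    winFam h Exc hs hE hpos hτ hv (hθ1 m)
  choose Es h1 h2 using key
  refine ⟨⋂ m, Es m, ?_, fun α hα R hR c => ?_⟩
  · have h3 : ∀ m, dimH (⋂ m, Es m) ≤ ENNReal.ofReal ((s + τ) / (1 - θ m)) := fun m =>
      (dimH_mono (Set.iInter_subset _ m)).trans (h1 m)
    have h4 : Tendsto (fun m => ENNReal.ofReal ((s + τ) / (1 - θ m))) atTop (𝓝 (ENNReal.ofReal ((s + τ) / (1 - ρ)))) := by
      apply ENNReal.tendsto_ofReal
      exact tendsto_const_nhds.div (tendsto_const_nhds.sub hθt) h1ρ.ne'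
    exact ge_of_tendsto' h4 h3
  · obtain ⟨m, hm⟩ : ∃ m, α ∉ Es m := by
      by_contra hcon
      push Not at hcon
      exact hα (Set.mem_iInter.2 hcon)
    obtain ⟨i₀, hi₀⟩ := h2 m α hm R hR
    have htv : Tendsto v atTop atTop := Pool.Agent.Y854.GM.tendsto_of_expLe hvp hτ hv
    have h5 : Tendsto (fun n => (v n) ^ (θ m - ρ)) atTop atTop :=
      (tendsto_rpow_atTop (by linarith [hθρ m])).comp htv
    obtain ⟨i₁, hi₁⟩ := (h5.eventually_ge_atTop c).exists_forall_of_atTop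
    refine ⟨max i₀ i₁, fun i hi q hq => hi₀ i ((le_max_left _ _).trans hi) q fun j => (hq j).trans ?_⟩
    calc c * (v i) ^ ρ ≤ (v i) ^ (θ m - ρ) * (v i) ^ ρ :=
          mul_le_mul_of_nonneg_right (hi₁ i ((le_max_right _ _).trans hi)) (Real.rpow_nonneg (hvp i).le _)
      _ = (v i) ^ (θ m) := by
          rw [← Real.rpow_add (hvp i)]
          congr 1
          ring

/-- the elements of a larger cube are at most `R v_i` -/
lemma le_of_cubeC {κ : Type} [Fintype κ] (α : κ → ℝ) (c : ℝ) : ∃ R : ℕ, 1 ≤ R ∧ ∀ (x : κ → ℝ) (w ρ : ℝ), 1 ≤ w → ρ < 1 →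
    (∀ j, |x j - α j * w| ≤ c * w ^ ρ) → ∀ j, |x j| ≤ R * w := by
  obtain ⟨R, hR⟩ := exists_nat_ge (∑ j, |α j| + |c|)
  refine ⟨R + 1, by omega, fun x w ρ hw hρ hx j => ?_⟩
  have hwp : 0 < w := by linarith
  have h1 : |α j| + |c| ≤ R := (add_le_add_left
    (Finset.single_le_sum (f := fun j => |α j|) (fun i _ => abs_nonneg _) (Finset.mem_univ j)) _).trans hR
  have h2 : w ^ ρ ≤ w := by
    calc w ^ ρ ≤ w ^ (1 : ℝ) := Real.rpow_le_rpow_of_exponent_le hw hρ.le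
      _ = w := Real.rpow_one _
  have h2' : c * w ^ ρ ≤ |c| * w := by
    calc c * w ^ ρ ≤ |c| * w ^ ρ := mul_le_mul_of_nonneg_right (le_abs_self c) (by positivity)
      _ ≤ |c| * w := mul_le_mul_of_nonneg_left h2 (abs_nonneg c)
  have h3 : |x j| ≤ |x j - α j * w| + |α j * w| := by
    have := abs_add_le (x j - α j * w) (α j * w)
    rwa [sub_add_cancel] at this
  have h4 : |α j * w| = |α j| * w := by
    rw [abs_mul, abs_of_pos hwp]
  have h5 := hx j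
  push_cast
  nlinarith

end Pool.Agent.X174
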