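import Pool.Agent.X61.RI.Szp
import Pool.Agent.X174.WinQ
import Pool.Agent.X174.WinVec

/-!
# Values of rational functions with rational poles: the primes in the denominator and windows
-/

set_option autoImplicit false

namespace Pool.Agent.X174.WinCurve

open NumberField IsDedekindDomain Finset Polynomial
open Pool.Agent.X61.RI
open Pool.Agent.H691R3 Pool.Agent.TH876.Loc Pool.Agent.Y911.RR
open Pool.Agent.Y911.US (ht ht_nonneg ht_mk)

variable {K : Type} [Field K] [NumberField K]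

/-- the product of the norms of the primes in the denominator of `x` -/
noncomputable def den (x : K) : ℝ := nn (pole_finite x).toFinset

lemma den_pos (x : K) : 0 < den x := nn_pos _

lemma fin_count {Q : Type} (S : Set Q) (B : ℝ) (h : ∀ F : Finset Q, (↑F ⊆ S) → (F.card : ℝ) ≤ B) :
    S.Finite ∧ (S.ncard : ℝ) ≤ B := by
  have hfin : S.Finite := by
    by_contra hinf
    obtain ⟨F, hF, hc⟩ := Set.Infinite.exists_subset_card_eq hinf (⌈|B|⌉₊ + 1)
    have h1 := h F hF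
    rw [hc] at h1
    push_cast at h1
    have h2 := Nat.le_ceil |B|
    have h3 := le_abs_self B
    linarith
  refine ⟨hfin, ?_⟩
  rw [Set.ncard_eq_toFinset_card _ hfin]
  exact h _ (by simp)

/-- no members of a set in windows -/
theorem win1 {Q : Type} (S : Set Q) (h : Q → ℝ) {s : ℝ} (hs : 0 ≤ s)
    (hE : ∀ ε : ℝ, 0 < ε → ∃ C : ℝ, ∀ T : ℝ, 1 ≤ T → {x : Q | x ∈ S ∧ h x ≤ T}.Finite ∧
      ({x : Q | x ∈ S ∧ h x ≤ T}.ncard : ℝ) ≤ C * T ^ (s + ε)) {v : ℕ → ℝ} {τ ρ : ℝ}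
    (hpos : ∀ n, 1 ≤ v n) (hτ : 0 ≤ τ) (hv : Pool.Agent.Y854.GM.ExpLe v τ) (hρ : ρ < 1) :
    ∃ E : Set ℝ, dimH E ≤ ENNReal.ofReal ((s + τ) / (1 - ρ)) ∧ ∀ α : ℝ, α ∉ E →
      ∃ i₀ : ℕ, ∀ i : ℕ, i₀ ≤ i → ∀ x ∈ S, (v i) ^ ρ < |h x - α * v i| := by
  obtain ⟨E, h1, h3⟩ := winFamE (κ := Unit) (Q := Q) (fun x _ => h x)
    (fun T => {x : Q | x ∈ S ∧ h x ≤ T}) hs hE hpos hτ hv hρ
  have hiso : Isometry (fun (x : ℝ) (_ : Unit) => x) := by
    apply Isometry.of_dist_eq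
    intro x y
    simp [dist_pi_def, Finset.sup_singleton]
  refine ⟨{x : ℝ | (fun _ : Unit => x) ∈ E}, ?_, fun α hα => ?_⟩
  · refine le_trans ?_ h1
    rw [← hiso.dimH_image]
    apply dimH_mono
    rintro _ ⟨x, hx, rfl⟩
    exact hx
  obtain ⟨R, hR, hRc⟩ := le_of_cube (fun _ : Unit => α)
  obtain ⟨i₀, hi₀⟩ := h3 (fun _ => α) hα R hR
  refine ⟨i₀, fun i hi x hx => ?_⟩
  by_contra hcon
  rw [not_lt] at hcon
  exact hi₀ i hi x (fun _ => hcon) ⟨hx, (le_abs_self _).trans (hRc (fun _ : Unit => h x) (v i) ρ (hpos i) hρ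
    (fun _ => hcon) ())⟩

section
variable {q : ℕ} {P Q : K[X]} {c : Fin q → Option K}

omit [NumberField K] in
lemma off_of (hc : ∀ l, IsPole P Q (c l)) {t : K} (ht0 : Q.eval t ≠ 0) : ∀ l, c l ≠ some t := by
  intro l hl
  have := hc l
  rw [hl] at this
  exact ht0 this

/-- the support is contained in the primes of the denominator and finitely many others -/
lemma support_le (hP : P ≠ 0) (hQ : Q ≠ 0) (hPQ : IsCoprime P Q) (hc : ∀ l, IsPole P Q (c l)) :
    ∃ B : ℝ, 1 ≤ B ∧ ∀ (t : K) (ht0 : Q.eval t ≠ 0),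
      nn (spA (fun l => opp (c l)) (cpt c ⟨t, off_of hc ht0⟩)) ≤ B * den (P.eval t / Q.eval t) := by
  classical
  have hB := goodF_finite hP hQ hPQ hc
  refine ⟨nn hB.toFinset, one_le_nn _, fun t ht0 => ?_⟩
  have hgood : ∀ v : Pr K, v ∈ spA (fun l => opp (c l)) (cpt c ⟨t, off_of hc ht0⟩) → v ∉ hB.toFinset →
      v ∈ {v : Pr K | 1 < v.valuation K (P.eval t / Q.eval t)} := by
    intro v hv hvB
    rw [mem_spA] at hv
    obtain ⟨l, hl⟩ := hv
    have hvg : GoodF v P Q c := by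
      by_contra h'
      exact hvB ((Set.Finite.mem_toFinset hB).2 h')
    by_contra hcon
    exact not_meet hvg.1 hvg.2.1 (hc l) (fun a ha => hvg.2.2 l a ha) ht0 (not_lt.1 hcon) hl
  have hsf := pole_finite (P.eval t / Q.eval t)
  have hsub : spA (fun l => opp (c l)) (cpt c ⟨t, off_of hc ht0⟩) ⊆ hsf.toFinset ∪ (hB.toFinset \ hsf.toFinset) := by
    intro v hv
    rw [Finset.union_sdiff_self_eq_union, Finset.mem_union]
    by_cases hvB : v ∈ hB.toFinset
    · exact Or.inr hvB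
    · left
      rw [Set.Finite.mem_toFinset]
      exact hgood v hv hvB
  refine (nn_mono hsub).trans ?_
  rw [nn_union disjoint_sdiff, mul_comm]
  exact mul_le_mul_of_nonneg_right (nn_mono sdiff_subset) (nn_pos _).le

/-- the values with a height larger than `C` plus `M` times the logarithm of the denominator -/
def Bad (P Q : K[X]) (M C : ℝ) : Set K :=
  {t | Q.eval t ≠ 0 ∧ C + M * Real.log (den (P.eval t / Q.eval t)) < Height.logHeight₁ (P.eval t / Q.eval t)}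

/-- counting bad values -/
theorem bad_count (hP : P ≠ 0) (hQ : Q ≠ 0) (hPQ : IsCoprime P Q) (hq : 3 ≤ q) (hinj : Function.Injective c)
    (hc : ∀ l, IsPole P Q (c l)) {M : ℝ} (hM : ((max P.natDegree Q.natDegree : ℕ) : ℝ) / q < M) :
    ∃ ν C : ℝ, 0 < ν ∧ ν ≤ 2 / q ∧ ∀ ε : ℝ, 0 < ε → ∃ D : ℝ, ∀ T : ℝ, 1 ≤ T →
      {t : K | t ∈ Bad P Q M C ∧ den (P.eval t / Q.eval t) ≤ T}.Finite ∧
      ({t : K | t ∈ Bad P Q M C ∧ den (P.eval t / Q.eval t) ≤ T}.ncard : ℝ) ≤ D * T ^ (2 / (q : ℝ) - ν + ε) := by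
  classical
  have hq0 : (0 : ℝ) < q := by exact_mod_cast (by omega : 0 < q)
  obtain ⟨D, hD⟩ : ∃ D : ℕ, D = max P.natDegree Q.natDegree := ⟨_, rfl⟩
  rw [← hD] at hM
  have hM0 : 0 < M := lt_of_le_of_lt (by positivity) hM
  have hMq : (D : ℝ) < M * q := by rwa [div_lt_iff₀ hq0] at hM
  obtain ⟨κ, hκ⟩ : ∃ κ : ℝ, κ = (M * q - D) / (2 * M) := ⟨_, rfl⟩
  have hκ0 : 0 < κ := by
    rw [hκ]
    exact div_pos (by linarith) (by linarith)
  have hMκ : M * ((q : ℝ) - κ) - D = (M * q - D) / 2 := by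
    rw [hκ]
    field_simp
    ring
  obtain ⟨ν, hν, hexc⟩ := exc_dec hq (fun l => opp (c l)) (opc_inj hinj) hκ0
  obtain ⟨Cf, hCf⟩ := curve_height (K := K) (f := ![P, Q]) (D := D) (by
    intro i
    fin_cases i
    · exact hD ▸ le_max_left _ _
    · exact hD ▸ le_max_right _ _)
  obtain ⟨B, hB1, hB⟩ := support_le (c := c) hP hQ hPQ hc
  refine ⟨min ν (2 / q), Cf + M * Real.log B, lt_min hν (by positivity), min_le_right _ _, fun ε hε => ?_⟩
  obtain ⟨D', hD', hb⟩ := hexc (2 / (q : ℝ) - min ν (2 / q) + ε) (by linarith [min_le_left ν (2 / (q : ℝ))])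
  set θ : ℝ := 2 / (q : ℝ) - min ν (2 / q) + ε with hθ
  have hθ0 : 0 < θ := by linarith [min_le_right ν (2 / (q : ℝ))]
  refine ⟨D' * B ^ θ, fun T hT => fin_count _ _ fun F hF => ?_⟩
  have hTp : (0 : ℝ) < T := by linarith
  have hBp : (0 : ℝ) < B := by linarith
  -- the bad values are exceptional
  have hex : ∀ t ∈ F, ∃ ho : Q.eval t ≠ 0, Real.log (nn (spA (fun l => opp (c l)) (cpt c ⟨t, off_of hc ho⟩))) ≤
      ((q : ℝ) - κ) * ht (cpt c ⟨t, off_of hc ho⟩).1 := by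
    intro t htF
    obtain ⟨⟨ht0, hbad⟩, -⟩ := hF htF
    refine ⟨ht0, ?_⟩
    by_contra hcon
    rw [not_le] at hcon
    have h1 := hCf t
    have e1 : (fun i => ((![P, Q] : Fin 2 → K[X]) i).eval t) = ![P.eval t, Q.eval t] := by
      funext i
      fin_cases i <;> rfl
    rw [e1, ← Height.logHeight₁_div_eq_logHeight] at h1
    have h2 : (cpt c ⟨t, off_of hc ht0⟩).1 = pt t := rfl
    rw [h2] at hcon
    have h3 := hB t ht0
    have h4 : Real.log (nn (spA (fun l => opp (c l)) (cpt c ⟨t, off_of hc ht0⟩))) ≤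
        Real.log B + Real.log (den (P.eval t / Q.eval t)) := by
      rw [← Real.log_mul hBp.ne' (den_pos _).ne']
      exact Real.log_le_log (nn_pos _) h3
    have h6 := ht_nonneg (pt t)
    have h7 : (D : ℝ) * ht (pt t) ≤ M * (((q : ℝ) - κ) * ht (pt t)) := by
      rw [← mul_assoc]
      refine mul_le_mul_of_nonneg_right ?_ h6
      linarith
    have h8 : M * (((q : ℝ) - κ) * ht (pt t)) ≤ M * (Real.log B + Real.log (den (P.eval t / Q.eval t))) :=
      mul_le_mul_of_nonneg_left (hcon.le.trans h4) hM0.le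
    rw [mul_add] at h8
    linarith
  -- the injection
  obtain ⟨g, hg⟩ : ∃ g : {t // t ∈ F} → {P : Off (fun l => opp (c l)) //
      Real.log (nn (spA (fun l => opp (c l)) P)) ≤ ((q : ℝ) - κ) * ht P.1},
      ∀ t, (g t).1 = cpt c ⟨t.1, off_of hc (hex t.1 t.2).choose⟩ :=
    ⟨fun t => ⟨cpt c ⟨t.1, off_of hc (hex t.1 t.2).choose⟩, (hex t.1 t.2).choose_spec⟩, fun t => rfl⟩
  have hinj' : Function.Injective g := by
    intro a b hab
    have h1 : (g a).1 = (g b).1 := by rw [hab]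
    rw [hg, hg] at h1
    have h2 := cpt_injective c h1
    exact Subtype.ext (congrArg (fun z => z.1) h2)
  have h := hb (F.attach.image g)
  rw [sum_image fun a _ b _ hab => hinj' hab] at h
  have h5 : ∑ _t ∈ F.attach, (B * T) ^ (-θ) ≤ ∑ t ∈ F.attach, (nn (spA (fun l => opp (c l)) (g t).1)) ^ (-θ) := by
    refine sum_le_sum fun t _ => ?_
    rw [hg]
    refine Real.rpow_le_rpow_of_nonpos (nn_pos _) ?_ (by linarith)
    exact (hB t.1 (hex t.1 t.2).choose).trans (mul_le_mul_of_nonneg_left (hF t.2).2 hBp.le)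
  have h6 := h5.trans h
  rw [sum_const, card_attach, nsmul_eq_mul, Real.rpow_neg (by positivity)] at h6
  have hpos : 0 < (B * T) ^ θ := Real.rpow_pos_of_pos (by positivity) _
  rw [← div_eq_mul_inv, div_le_iff₀ hpos, Real.mul_rpow hBp.le hTp.le] at h6
  linarith

/-- counting all values -/
theorem all_count (hP : P ≠ 0) (hQ : Q ≠ 0) (hPQ : IsCoprime P Q) (hq : 3 ≤ q) (hinj : Function.Injective c)
    (hc : ∀ l, IsPole P Q (c l)) (ε : ℝ) (hε : 0 < ε) : ∃ D : ℝ, ∀ T : ℝ, 1 ≤ T →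
      {t : K | Q.eval t ≠ 0 ∧ den (P.eval t / Q.eval t) ≤ T}.Finite ∧
      ({t : K | Q.eval t ≠ 0 ∧ den (P.eval t / Q.eval t) ≤ T}.ncard : ℝ) ≤ D * T ^ (2 / (q : ℝ) + ε) := by
  classical
  have hq0 : (0 : ℝ) < q := by exact_mod_cast (by omega : 0 < q)
  obtain ⟨B, hB1, hB⟩ := support_le (c := c) hP hQ hPQ hc
  obtain ⟨C, hC, hb⟩ := off_count hq (fun l => opp (c l)) (opc_inj hinj) ε hε
  have hBp : (0 : ℝ) < B := by linarith
  refine ⟨C * B ^ (2 / (q : ℝ) + ε), fun T hT => fin_count _ _ fun F hF => ?_⟩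
  have hTp : (0 : ℝ) < T := by linarith
  obtain ⟨g, hg⟩ : ∃ g : {t // t ∈ F} → Off (fun l => opp (c l)),
      ∀ t, g t = cpt c ⟨t.1, off_of hc (hF t.2).1⟩ := ⟨fun t => cpt c ⟨t.1, off_of hc (hF t.2).1⟩, fun t => rfl⟩
  have hinj' : Function.Injective g := by
    intro a b hab
    rw [hg, hg] at hab
    have h2 := cpt_injective c hab
    exact Subtype.ext (congrArg (fun z => z.1) h2)
  have h := hb (B * T) (by nlinarith) (F.attach.image g) (fun x hx => by
    obtain ⟨t, -, rfl⟩ := mem_image.1 hx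
    rw [hg]
    exact (hB t.1 (hF t.2).1).trans (mul_le_mul_of_nonneg_left (hF t.2).2 hBp.le))
  rw [card_image_of_injective _ hinj', card_attach, Real.mul_rpow hBp.le hTp.le] at h
  linarith

end

end Pool.Agent.X174.WinCurve
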