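import Mathlib

/-!
# The number of elements of a number field of bounded size
-/

set_option autoImplicit false

namespace Pool.Agent.X174.NearTup

open NumberField

/-- there are at most `C T ^ m` integers of `F` all of whose conjugates have absolute value at most `T` -/
theorem card_int (F : Type) [Field F] [NumberField F] : ∃ C : ℝ, 0 ≤ C ∧ ∀ T : ℝ, 1 ≤ T →
    {a : 𝓞 F | ∀ φ : F →+* ℂ, ‖φ (a : F)‖ ≤ T}.Finite ∧
    ({a : 𝓞 F | ∀ φ : F →+* ℂ, ‖φ (a : F)‖ ≤ T}.ncard : ℝ) ≤ C * T ^ (Module.finrank ℚ F) := by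
  classical
  -- bounds for the coordinates
  have h1 : ∀ i : Module.Free.ChooseBasisIndex ℤ (𝓞 F), ∃ c : ℝ, 0 ≤ c ∧ ∀ x : (F →+* ℂ) → ℂ,
      ‖(canonicalEmbedding.latticeBasis F).repr x i‖ ≤ c * ‖x‖ := by
    intro i
    set f : ((F →+* ℂ) → ℂ) →L[ℂ] ℂ :=
      LinearMap.toContinuousLinearMap ((canonicalEmbedding.latticeBasis F).coord i) with hf
    exact ⟨‖f‖, f.opNorm_nonneg, fun x => f.le_opNorm x⟩
  choose c hc0 hc using h1
  set M : ℝ := 1 + ∑ i, c i with hM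
  have hM1 : 1 ≤ M := by
    rw [hM]
    linarith [Finset.sum_nonneg fun i (_ : i ∈ Finset.univ) => hc0 i]
  have hcM : ∀ i, c i ≤ M := fun i => by
    have := Finset.single_le_sum (f := c) (fun i _ => hc0 i) (Finset.mem_univ i)
    linarith
  -- the integral coordinates
  have hrep : ∀ (a : 𝓞 F) i, (canonicalEmbedding.latticeBasis F).repr (canonicalEmbedding F (a : F)) i =
      (((RingOfIntegers.basis F).repr a i : ℤ) : ℂ) := by
    intro a i
    have h2 : (a : F) = ∑ k, ((RingOfIntegers.basis F).repr a k : ℤ) • (integralBasis F k : F) := by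
      have h3 := (RingOfIntegers.basis F).sum_repr a
      have h4 : ((∑ k, (RingOfIntegers.basis F).repr a k • RingOfIntegers.basis F k : 𝓞 F) : F) = (a : F) :=
        congrArg (fun y : 𝓞 F => (y : F)) h3
      rw [← h4]
      push_cast
      refine Finset.sum_congr rfl fun k _ => ?_
      rw [integralBasis_apply]
    have h5 : canonicalEmbedding F (a : F) =
        ∑ k, (((RingOfIntegers.basis F).repr a k : ℤ) : ℂ) • canonicalEmbedding.latticeBasis F k := by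
      rw [h2, map_sum]
      refine Finset.sum_congr rfl fun k _ => ?_
      rw [map_zsmul, canonicalEmbedding.latticeBasis_apply]
      simp [Algebra.smul_def]
    rw [h5, map_sum, Finset.sum_apply']
    simp only [map_smul, Module.Basis.repr_self, Finsupp.smul_apply, Finsupp.single_apply, smul_eq_mul,
      mul_ite, mul_one, mul_zero]
    rw [Finset.sum_ite_eq' Finset.univ i]
    simp
  refine ⟨(3 * M) ^ (Module.finrank ℚ F), by positivity, fun T hT => ?_⟩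
  set H : ℤ := ⌊M * T⌋ with hH
  have hbox : ∀ a ∈ {a : 𝓞 F | ∀ φ : F →+* ℂ, ‖φ (a : F)‖ ≤ T}, ∀ i,
      (RingOfIntegers.basis F).repr a i ∈ Finset.Icc (-H) H := by
    intro a ha i
    have h2 := hc i (canonicalEmbedding F (a : F))
    rw [hrep, Complex.norm_intCast] at h2
    have h3 : ‖canonicalEmbedding F (a : F)‖ ≤ T :=
      (pi_norm_le_iff_of_nonneg (by linarith)).2 fun φ => ha φ
    have h4 : |(((RingOfIntegers.basis F).repr a i : ℤ) : ℝ)| ≤ M * T :=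
      h2.trans (mul_le_mul (hcM i) h3 (norm_nonneg _) (by linarith))
    rw [← Int.cast_abs] at h4
    have h5 : |(RingOfIntegers.basis F).repr a i| ≤ H := Int.le_floor.2 h4
    rw [Finset.mem_Icc]
    exact abs_le.1 h5
  have hH0 : 0 ≤ H := Int.floor_nonneg.2 (by positivity)
  set box : Finset (Module.Free.ChooseBasisIndex ℤ (𝓞 F) → ℤ) := Fintype.piFinset fun _ => Finset.Icc (-H) H with hbx
  have hinj : Function.Injective fun a : 𝓞 F => fun i => (RingOfIntegers.basis F).repr a i := by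
    intro a b hab
    apply (RingOfIntegers.basis F).repr.injective
    ext i
    exact congrFun hab i
  have hmaps : ∀ a ∈ {a : 𝓞 F | ∀ φ : F →+* ℂ, ‖φ (a : F)‖ ≤ T},
      (fun i => (RingOfIntegers.basis F).repr a i) ∈ (box : Set (Module.Free.ChooseBasisIndex ℤ (𝓞 F) → ℤ)) := by
    intro a ha
    rw [Finset.mem_coe, hbx, Fintype.mem_piFinset]
    exact hbox a ha
  have hfin : {a : 𝓞 F | ∀ φ : F →+* ℂ, ‖φ (a : F)‖ ≤ T}.Finite :=
    Set.Finite.of_finite_image ((box.finite_toSet).subset (Set.image_subset_iff.2 hmaps)) hinj.injOn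
  refine ⟨hfin, ?_⟩
  have h6 : {a : 𝓞 F | ∀ φ : F →+* ℂ, ‖φ (a : F)‖ ≤ T}.ncard ≤ box.card := by
    rw [← Set.ncard_image_of_injective _ hinj, ← Set.ncard_coe_finset]
    exact Set.ncard_le_ncard (Set.image_subset_iff.2 hmaps) box.finite_toSet
  have h7 : box.card = (Finset.Icc (-H) H).card ^ (Module.finrank ℚ F) := by
    rw [hbx, Fintype.card_piFinset]
    simp only [Finset.prod_const, Finset.card_univ]
    rw [← Module.finrank_eq_card_chooseBasisIndex, RingOfIntegers.rank]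
  have h8 : ((Finset.Icc (-H) H).card : ℝ) ≤ 3 * M * T := by
    rw [Int.card_Icc]
    have h9 : (H : ℝ) ≤ M * T := Int.floor_le _
    have h10 : (((H + 1 - -H).toNat : ℕ) : ℝ) = 2 * (H : ℝ) + 1 := by
      have : ((H + 1 - -H).toNat : ℤ) = 2 * H + 1 := by
        rw [Int.toNat_of_nonneg (by omega)]
        ring
      exact_mod_cast this
    rw [h10]
    nlinarith
  calc ({a : 𝓞 F | ∀ φ : F →+* ℂ, ‖φ (a : F)‖ ≤ T}.ncard : ℝ) ≤ (box.card : ℝ) := by exact_mod_cast h6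
    _ = ((Finset.Icc (-H) H).card : ℝ) ^ (Module.finrank ℚ F) := by rw [h7]; push_cast; rfl
    _ ≤ (3 * M * T) ^ (Module.finrank ℚ F) := pow_le_pow_left₀ (by positivity) h8 _
    _ = (3 * M) ^ (Module.finrank ℚ F) * T ^ (Module.finrank ℚ F) := mul_pow _ _ _

/-- there are at most `C T ^ (2 m)` quotients of such integers -/
theorem card_quot (F : Type) [Field F] [NumberField F] : ∃ C : ℝ, 0 ≤ C ∧ ∀ T : ℝ, 1 ≤ T →
    {t : F | ∃ a b : 𝓞 F, b ≠ 0 ∧ (∀ φ : F →+* ℂ, ‖φ a‖ ≤ T ∧ ‖φ b‖ ≤ T) ∧ t = a / b}.Finite ∧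
    ({t : F | ∃ a b : 𝓞 F, b ≠ 0 ∧ (∀ φ : F →+* ℂ, ‖φ a‖ ≤ T ∧ ‖φ b‖ ≤ T) ∧ t = a / b}.ncard : ℝ) ≤
      C * T ^ (2 * Module.finrank ℚ F) := by
  obtain ⟨C, hC, h⟩ := card_int F
  refine ⟨C ^ 2, by positivity, fun T hT => ?_⟩
  obtain ⟨h1, h2⟩ := h T hT
  set S : Set (𝓞 F) := {a : 𝓞 F | ∀ φ : F →+* ℂ, ‖φ (a : F)‖ ≤ T} with hS
  have hsub : {t : F | ∃ a b : 𝓞 F, b ≠ 0 ∧ (∀ φ : F →+* ℂ, ‖φ a‖ ≤ T ∧ ‖φ b‖ ≤ T) ∧ t = a / b} ⊆
      (fun p : 𝓞 F × 𝓞 F => (p.1 : F) / (p.2 : F)) '' (S ×ˢ S) := by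
    rintro t ⟨a, b, -, hab, rfl⟩
    exact ⟨(a, b), ⟨fun φ => (hab φ).1, fun φ => (hab φ).2⟩, rfl⟩
  have hfin : (S ×ˢ S).Finite := h1.prod h1
  refine ⟨(hfin.image _).subset hsub, ?_⟩
  have h3 : {t : F | ∃ a b : 𝓞 F, b ≠ 0 ∧ (∀ φ : F →+* ℂ, ‖φ a‖ ≤ T ∧ ‖φ b‖ ≤ T) ∧ t = a / b}.ncard ≤
      S.ncard * S.ncard := by
    refine (Set.ncard_le_ncard hsub (hfin.image _)).trans ((Set.ncard_image_le hfin).trans ?_)
    rw [Set.ncard_prod]
  have h4 : (S.ncard : ℝ) * S.ncard ≤ (C * T ^ (Module.finrank ℚ F)) * (C * T ^ (Module.finrank ℚ F)) :=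
    mul_le_mul h2 h2 (Nat.cast_nonneg _) (by positivity)
  calc _ ≤ ((S.ncard * S.ncard : ℕ) : ℝ) := by exact_mod_cast h3
    _ = (S.ncard : ℝ) * S.ncard := by push_cast; rfl
    _ ≤ _ := h4
    _ = C ^ 2 * T ^ (2 * Module.finrank ℚ F) := by
        rw [two_mul, pow_add]
        ring

end Pool.Agent.X174.NearTup
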