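import Pool.Agent.X39.Near.Cpx
import Pool.Agent.X174.CardInt

/-!
# Simultaneous approximation of `n` complex numbers by the elements of all number fields of bounded degree

If there are only `C T ^ ε N ^ (n - 1)` bad `n`-tuples of elements of size at most `T`, where `N` is the number of the
elements of size at most `T`, then outside a set of Hausdorff dimension at most `2 m (n - 1) / ω` all `n`-tuples of complex
numbers have, in every number field of degree at most `m`, only good simultaneous approximations of quality `T ^ (-ω)`.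
-/

set_option autoImplicit false

namespace Pool.Agent.X174.NearTup

open Filter Topology MeasureTheory NumberField
open Pool.Agent.X39.Near (Size coord countable_fields exists_iso)

/-- the coordinates of a tuple of complex numbers -/
def coordT {n : ℕ} (z : Fin n → ℂ) (j : Fin n × Fin 2) : ℝ := coord (z j.1) j.2

/-- the dimension of a set in the coordinates -/
theorem dimH_coordT {n : ℕ} (E : Set (Fin n × Fin 2 → ℝ)) :
    dimH ((coordT : (Fin n → ℂ) → Fin n × Fin 2 → ℝ) ⁻¹' E) ≤ dimH E := by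
  let g : (Fin n × Fin 2 → ℝ) → (Fin n → ℂ) := fun α j => (α (j, 0) : ℂ) + α (j, 1) * Complex.I
  have hg : LipschitzWith 2 g := by
    refine LipschitzWith.of_dist_le_mul fun a b => ?_
    refine (dist_pi_le_iff (by positivity)).2 fun j => ?_
    have h1 : g a j - g b j = ((a (j, 0) - b (j, 0) : ℝ) : ℂ) + ((a (j, 1) - b (j, 1) : ℝ) : ℂ) * Complex.I := by
      simp only [g]
      push_cast
      ring
    have h2 : |a (j, 0) - b (j, 0)| ≤ dist a b := by
      have := dist_le_pi_dist a b (j, 0)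
      rwa [Real.dist_eq] at this
    have h3 : |a (j, 1) - b (j, 1)| ≤ dist a b := by
      have := dist_le_pi_dist a b (j, 1)
      rwa [Real.dist_eq] at this
    rw [dist_eq_norm, h1]
    refine (norm_add_le _ _).trans ?_
    rw [norm_mul, Complex.norm_I, mul_one, Complex.norm_real, Complex.norm_real, Real.norm_eq_abs,
      Real.norm_eq_abs]
    push_cast
    linarith
  have hsub : (coordT : (Fin n → ℂ) → Fin n × Fin 2 → ℝ) ⁻¹' E ⊆ g '' E := by
    intro z hz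
    refine ⟨coordT z, hz, ?_⟩
    funext j
    simp only [g, coordT, coord]
    exact Complex.re_add_im (z j)
  have h1 := hg.dimH_image_le E
  exact (dimH_mono hsub).trans h1

/-- one field, one compact set, one exponent -/
theorem local_dim {n : ℕ} {Q : Type} (pt : Q → Fin n → ℂ) (S : ℝ → ℝ → Set Q) {s ω : ℝ} (hs : 0 ≤ s) (hω : 0 < ω)
    (h : ∀ ε : ℝ, 0 < ε → ∃ B C T₀ : ℝ, ∀ T : ℝ, T₀ ≤ T →
      (S B T).Finite ∧ ((S B T).ncard : ℝ) ≤ C * T ^ (s + ε)) :
    ∃ E : Set (Fin n → ℂ), dimH E ≤ ENNReal.ofReal (s / ω) ∧ ∀ x : Fin n → ℂ, x ∉ E → ∃ (B : ℝ) (n0 : ℕ),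
      ∀ k : ℕ, n0 ≤ k → ∀ t ∈ S B (2 ^ (k + 1)), ¬ ∀ j, ‖pt t j - x j‖ ≤ ((2 : ℝ) ^ k) ^ (-ω) := by
  have hpos : ∀ n : ℕ, (1 : ℝ) ≤ (2 : ℝ) ^ n := fun n => one_le_pow₀ (by norm_num)
  have hgeo : Pool.Agent.Y854.GM.ExpLe (fun n : ℕ => (2 : ℝ) ^ n) 0 :=
    Pool.Agent.Y854.GM.expLe_geom 2 (by norm_num)
  have key : ∀ k : ℕ, ∃ (B : ℝ) (E : Set (Fin n × Fin 2 → ℝ)),
      dimH E ≤ ENNReal.ofReal ((s + 1 / ((k : ℝ) + 1) + 0) / (1 - (1 - ω))) ∧
      ∀ α : Fin n × Fin 2 → ℝ, α ∉ E → ∃ n0 : ℕ, ∀ i : ℕ, n0 ≤ i → ∀ t ∈ S B (2 ^ (i + 1)),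
        ¬ ∀ j, |coordT (pt t) j * 2 ^ i - α j * 2 ^ i| ≤ ((2 : ℝ) ^ i) ^ (1 - ω) := by
    intro k
    have hk : 0 < 1 / ((k : ℝ) + 1) := by positivity
    obtain ⟨B, C, T₀, hB⟩ := h _ hk
    refine ⟨B, ?_⟩
    refine Pool.Agent.X174.windowsVecV (fun i => S B (2 ^ (i + 1)))
      (fun i t j => coordT (pt t) j * 2 ^ i) hpos le_rfl hgeo (by linarith) (by linarith) ?_
    intro ε hε
    obtain ⟨n₁, hn₁⟩ : ∃ n₁ : ℕ, T₀ ≤ (2 : ℝ) ^ n₁ := by
      obtain ⟨n₁, h⟩ := pow_unbounded_of_one_lt T₀ (by norm_num : (1 : ℝ) < 2)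
      exact ⟨n₁, h.le⟩
    refine ⟨|C| * 2 ^ (s + 1 / ((k : ℝ) + 1)), n₁, fun i hi => ?_⟩
    have hT : T₀ ≤ (2 : ℝ) ^ (i + 1) :=
      hn₁.trans (pow_le_pow_right₀ (by norm_num) (hi.trans (Nat.le_succ i)))
    obtain ⟨h1, h2⟩ := hB _ hT
    refine ⟨h1, h2.trans ?_⟩
    rw [pow_succ, mul_comm ((2 : ℝ) ^ i) 2, Real.mul_rpow (by norm_num) (by positivity), ← mul_assoc]
    calc C * 2 ^ (s + 1 / ((k : ℝ) + 1)) * ((2 : ℝ) ^ i) ^ (s + 1 / ((k : ℝ) + 1))
        ≤ |C| * 2 ^ (s + 1 / ((k : ℝ) + 1)) * ((2 : ℝ) ^ i) ^ (s + 1 / ((k : ℝ) + 1)) := by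
          refine mul_le_mul_of_nonneg_right ?_ (by positivity)
          exact mul_le_mul_of_nonneg_right (le_abs_self C) (by positivity)
      _ ≤ _ := mul_le_mul_of_nonneg_left
          (Real.rpow_le_rpow_of_exponent_le (hpos i) (by linarith)) (by positivity)
  choose B E h1 h2 using key
  refine ⟨(coordT : (Fin n → ℂ) → Fin n × Fin 2 → ℝ) ⁻¹' (⋂ k, E k), ?_, fun x hx => ?_⟩
  · refine (dimH_coordT _).trans ?_
    have hlim : Tendsto (fun k : ℕ => ENNReal.ofReal ((s + 1 / ((k : ℝ) + 1) + 0) / (1 - (1 - ω))))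
        atTop (𝓝 (ENNReal.ofReal (s / ω))) := by
      apply ENNReal.tendsto_ofReal
      have h3 : Tendsto (fun k : ℕ => 1 / ((k : ℝ) + 1)) atTop (𝓝 0) := tendsto_one_div_add_atTop_nhds_zero_nat
      have h4 := ((h3.const_add s).add_const 0).div_const (1 - (1 - ω))
      have h5 : (s + 0 + 0) / (1 - (1 - ω)) = s / ω := by ring_nf
      rwa [h5] at h4
    exact ge_of_tendsto' hlim fun k => (dimH_mono (Set.iInter_subset _ k)).trans (h1 k)
  · rw [Set.mem_preimage, Set.mem_iInter] at hx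
    push Not at hx
    obtain ⟨k, hk⟩ := hx
    obtain ⟨n0, hn⟩ := h2 k _ hk
    refine ⟨B k, n0, fun i hi t ht hclose => hn i hi t ht fun j => ?_⟩
    have hp : (0 : ℝ) < 2 ^ i := by positivity
    rw [← sub_mul, abs_mul, abs_of_pos hp]
    have h5 : |coordT (pt t) j - coordT x j| ≤ ‖pt t j.1 - x j.1‖ := by
      obtain ⟨j1, j2⟩ := j
      fin_cases j2
      · simpa [coordT, coord] using Complex.abs_re_le_norm (pt t j1 - x j1)
      · simpa [coordT, coord] using Complex.abs_im_le_norm (pt t j1 - x j1)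
    calc |coordT (pt t) j - coordT x j| * 2 ^ i ≤ ((2 : ℝ) ^ i) ^ (-ω) * 2 ^ i :=
          mul_le_mul_of_nonneg_right (h5.trans (hclose j.1)) hp.le
      _ = ((2 : ℝ) ^ i) ^ (1 - ω) := by
          have h7 : 1 - ω = -ω + 1 := by ring
          rw [h7, Real.rpow_add hp, Real.rpow_one]

/-- **Tuples in all number fields of degree at most `m`.** `Rel F ι d A B T t`: there is a relation at `t` of degree at most
`d` and height at most `T ^ A`, up to `T ^ (-B)`. -/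
theorem tuples (n m : ℕ) (hn : 1 ≤ n) (Ω : Fin n → Set ℂ) (hΩ : ∀ j, IsOpen (Ω j))
    (Rel : ∀ (F : Type) [Field F] [NumberField F], (F →+* ℂ) → ℕ → ℝ → ℝ → ℝ → (Fin n → F) → Prop)
    (htrans : ∀ (F F' : Type) [Field F] [NumberField F] [Field F'] [NumberField F'] (ι : F →+* ℂ)
      (ι' : F' →+* ℂ) (e : F ≃+* F'), (∀ t, ι' (e t) = ι t) → ∀ (d : ℕ) (A B T : ℝ) (t : Fin n → F),
      Rel F ι d A B T t → Rel F' ι' d A B T (fun j => e (t j)))
    (hlev : ∀ (F : Type) [Field F] [NumberField F] (ι : F →+* ℂ) (d : ℕ) (A B B' T T' : ℝ) (t : Fin n → F),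
      0 ≤ A → 1 ≤ T → T ≤ T' → T' ≤ T ^ 2 → 2 * |B'| ≤ B → Rel F ι d A B T t → Rel F ι d A B' T' t)
    (main : ∀ K : Fin n → Set ℂ, (∀ j, IsCompact (K j)) → (∀ j, K j ⊆ Ω j) → ∀ (d : ℕ) (A ε : ℝ), 0 ≤ A → 0 < ε →
      ∃ B C T₀ : ℝ, ∀ (F : Type) [Field F] [NumberField F], Module.finrank ℚ F ≤ m → ∀ (ι : F →+* ℂ) (T : ℝ), T₀ ≤ T →
        {t : Fin n → F | (∀ j, ι (t j) ∈ K j ∧ Size F T (t j)) ∧ Rel F ι d A B T t}.Finite ∧
        ({t : Fin n → F | (∀ j, ι (t j) ∈ K j ∧ Size F T (t j)) ∧ Rel F ι d A B T t}.ncard : ℝ) ≤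
          C * T ^ ε * ({x : F | Size F T x}.ncard : ℝ) ^ (n - 1))
    {ω : ℝ} (hω : 0 < ω) :
    ∃ E : Set (Fin n → ℂ), dimH E ≤ ENNReal.ofReal (2 * m * ((n : ℝ) - 1) / ω) ∧
      ∀ x : Fin n → ℂ, (∀ j, x j ∈ Ω j) → x ∉ E → ∀ (F : Type) [Field F] [NumberField F],
        Module.finrank ℚ F ≤ m → ∀ (ι : F →+* ℂ) (d A : ℕ), ∃ B T₁ : ℝ, ∀ T : ℝ, T₁ ≤ T → ∀ t : Fin n → F,
          (∀ j, Size F T (t j)) → (∀ j, ‖ι (t j) - x j‖ ≤ T ^ (-ω)) → ¬ Rel F ι d A B T t := by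
  classical
  have hn1 : (1 : ℝ) ≤ n := by exact_mod_cast hn
  have hs : (0 : ℝ) ≤ 2 * m * ((n : ℝ) - 1) := by
    have : (0 : ℝ) ≤ (n : ℝ) - 1 := by linarith
    positivity
  -- the exceptional sets
  have key : ∀ (F : IntermediateField ℚ ℂ) (hF : NumberField F) (d A : ℕ) (i : Fin n → ℕ) (k : ℕ),
      ∃ E : Set (Fin n → ℂ), dimH E ≤ ENNReal.ofReal (2 * m * ((n : ℝ) - 1) / ω) ∧
        ((∀ j, Metric.closedBall (TopologicalSpace.denseSeq ℂ (i j)) (2 / ((k : ℝ) + 1)) ⊆ Ω j) →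
        Module.finrank ℚ F ≤ m →
        ∀ x : Fin n → ℂ, x ∉ E → ∃ (B : ℝ) (n0 : ℕ), ∀ r : ℕ, n0 ≤ r → ∀ t : Fin n → F,
          (∀ j, (t j : ℂ) ∈ Metric.closedBall (TopologicalSpace.denseSeq ℂ (i j)) (2 / ((k : ℝ) + 1)) ∧
            Size F (2 ^ (r + 1)) (t j)) → Rel F (algebraMap F ℂ) d A B (2 ^ (r + 1)) t →
          ¬ ∀ j, ‖(t j : ℂ) - x j‖ ≤ ((2 : ℝ) ^ r) ^ (-ω)) := by
    intro F hF d A i k
    by_cases hsub : (∀ j, Metric.closedBall (TopologicalSpace.denseSeq ℂ (i j)) (2 / ((k : ℝ) + 1)) ⊆ Ω j) ∧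
        Module.finrank ℚ F ≤ m
    · obtain ⟨c, hc0, hc⟩ := card_quot F
      obtain ⟨E, h1, h2⟩ := local_dim (Q := Fin n → F) (fun t j => (t j : ℂ))
        (fun B T => {t : Fin n → F | (∀ j, algebraMap F ℂ (t j) ∈
          Metric.closedBall (TopologicalSpace.denseSeq ℂ (i j)) (2 / ((k : ℝ) + 1)) ∧ Size F T (t j)) ∧
          Rel F (algebraMap F ℂ) d A B T t}) hs hω (by
          intro ε hε
          obtain ⟨B, C, T₀, h3⟩ := main _ (fun j => isCompact_closedBall _ _) hsub.1 d A ε (Nat.cast_nonneg A) hε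
          refine ⟨B, |C| * c ^ (n - 1), max T₀ 1, fun T hT => ?_⟩
          have hT0 : T₀ ≤ T := (le_max_left _ _).trans hT
          have hT1 : 1 ≤ T := (le_max_right _ _).trans hT
          obtain ⟨h4, h5⟩ := h3 F hsub.2 (algebraMap F ℂ) T hT0
          refine ⟨h4, h5.trans ?_⟩
          have h6 := (hc T hT1).2
          have h7 : (({x : F | Size F T x}.ncard : ℕ) : ℝ) ≤ c * T ^ (2 * m) := by
            refine h6.trans (mul_le_mul_of_nonneg_left ?_ hc0)
            exact pow_le_pow_right₀ hT1 (Nat.mul_le_mul_left 2 hsub.2)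
          calc C * T ^ ε * (({x : F | Size F T x}.ncard : ℕ) : ℝ) ^ (n - 1)
              ≤ |C| * T ^ ε * (({x : F | Size F T x}.ncard : ℕ) : ℝ) ^ (n - 1) :=
                mul_le_mul_of_nonneg_right (mul_le_mul_of_nonneg_right (le_abs_self C) (by positivity))
                  (by positivity)
            _ ≤ |C| * T ^ ε * (c * T ^ (2 * m)) ^ (n - 1) :=
                mul_le_mul_of_nonneg_left (pow_le_pow_left₀ (Nat.cast_nonneg _) h7 _) (by positivity)
            _ = |C| * c ^ (n - 1) * T ^ (2 * m * ((n : ℝ) - 1) + ε) := by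
                have h8 : (T ^ (2 * m)) ^ (n - 1) = T ^ (2 * m * ((n : ℝ) - 1)) := by
                  rw [← pow_mul, ← Real.rpow_natCast]
                  congr 1
                  push_cast [Nat.cast_sub hn]
                  ring
                rw [mul_pow, h8, Real.rpow_add (by linarith)]
                ring)
      refine ⟨E, h1, fun _ _ x hx => ?_⟩
      obtain ⟨B, n0, h3⟩ := h2 x hx
      exact ⟨B, n0, fun r hr t ht hRel => h3 r hr t ⟨ht, hRel⟩⟩
    · exact ⟨∅, by simp, fun h h' => absurd ⟨h, h'⟩ hsub⟩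
  choose E h1 h2 using key
  have hcount : Countable {F : IntermediateField ℚ ℂ | NumberField F} := countable_fields.to_subtype
  refine ⟨⋃ F : {F : IntermediateField ℚ ℂ | NumberField F}, ⋃ d, ⋃ A, ⋃ i, ⋃ k,
    E F.1 F.2 d A i k, ?_, ?_⟩
  · simp only [dimH_iUnion, iSup_le_iff]
    exact fun F d A i k => h1 F.1 F.2 d A i k
  · intro x hx hxE F _ _ hFm ι d A
    simp only [Set.mem_iUnion, not_exists] at hxE
    obtain ⟨F', hF', e, he⟩ := exists_iso F ι
    have hFm' : Module.finrank ℚ F' ≤ m := by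
      let e' : F ≃ₗ[ℚ] F' := (RingEquiv.toRatAlgEquiv e).toLinearEquiv
      rw [← e'.finrank_eq]
      exact hFm
    -- the compact sets
    have hr : ∀ j, ∃ r : ℝ, 0 < r ∧ Metric.ball (x j) r ⊆ Ω j := fun j => Metric.isOpen_iff.1 (hΩ j) _ (hx j)
    choose r hr hrU using hr
    obtain ⟨k, hk⟩ : ∃ k : ℕ, ∀ j, 1 / ((k : ℝ) + 1) < r j / 4 := by
      have h3 : ∀ j, ∃ k : ℕ, 1 / ((k : ℝ) + 1) < r j / 4 := fun j => exists_nat_one_div_lt (by linarith [hr j])
      choose k hk using h3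
      refine ⟨∑ j, k j, fun j => lt_of_le_of_lt ?_ (hk j)⟩
      apply one_div_le_one_div_of_le (by positivity)
      have := Finset.single_le_sum (f := k) (fun _ _ => Nat.zero_le _) (Finset.mem_univ j)
      have h4 : (k j : ℝ) ≤ ((∑ j, k j : ℕ) : ℝ) := by exact_mod_cast this
      linarith
    have hk0 : 0 < 1 / ((k : ℝ) + 1) := by positivity
    have hi : ∀ j, ∃ i, dist (x j) (TopologicalSpace.denseSeq ℂ i) < 1 / ((k : ℝ) + 1) := fun j =>
      (TopologicalSpace.denseRange_denseSeq ℂ).exists_dist_lt (x j) hk0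
    choose i hi using hi
    have h2k : 2 / ((k : ℝ) + 1) = 1 / ((k : ℝ) + 1) + 1 / ((k : ℝ) + 1) := by ring
    have hsub : ∀ j, Metric.closedBall (TopologicalSpace.denseSeq ℂ (i j)) (2 / ((k : ℝ) + 1)) ⊆ Ω j := by
      intro j z hz
      refine hrU j ?_
      rw [Metric.mem_closedBall, h2k] at hz
      rw [Metric.mem_ball]
      calc dist z (x j) ≤ dist z (TopologicalSpace.denseSeq ℂ (i j)) + dist (TopologicalSpace.denseSeq ℂ (i j)) (x j) :=
            dist_triangle _ _ _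
        _ < r j := by rw [dist_comm _ (x j)]; linarith [hi j, hk j]
    obtain ⟨B, n0, h3⟩ := h2 F' hF' d A i k hsub hFm' x (hxE ⟨F', hF'⟩ d A i k)
    -- the level
    obtain ⟨T₂, hT₂⟩ : ∃ T₂ : ℝ, ∀ T : ℝ, T₂ ≤ T → T ^ (-ω) ≤ 1 / ((k : ℝ) + 1) := by
      have h4 : Tendsto (fun T : ℝ => T ^ (-ω)) atTop (𝓝 0) := tendsto_rpow_neg_atTop hω
      exact (h4.eventually (ge_mem_nhds hk0)).exists_forall_of_atTop
    refine ⟨2 * |B|, max (max 2 T₂) (2 ^ (n0 + 1)), fun T hT t hsz hclose hRel => ?_⟩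
    have hT2 : 2 ≤ T := ((le_max_left _ _).trans (le_max_left _ _)).trans hT
    have hTT : T₂ ≤ T := ((le_max_right _ _).trans (le_max_left _ _)).trans hT
    have hTn : (2 : ℝ) ^ (n0 + 1) ≤ T := (le_max_right _ _).trans hT
    obtain ⟨l, hl⟩ : ∃ l : ℕ, (2 : ℝ) ^ l ≤ T ∧ T < 2 ^ (l + 1) :=
      exists_nat_pow_near (by linarith) (by norm_num)
    have hn0 : n0 ≤ l := by
      by_contra hcon
      rw [not_le] at hcon
      have h5 : (2 : ℝ) ^ (l + 1) ≤ 2 ^ (n0 + 1) := pow_le_pow_right₀ (by norm_num) (by omega)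
      linarith [hl.2]
    have hp : (0 : ℝ) < 2 ^ l := by positivity
    refine h3 l hn0 (fun j => e (t j)) (fun j => ⟨?_, (hsz j).map e |>.mono hl.2.le⟩) ?_ fun j => ?_
    · rw [he, Metric.mem_closedBall, h2k]
      calc dist (ι (t j)) (TopologicalSpace.denseSeq ℂ (i j))
          ≤ dist (ι (t j)) (x j) + dist (x j) (TopologicalSpace.denseSeq ℂ (i j)) := dist_triangle _ _ _
        _ ≤ 1 / ((k : ℝ) + 1) + 1 / ((k : ℝ) + 1) := by
            refine add_le_add ?_ (hi j).le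
            rw [dist_eq_norm]
            exact (hclose j).trans (hT₂ T hTT)
    · have h5 : T ≤ 2 ^ (l + 1) := hl.2.le
      have h6 : (2 : ℝ) ^ (l + 1) ≤ T ^ 2 := by
        rw [pow_succ, sq]
        nlinarith [hl.1]
      exact hlev _ _ _ _ _ _ _ _ _ (Nat.cast_nonneg A) (by linarith) h5 h6 le_rfl
        (htrans F F' ι (algebraMap F' ℂ) e he d A _ T t hRel)
    · rw [he]
      exact (hclose j).trans (Real.rpow_le_rpow_of_nonpos hp hl.1 (by linarith))

end Pool.Agent.X174.NearTup
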