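import Pool.Agent.X174.MasterTup

/-!
# Integral polynomials at simultaneous rational approximations
-/

set_option autoImplicit false

namespace Pool.Agent.X174.NearTup

open NumberField MeasureTheory
open Pool.Agent.X39.Near (Size degreeOf_map)

/-- an integral polynomial as a polynomial over the ring of the coefficients -/
theorem dependent_of_int {J : Type} {n q g : ℕ} {f : Fin n → J → ℂ → ℂ} {u : Fin n → Fin q → Polynomial ℂ}
    {w : Fin n → Polynomial ℂ} {ξ : Fin g → ℂ} {F : Type} [Field F] [NumberField F] {ι : F →+* ℂ} {d : ℕ} {A B T : ℝ}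
    {t : Fin n → F} (hT : 0 ≤ T) (P : MvPolynomial (Fin n × J) ℤ) (h0 : P ≠ 0) (hd : ∀ x, P.degreeOf x ≤ d)
    (hc : ∀ s, |((P.coeff s : ℤ) : ℝ)| ≤ T ^ A)
    (hP : ‖MvPolynomial.aeval (fun x : Fin n × J => f x.1 x.2 (ι (t x.1))) P‖ ≤ T ^ (-B)) :
    DependentT f u w ξ F ι d A B T t := by
  classical
  set cc : ℤ →+* MvPolynomial ((Fin n × Fin q) ⊕ Fin g) (𝓞 F) := MvPolynomial.C.comp (Int.castRingHom (𝓞 F)) with hcc
  have hcomp : (coefAtT u w ξ F ι t).comp cc = Int.castRingHom ℂ := RingHom.ext_int _ _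
  have hval : ∀ z : ℤ, coefAtT u w ξ F ι t (cc z) = (z : ℂ) := fun z => by simp
  obtain ⟨e₀, he₀⟩ := MvPolynomial.ne_zero_iff.1 h0
  refine ⟨MvPolynomial.map cc P, fun x => (degreeOf_map _ P x).trans (hd x), fun e v => ?_,
    fun e s φ => ?_, e₀, ?_, ?_⟩
  · rw [MvPolynomial.coeff_map, hcc]
    simp only [RingHom.comp_apply]
    rw [MvPolynomial.degreeOf_C]
    exact Nat.zero_le _
  · rw [MvPolynomial.coeff_map, hcc]
    simp only [RingHom.comp_apply, MvPolynomial.coeff_C]
    split_ifs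
    · simp only [eq_intCast, map_intCast, Complex.norm_intCast]
      exact hc e
    · simp only [map_zero, norm_zero]
      positivity
  · rw [MvPolynomial.coeff_map, hval]
    exact_mod_cast he₀
  · rw [MvPolynomial.coeff_map, hval, MvPolynomial.eval₂_map, hcomp]
    have h1 : MvPolynomial.eval₂ (Int.castRingHom ℂ) (fun x : Fin n × J => f x.1 x.2 (ι (t x.1))) P =
        MvPolynomial.aeval (fun x : Fin n × J => f x.1 x.2 (ι (t x.1))) P := by
      rw [MvPolynomial.aeval_def]
      rfl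
    rw [h1]
    have h2 : (1 : ℝ) ≤ ‖((P.coeff e₀ : ℤ) : ℂ)‖ := by
      rw [Complex.norm_intCast]
      exact_mod_cast Int.one_le_abs he₀
    calc _ ≤ T ^ (-B) := hP
      _ = T ^ (-B) * 1 := (mul_one _).symm
      _ ≤ _ := mul_le_mul_of_nonneg_left h2 (by positivity)

/-- rational numbers with numerator and denominator at most `T` -/
theorem size_rat {T : ℝ} {t : ℚ} (h1 : |(t.num : ℝ)| ≤ T) (h2 : (t.den : ℝ) ≤ T) : Size ℚ T t := by
  refine ⟨((t.num : ℤ) : 𝓞 ℚ), ((t.den : ℕ) : 𝓞 ℚ), ?_, fun φ => ⟨?_, ?_⟩, ?_⟩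
  · exact_mod_cast t.den_nz
  · simp only [map_intCast, Complex.norm_intCast]
    exact h1
  · simp only [map_natCast, Complex.norm_natCast]
    exact h2
  · simp [Rat.num_div_den]

end Pool.Agent.X174.NearTup
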