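import Pool.Agent.X174.WinQ

/-! Points of projective space over `ℚ`: primitive integral vectors in cubes around the members of a thin sequence. -/

set_option autoImplicit false

open Finset Filter Topology MeasureTheory

namespace Pool.Agent.X174

/-- two primitive vectors in the same class differ by a sign -/
lemma primitive_eq {n : ℕ} {x y : Fin (n + 1) → ℤ} (hx : Finset.univ.gcd x = 1) (hy : Finset.univ.gcd y = 1)
    {a : ℚ} (h : ∀ j, (x j : ℚ) = a * (y j : ℚ)) : x = y ∨ x = -y := by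
  -- `a.den * x_j = a.num * y_j`
  have h1 : ∀ j, (a.den : ℤ) * x j = a.num * y j := by
    intro j
    have h2 := h j
    have h3 : a = (a.num : ℚ) / (a.den : ℚ) := (Rat.num_div_den a).symm
    have h4 : (a.den : ℚ) ≠ 0 := by exact_mod_cast a.den_nz
    have h5 : (a.den : ℚ) * (x j : ℚ) = (a.num : ℚ) * (y j : ℚ) := by
      rw [h2]
      conv_lhs => rw [h3]
      field_simp
      rw [← h3]
    exact_mod_cast h5
  have hcop : IsCoprime (a.den : ℤ) a.num := by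
    rw [Int.isCoprime_iff_gcd_eq_one]
    have h2 := a.reduced
    rw [Nat.coprime_iff_gcd_eq_one] at h2
    rw [Int.gcd_comm]
    simpa [Int.gcd] using h2
  have hd1 : (a.den : ℤ) ∣ Finset.univ.gcd y := by
    apply Finset.dvd_gcd
    intro j _
    exact hcop.dvd_of_dvd_mul_left ⟨x j, (h1 j).symm⟩
  have hd2 : a.num ∣ Finset.univ.gcd x := by
    apply Finset.dvd_gcd
    intro j _
    exact hcop.symm.dvd_of_dvd_mul_left ⟨y j, h1 j⟩
  rw [hy] at hd1
  rw [hx] at hd2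
  have e1 : (a.den : ℤ) = 1 := by
    rcases Int.isUnit_iff.1 (isUnit_of_dvd_one hd1) with h | h
    · exact h
    · have := a.den_pos
      omega
  rcases Int.isUnit_iff.1 (isUnit_of_dvd_one hd2) with h2 | h2
  · left
    funext j
    have := h1 j
    rw [e1, h2] at this
    linarith
  · right
    funext j
    have := h1 j
    rw [e1, h2] at this
    simp only [Pi.neg_apply]
    linarith

/-- a primitive vector of a class -/
noncomputable def prim {n : ℕ} (P : Projectivization ℚ (Fin (n + 1) → ℚ)) : Fin (n + 1) → ℤ :=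
  open Classical in
  if h : ∃ x : Fin (n + 1) → ℤ, Finset.univ.gcd x = 1 ∧ ∃ hx : (fun j => (x j : ℚ)) ≠ 0,
    Projectivization.mk ℚ (fun j => (x j : ℚ)) hx = P then h.choose else 0

lemma prim_spec {n : ℕ} {x : Fin (n + 1) → ℤ} (hg : Finset.univ.gcd x = 1) (hx : (fun j => (x j : ℚ)) ≠ 0) :
    x = prim (Projectivization.mk ℚ (fun j => (x j : ℚ)) hx) ∨
      x = - prim (Projectivization.mk ℚ (fun j => (x j : ℚ)) hx) := by
  have h : ∃ y : Fin (n + 1) → ℤ, Finset.univ.gcd y = 1 ∧ ∃ hy : (fun j => (y j : ℚ)) ≠ 0,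
    Projectivization.mk ℚ (fun j => (y j : ℚ)) hy = Projectivization.mk ℚ (fun j => (x j : ℚ)) hx := ⟨x, hg, hx, rfl⟩
  have e : prim (Projectivization.mk ℚ (fun j => (x j : ℚ)) hx) = h.choose := by
    unfold prim
    rw [dif_pos h]
  rw [e]
  obtain ⟨h1, h2, h3⟩ := h.choose_spec
  rw [eq_comm, Projectivization.mk_eq_mk_iff'] at h3
  obtain ⟨a, ha⟩ := h3
  apply primitive_eq hg h1 (a := a)
  intro j
  have := congrFun ha j
  simp only [Pi.smul_apply, smul_eq_mul] at this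
  exact this.symm

/-- **points of projective space over `ℚ`** -/
theorem winProj {n : ℕ} (Bad : ℝ → Set (Projectivization ℚ (Fin (n + 1) → ℚ))) {s : ℝ} (hs : 0 ≤ s)
    (hE : ∀ ε : ℝ, 0 < ε → ∃ C : ℝ, ∀ T : ℝ, 1 ≤ T → (Bad T).Finite ∧ ((Bad T).ncard : ℝ) ≤ C * T ^ (s + ε))
    {v : ℕ → ℝ} {τ ρ : ℝ}
    (hpos : ∀ i, 1 ≤ v i) (hτ : 0 ≤ τ) (hv : Pool.Agent.Y854.GM.ExpLe v τ) (hρ : ρ < 1) :
    ∃ E : Set (Fin (n + 1) → ℝ), dimH E ≤ ENNReal.ofReal ((s + τ) / (1 - ρ)) ∧ ∀ α : Fin (n + 1) → ℝ, α ∉ E →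
      ∀ R : ℕ, 1 ≤ R → ∃ i₀ : ℕ, ∀ i : ℕ, i₀ ≤ i → ∀ x : Fin (n + 1) → ℤ, Finset.univ.gcd x = 1 →
        (∀ j, |(x j : ℝ) - α j * v i| ≤ (v i) ^ ρ) → ∀ hx : (fun j => (x j : ℚ)) ≠ 0,
          Projectivization.mk ℚ (fun j => (x j : ℚ)) hx ∉ Bad (R * v i) := by
  obtain ⟨E, h1, h2⟩ := winFamE (κ := Fin (n + 1)) (Q := Fin (n + 1) → ℤ) (fun x j => (x j : ℝ))
    (fun T => prim '' Bad T ∪ (fun P => - prim P) '' Bad T) hs (by
      intro ε hε
      obtain ⟨C, hC⟩ := hE ε hε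
      refine ⟨2 * C, fun T hT => ?_⟩
      obtain ⟨h3, h4⟩ := hC T hT
      refine ⟨(h3.image _).union (h3.image _), ?_⟩
      have h5 : ((prim '' Bad T ∪ (fun P => - prim P) '' Bad T).ncard : ℝ) ≤ (Bad T).ncard + (Bad T).ncard := by
        have h6 := (Set.ncard_union_le (prim '' Bad T) ((fun P => - prim P) '' Bad T)).trans
          (add_le_add (Set.ncard_image_le h3) (Set.ncard_image_le h3))
        exact_mod_cast h6
      linarith) hpos hτ hv hρ
  refine ⟨E, h1, fun α hα R hR => ?_⟩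
  obtain ⟨i₀, hi₀⟩ := h2 α hα R hR
  refine ⟨i₀, fun i hi x hg hc hx hbad => hi₀ i hi x hc ?_⟩
  rcases prim_spec hg hx with h | h
  · exact Or.inl ⟨_, hbad, h.symm⟩
  · exact Or.inr ⟨_, hbad, h.symm⟩

/-- the height of a primitive vector -/
lemma mulHeight_prim_le {n : ℕ} {x : Fin (n + 1) → ℤ} (hg : Finset.univ.gcd x = 1) (hx : (fun j => (x j : ℚ)) ≠ 0)
    {B : ℝ} (hB : ∀ j, |(x j : ℝ)| ≤ B) :
    (Projectivization.mk ℚ (fun j => (x j : ℚ)) hx).mulHeight ≤ B := by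
  rw [Projectivization.mulHeight_mk]
  have h := Rat.mulHeight_eq_max_abs_of_gcd_eq_one hg
  have e : (fun j => (x j : ℚ)) = (((↑) : ℤ → ℚ) ∘ x) := rfl
  rw [e, h, Finite.map_iSup_of_monotone (fun i => |x i|) (Int.cast_mono (R := ℝ))]
  refine ciSup_le fun j => ?_
  simp only [Int.cast_abs]
  exact hB j

end Pool.Agent.X174
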